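import Pool.Agent.H46.CH.AT

/-!
# The regular level with changes of the colours of few elements
-/

set_option autoImplicit false

namespace Pool.Agent.H46.CH

open Pool.Agent.H8.VR Pool.Agent.H69.VR Classical

/-! ### parameters -/

/-- Parameters: `W` carries everything except the changes of colours, which are `f` and `g`; the colours
in `rg` are never changed; `af` is invariant. -/
structure Pn (N Q L T O C : Type) [Fintype T] where
  W : Pm N Q L T O C
  f : O → Q → Q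
  g : O → Q → Q
  rg : Q → Prop
  fr : ∀ o q, rg q → f o q = q
  gr : ∀ o q, rg q → g o q = q
  ff : ∀ o q, W.af (f o q) = W.af q
  gg : ∀ o q, W.af (g o q) = W.af q

section
variable {N Q L T O C : Type} [Fintype T]

/-- the composition system -/
def Pn.S (V : Pn N Q L T O C) : Sg N Q L T O := { V.W.S with f := V.f, g := V.g }

/-- less than `H` elements have colours outside `rg` -/
def Pn.Sml (V : Pn N Q L T O C) : Prop := ∀ (A : Type) [Fintype A] (lam : A → L)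
  (th : A → A → T) (s : N) (X : Set A) (c : A → Q), V.S.Gen lam th s X c →
    (num fun a => a ∈ X ∧ ¬ V.rg (c a)) < V.W.H

variable [Fintype Q] [Fintype L] [Fintype C]

/-- the configuration after the change of colours -/
noncomputable def Pn.rc (V : Pn N Q L T O C) (o : O) (a e : Ix Q L T C → ℕ) :
    Ix Q L T C → ℕ := fun σ =>
  fs (fun ρ => (V.f o ρ.1, ρ.2) = σ) a + fs (fun ρ => (V.g o ρ.1, ρ.2) = σ) e

/-- There is a generated structure of sort `s` whose elements have target indices: `c` is the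
configuration of the ordinary elements, `U` that of the extra elements, and the exact numbers of the
extra elements are shifted by `off`. -/
def Pn.RX (V : Pn N Q L T O C) (s : N) (c U : Ix Q L T C → ℕ) (off : Q × L → L × T → ℕ) : Prop :=
  ∃ (A : Type) (_ : Fintype A) (lam : A → L) (th : A → A → T) (X E : Set A) (col : A → Q)
    (t : A → Ix Q L T C), Sym V.S th ∧ V.S.Gen lam th s X col ∧ E ⊆ X ∧
    (∀ a ∈ X, (t a).1 = col a ∧ (t a).2.1 = lam a) ∧
    (∀ a ∈ X, a ∉ E → ∀ z, V.W.cmp (V.W.sat (col a) z) ((t a).2.2 z) (kn lam th X a z)) ∧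
    (∀ a ∈ E, ∀ z, ∃ n, V.W.cmp (V.W.sat (col a) z) ((t a).2.2 z) n ∧
      kn lam th X a z = n + off (col a, lam a) z) ∧
    (∀ σ, c σ = num fun a => a ∈ X ∧ a ∉ E ∧ t a = σ) ∧ ∀ σ, U σ = num fun a => a ∈ E ∧ t a = σ

/-- the same without extra elements -/
def Pn.RD (V : Pn N Q L T O C) (s : N) (c : Ix Q L T C → ℕ) : Prop := V.RX s c 0 0

/-- correct run trees -/
inductive Pn.Ok (V : Pn N Q L T O C) : Rt N Q L T O C → Prop
  | leaf (D : Dt N Q L T O C) (q : Q) (l : L) (h : V.W.S.pt D.s q l)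
      (hc : ∀ σ, D.c σ = ind (σ = (q, (l, fun _ => V.W.K.cp 0)))) (hg : V.W.good D) :
      Pn.Ok V (.leaf D q l)
  | join (D : Dt N Q L T O C) (o : O) (w : List (Sd Q L T C)) (t₁ t₂ : Rt N Q L T O C)
      (h₁ : Pn.Ok V t₁) (h₂ : Pn.Ok V t₂) (hs : V.W.S.s o = t₁.dt.s) (ht : V.W.S.t o = t₂.dt.s)
      (hu : V.W.S.u o = D.s)
      (hF₁ : ∀ φ, t₁.dt.F φ = D.F φ + if φ.1 = o ∧ φ.2.1 = true then kc t₂.dt.c φ.2.2 else 0)
      (hF₂ : ∀ φ, t₂.dt.F φ = D.F φ + if φ.1 = o ∧ φ.2.1 = false then kc t₁.dt.c φ.2.2 else 0)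
      (a' e : Ix Q L T C → ℕ) (hw : V.W.JR o t₁.dt.c t₂.dt.c w a' 0 e)
      (hc : ∀ σ, D.c σ = V.rc o a' e σ) (hg : V.W.good D) : Pn.Ok V (.join D o w t₁ t₂)

/-- the numbers `F` of outside elements are realised; `fin` are the final numbers, `c` the colours of
the elements of `X` -/
def Pn.adm {A : Type} (V : Pn N Q L T O C) (lam : A → L) (th : A → A → T) (fin : A → L × T → C)
    (c : A → Q) (X : Set A) (F : Fk Q L O → ℕ) : Prop :=
  ∀ φ, ∃ Y : Finset A, F φ ≤ Y.card ∧ ∀ y ∈ Y, y ∉ X ∧ fin y = V.W.af φ.2.2.1 ∧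
    lam y = φ.2.2.2 ∧ ∀ x ∈ X, V.rg (c x) →
      if φ.2.1 = true then V.W.S.al φ.1 (c x) φ.2.2.1 (th x y)
      else V.W.S.al φ.1 φ.2.2.1 (c x) (th y x)

/-- the sizes of the generated structures whose indices are accepted -/
def Pn.Lm (V : Pn N Q L T O C) (s₀ : N) (Ac : Ix Q L T C → Prop) : Set ℕ :=
  {n | ∃ (A : Type) (_ : Fintype A) (lam : A → L) (th : A → A → T) (col : A → Q),
    Sym V.S th ∧ V.S.Gen lam th s₀ Set.univ col ∧ Fintype.card A = n ∧
    ∀ a, Ac (col a, stt V.W.K lam th Set.univ a)}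

end

/-! ### targets: structures -/

/-- kinds in words of steps -/
def T_KCn : Prop := ∀ (N Q L T O C : Type) [Fintype Q] [Fintype L] [Fintype T] [Fintype C]
  (W : Pm N Q L T O C) (o : O) (a b a' b' e : Ix Q L T C → ℕ) (w : List (Sd Q L T C)),
    W.JR o a b w a' b' e → (∀ κ, kc a' κ = kc a κ) ∧ ∀ κ, kc b κ = kc b' κ + kc e κ

/-- frequent kinds are rigid -/
def T_SMn : Prop := ∀ (N Q L T O C : Type) [Fintype Q] [Fintype L] [Fintype T] [Fintype C]
  (V : Pn N Q L T O C), V.Sml → ∀ (s : N) (c : Ix Q L T C → ℕ), V.RD s c →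
    ∀ κ, V.W.H ≤ kc c κ → V.rg κ.1

/-- the union of two structures -/
def T_JCn : Prop := ∀ (N Q L T O : Type) (S : Sg N Q L T O), STriv S → ∀ (o : O) (A B : Type)
  [Fintype A] [Fintype B] (lam : A → L) (th : A → A → T) (X : Set A) (col : A → Q)
  (lam' : B → L) (th' : B → B → T) (Y : Set B) (col' : B → Q) (h : A → B → T),
    Sym S th → Sym S th' →
    S.Gen lam th (S.s o) X col → S.Gen lam' th' (S.t o) Y col' →
    (∀ x ∈ X, ∀ y ∈ Y, S.al o (col x) (col' y) (h x y)) → ∃ th'' : A ⊕ B → A ⊕ B → T,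
      Sym S th'' ∧ S.Gen (Sum.elim lam lam') th'' (S.u o) (Sum.inl '' X ∪ Sum.inr '' Y)
        (Sum.elim (fun a => S.f o (col a)) fun b => S.g o (col' b)) ∧
      (∀ x ∈ X, ∀ z, kn (Sum.elim lam lam') th'' (Sum.inl '' X ∪ Sum.inr '' Y) (.inl x) z =
        kn lam th X x z + num fun y => y ∈ Y ∧ lam' y = z.1 ∧ h x y = z.2) ∧
      ∀ y ∈ Y, ∀ z, kn (Sum.elim lam lam') th'' (Sum.inl '' X ∪ Sum.inr '' Y) (.inr y) z =
        kn lam' th' Y y z + num fun x => x ∈ X ∧ lam x = z.1 ∧ S.sw (h x y) = z.2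

/-- one-element structures -/
def T_XPn : Prop := ∀ (N Q L T O C : Type) [Fintype Q] [Fintype L] [Fintype T] [Fintype C]
  [Nonempty T] (V : Pn N Q L T O C) (s : N) (q : Q) (l : L) (c : Ix Q L T C → ℕ),
    V.W.S.pt s q l → (∀ σ, c σ = ind (σ = (q, (l, fun _ => V.W.K.cp 0)))) → V.RD s c

/-- ordinary elements become extra elements -/
def T_XAn : Prop := ∀ (N Q L T O C : Type) [Fintype Q] [Fintype L] [Fintype T] [Fintype C]
  (V : Pn N Q L T O C) (s : N) (c U : Ix Q L T C → ℕ), V.RD s (c + U) → V.RX s c U 0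

/-- extra elements become ordinary elements -/
def T_XBn : Prop := ∀ (N Q L T O C : Type) [Fintype Q] [Fintype L] [Fintype T] [Fintype C]
  (V : Pn N Q L T O C) (s : N) (c U : Ix Q L T C → ℕ) (off : Q × L → L × T → ℕ),
    V.RX s c U off → (∀ σ, U σ ≠ 0 → ∀ z, V.W.P ∣ off (σ.1, σ.2.1) z ∧
      (off (σ.1, σ.2.1) z ≠ 0 → V.W.sat σ.1 z)) → V.RD s (c + U)

/-- unions with extra elements on the left -/
def T_XLn : Prop := ∀ (N Q L T O C : Type) [Fintype Q] [Fintype L] [Fintype T] [Fintype O]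
  [Fintype C] [Nonempty T] (V : Pn N Q L T O C) (o : O) (c U b a' e : Ix Q L T C → ℕ)
  (off : Q × L → L × T → ℕ), V.RX (V.W.S.s o) c U off → V.RD (V.W.S.t o) b →
    V.W.JG o c b a' 0 e → (∀ σ, V.W.P ∣ U σ) → (∀ σ, U σ ≠ 0 → V.rg σ.1) →
    (∀ σ τ, U σ ≠ 0 → b τ ≠ 0 → ∃ θ, V.W.slt (σ.1, σ.2.1) (o, true, τ.1, τ.2.1) θ) →
      V.RX (V.W.S.u o) (V.rc o a' e) U (off + V.W.ofs fun φ =>
        if φ.1 = o ∧ φ.2.1 = true then kc b φ.2.2 else 0)

/-- unions with extra elements on the right -/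
def T_XRn : Prop := ∀ (N Q L T O C : Type) [Fintype Q] [Fintype L] [Fintype T] [Fintype O]
  [Fintype C] [Nonempty T] (V : Pn N Q L T O C) (o : O) (a c U a' e : Ix Q L T C → ℕ)
  (off : Q × L → L × T → ℕ), V.RD (V.W.S.s o) a → V.RX (V.W.S.t o) c U off →
    V.W.JG o a c a' 0 e → (∀ σ, V.W.P ∣ U σ) → (∀ σ, U σ ≠ 0 → V.rg σ.1) →
    (∀ σ τ, U σ ≠ 0 → a τ ≠ 0 → ∃ θ, V.W.slt (σ.1, σ.2.1) (o, false, τ.1, τ.2.1) θ) →
      V.RX (V.W.S.u o) (V.rc o a' e) U (off + V.W.ofs fun φ =>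
        if φ.1 = o ∧ φ.2.1 = false then kc a φ.2.2 else 0)

/-- unions without extra elements -/
def T_XDn : Prop := ∀ (N Q L T O C : Type) [Fintype Q] [Fintype L] [Fintype T] [Finite O]
  [Fintype C] [Nonempty T] (V : Pn N Q L T O C) (o : O) (a b a' e : Ix Q L T C → ℕ),
    V.RD (V.W.S.s o) a → V.RD (V.W.S.t o) b → V.W.JG o a b a' 0 e →
      V.RD (V.W.S.u o) (V.rc o a' e)

/-- correct run trees are realised -/
def T_ROn : Prop := ∀ (N Q L T O C : Type) [Fintype Q] [Fintype L] [Fintype T] [Finite O]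
  [Fintype C] [Nonempty T] (V : Pn N Q L T O C) (R : Rt N Q L T O C), V.Ok R →
    V.RD R.dt.s R.dt.c

/-- subtrees are correct -/
def T_EDn : Prop := ∀ (N Q L T O C : Type) [Fintype Q] [Fintype L] [Fintype T] [Fintype C]
  (V : Pn N Q L T O C) (t R : Rt N Q L T O C), Rt.Sub t R → V.Ok R → V.Ok t

/-- extra elements are carried from a subtree to the root -/
def T_SHn : Prop := ∀ (N Q L T O C : Type) [Fintype Q] [Fintype L] [Fintype T] [Fintype O]
  [Fintype C] [Nonempty T] (V : Pn N Q L T O C) (t R : Rt N Q L T O C), Rt.Sub t R → V.Ok R →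
    (∀ φ, R.dt.F φ ≤ t.dt.F φ) ∧ ∀ (U : Ix Q L T C → ℕ) (off : Q × L → L × T → ℕ),
      (∀ σ, V.W.P ∣ U σ) → (∀ σ, U σ ≠ 0 → V.rg σ.1) →
      (∀ σ φ, U σ ≠ 0 → R.dt.F φ < t.dt.F φ → ∃ θ, V.W.slt (σ.1, σ.2.1) φ θ) →
        V.RX t.dt.s t.dt.c U off →
          V.RX R.dt.s R.dt.c U (off + V.W.ofs fun φ => t.dt.F φ - R.dt.F φ)

/-- extra elements are carried between nodes with the same data -/
def T_SDn : Prop := ∀ (N Q L T O C : Type) [Fintype Q] [Fintype L] [Fintype T] [Finite O]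
  [Fintype C] [Nonempty T] (V : Pn N Q L T O C), V.Sml → ∀ (t R : Rt N Q L T O C)
  (D : Dt N Q L T O C) (U : Ix Q L T C → ℕ), Rt.Sub t R → V.Ok R → V.W.dle D t.dt →
    V.W.dle D R.dt → (∀ σ, V.W.P ∣ U σ) → (∀ σ, U σ ≠ 0 → V.W.H ≤ D.c σ) →
      V.RD D.s (t.dt.c + U) → V.RD D.s (R.dt.c + U)

/-- the amalgam at a union -/
def T_PMn : Prop := ∀ (N Q L T O C : Type) [Fintype Q] [Fintype L] [Fintype T] [Finite O]
  [Fintype C] [Nonempty T] (V : Pn N Q L T O C), V.Sml → ∀ (D : Dt N Q L T O C) (o : O)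
  (w : List (Sd Q L T C)) (t₁ t₂ : Rt N Q L T O C), V.Ok (.join D o w t₁ t₂) → ∀ (n : ℕ)
  (D' : Fin n → Dt N Q L T O C) (w' : Fin n → List (Sd Q L T C))
  (t₁' t₂' : Fin n → Rt N Q L T O C), (∀ i, V.Ok (.join (D' i) o (w' i) (t₁' i) (t₂' i)) ∧
    V.W.dle D (D' i) ∧ List.SublistForall₂ V.W.sle w (w' i) ∧ V.W.dle t₁.dt (t₁' i).dt ∧
    V.W.dle t₂.dt (t₂' i).dt) →
    V.RD t₁.dt.s (fun σ => t₁.dt.c σ + ∑ i, ((t₁' i).dt.c σ - t₁.dt.c σ)) →
    V.RD t₂.dt.s (fun σ => t₂.dt.c σ + ∑ i, ((t₂' i).dt.c σ - t₂.dt.c σ)) →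
      V.RD D.s (fun σ => D.c σ + ∑ i, ((D' i).c σ - D.c σ))

/-- the extensions are carried to the roots one after the other -/
def T_PSn : Prop := ∀ (N Q L T O C : Type) [Fintype Q] [Fintype L] [Fintype T] [Finite O]
  [Fintype C] [Nonempty T] (V : Pn N Q L T O C), V.Sml → ∀ (D : Dt N Q L T O C) (n : ℕ)
  (t R : Fin n → Rt N Q L T O C), (∀ i, Rt.Sub (t i) (R i) ∧ V.Ok (R i) ∧ V.W.dle D (t i).dt ∧
    V.W.dle D (R i).dt) → V.RD D.s (fun σ => D.c σ + ∑ i, ((t i).dt.c σ - D.c σ)) →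
      V.RD D.s (fun σ => D.c σ + ∑ i, ((R i).dt.c σ - D.c σ))

/-- the amalgam of any number of extensions of a run tree -/
def T_PTn : Prop := ∀ (N Q L T O C : Type) [Fintype Q] [Fintype L] [Fintype T] [Finite O]
  [Fintype C] [Nonempty T] (V : Pn N Q L T O C), V.Sml → ∀ t : Rt N Q L T O C, V.Ok t →
  ∀ (n : ℕ) (R : Fin n → Rt N Q L T O C), (∀ i, V.Ok (R i) ∧ V.W.Ext t (R i)) →
    V.RD t.dt.s (fun σ => t.dt.c σ + ∑ i, ((R i).dt.c σ - t.dt.c σ))

/-- run trees of generated structures -/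
def T_XTn : Prop := ∀ (N Q L T O C : Type) [Fintype Q] [Fintype L] [Fintype T] [Fintype C]
  (V : Pn N Q L T O C), V.Sml → ∀ (A : Type) [Fintype A] (lam : A → L) (th : A → A → T)
  (fin : A → L × T → C), Sym V.S th →
  (∀ a z, V.W.K.cp (kn lam th Set.univ a z) = fin a z) → (∀ a, ∃ q, V.W.af q = fin a) →
  ∀ (s : N) (X : Set A) (c : A → Q), V.S.Gen lam th s X c → (∀ a ∈ X, V.W.af (c a) = fin a) →
  ∀ F : Fk Q L O → ℕ, V.adm lam th fin c X F →
    ∃ R : Rt N Q L T O C, V.Ok R ∧ R.dt = ⟨s, F, cf V.W.K lam th X X c⟩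

/-! ### targets: assembly -/

/-- accepted structures have run trees -/
def T_EAn : Prop := ∀ (N Q L T O C : Type) [Fintype Q] [Fintype L] [Fintype T] [Fintype C]
  (V : Pn N Q L T O C), V.Sml → ∀ (s₀ : N) (Ac : Ix Q L T C → Prop),
  (∀ σ, Ac σ → σ.2.2 = V.W.af σ.1) → ∀ n ∈ V.Lm s₀ Ac, ∃ R : Rt N Q L T O C, V.Ok R ∧
    R.dt.s = s₀ ∧ (∀ φ, R.dt.F φ = 0) ∧ tot R.dt.c = n ∧ ∀ σ, R.dt.c σ ≠ 0 → Ac σ

/-- realised accepted configurations -/
def T_EBn : Prop := ∀ (N Q L T O C : Type) [Fintype Q] [Fintype L] [Fintype T] [Fintype C]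
  (V : Pn N Q L T O C) (s₀ : N) (Ac : Ix Q L T C → Prop), (∀ σ, Ac σ → σ.2.2 = V.W.af σ.1) →
  ∀ c : Ix Q L T C → ℕ, V.RD s₀ c → (∀ σ, c σ ≠ 0 → Ac σ) → tot c ∈ V.Lm s₀ Ac

/-- the theorem for the parameters -/
def T_ECn : Prop := ∀ (N Q L T O C : Type) [Finite N] [Fintype Q] [Fintype L] [Fintype T]
  [Finite O] [Fintype C] [Nonempty T] (V : Pn N Q L T O C), V.Sml → ∀ (s₀ : N)
  (Ac : Ix Q L T C → Prop), (∀ σ, Ac σ → σ.2.2 = V.W.af σ.1) → EvPer (V.Lm s₀ Ac)

/-- the theorem for composition systems -/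
def T_ESn : Prop := ∀ (N Q L T O C : Type) [Finite N] [Fintype Q] [Fintype L] [Fintype T]
  [Finite O] [Fintype C] [Nonempty T] (S : Sg N Q L T O) (K : Cp C) (s₀ : N)
  (Ok : St L T C → Prop) (rg : Q → Prop) (k₁ : ℕ),
  (∀ o q, rg q → S.f o q = q ∧ S.g o q = q) → STriv S →
  (∀ (A : Type) [Fintype A] (lam : A → L) (th : A → A → T) (s : N) (X : Set A) (c : A → Q),
    S.Gen lam th s X c → (num fun a => a ∈ X ∧ ¬ rg (c a)) ≤ k₁) →
    EvPer {n | SysMem S K s₀ Ok n}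

/-! ### grammars -/

/-- The colours in `rg` are never changed, and `B s q` bounds the number of the elements of the colour
`q`, not in `rg`, in the generated structures of sort `s`. -/
def SRig {N Q : Type} (G : Gram N Q) : Prop := ∃ (_ : Fintype Q) (rg : Q → Prop) (B : N → Q → ℕ),
  (∀ x ∈ G.pts, ¬ rg x.q → 1 ≤ B x.s x.q) ∧ ∀ o ∈ G.ops, (∀ q, rg q → o.f q = q ∧ o.g q = q) ∧
    (∀ q, ¬ rg q → fs (fun q' => ¬ rg q' ∧ o.f q' = q) (B o.s) +
      fs (fun q' => ¬ rg q' ∧ o.g q' = q) (B o.t) ≤ B o.u q) ∧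
    ∀ x y : ℕ, 0 < x → 0 < y → Nat.pair x y ∈ o.D

/-- every formula and every grammar define a composition system, with the one-element structures -/
def T_N3 : Prop := ∀ (N Q : Type) [Finite N] [Finite Q] (G : Gram N Q) (m : ℕ) (s₀ : N) (φ : C2),
  ∃ (L T C O : Type) (_ : Fintype Q) (_ : Fintype L) (_ : Fintype T) (_ : Fintype C)
    (_ : Finite O) (_ : Nonempty T) (S : Sg N Q L T O) (K : Cp C) (Ok : St L T C → Prop),
    (∀ s q l, S.pt s q l → ∃ x ∈ G.pts, x.s = s ∧ x.q = q) ∧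
    (∀ o, ∃ o' ∈ G.ops, S.s o = o'.s ∧ S.t o = o'.t ∧ S.u o = o'.u ∧ S.f o = o'.f ∧ S.g o = o'.g ∧
      S.D o = o'.D) ∧
      ∀ n, n ∈ specG G m s₀ φ ↔ 0 < n ∧ SysMem S K s₀ Ok n

/-- the theorem for grammars -/
def T_RGn : Prop := ∀ (N Q : Type) [Finite N] [Finite Q] (G : Gram N Q), SRig G → ∀ (m : ℕ)
  (s₀ : N) (φ : C2), EvPer (specG G m s₀ φ)

/-- the theorem for grammars and counting monadic second-order logic -/
def T_RMn : Prop := ∀ (N Q : Type) [Finite N] [Finite Q] (G : Gram N Q), SRig G → ∀ (m : ℕ)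
  (s₀ : N) (Ψ : MS) (φ : C2), Ψ.Below m → EvPer (specM G m s₀ Ψ φ)

/-! ### linear NLC-width 2 -/

/-- the colours: what the element sees of the old elements of colour `0` or `1` at its time (the bits
of `R i a b` and `R i b a`, `a` old, `b` new), its own colour, and its kind: `0` ordinary, `1` special
in a left part, `2` special in a right part -/
abbrev WQ (m : ℕ) : Type := (Fin 2 → (Fin m → Bool) × (Fin m → Bool)) × Fin 2 × Fin 3

/-- bit `i` -/
def wb {m : ℕ} (u : Fin m → Bool) (i : ℕ) : Prop := ∃ h : i < m, u ⟨i, h⟩ = true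

/-- the colour of an old element of colour `p` in a left part, for the elements of the right part -/
def wc {m : ℕ} (p : WQ m) : Fin 2 := if p.2.2 = 1 then p.2.1 else 0

/-- The grammar of the structures of linear NLC-width 2. A right part consists of the elements which
are added after one step in which all colours become equal, up to and including the next such step; in
a left part the last such step is special. Sorts: `0` left part, `1` right part under construction,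
`2` complete right part, `3` ordinary element, `4` special element, `5` result. -/
noncomputable def wG (m : ℕ) : Gram (Fin 6) (WQ m) where
  pts := ([(0, 1), (1, 0), (2, 2), (3, 0), (4, 2), (5, 0)] : List (Fin 6 × Fin 3)).flatMap fun s =>
    (Finset.univ : Finset (((Fin 2 → (Fin m → Bool) × (Fin m → Bool)) × Fin 2) ×
        (Fin m → Bool) × (Fin m → Bool))).toList.map fun x =>
      { s := s.1, q := (x.1.1, x.1.2, s.2), un := wb x.2.1, lp := wb x.2.2 }
  ops := [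
    { s := 1, t := 3, u := 1, l := fun i p q => wb (q.1 p.2.1).1 i,
      r := fun i p q => wb (q.1 p.2.1).2 i, f := id, g := id, D := {n | 0 < n} },
    { s := 1, t := 4, u := 2, l := fun i p q => wb (q.1 p.2.1).1 i,
      r := fun i p q => wb (q.1 p.2.1).2 i, f := id, g := id, D := {n | 0 < n} },
    { s := 0, t := 2, u := 0, l := fun i p q => wb (q.1 (wc p)).1 i,
      r := fun i p q => wb (q.1 (wc p)).2 i,
      f := fun p => (p.1, p.2.1, if p.2.2 = 1 then 0 else p.2.2),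
      g := fun p => (p.1, p.2.1, if p.2.2 = 2 then 1 else p.2.2), D := {n | 0 < n} },
    { s := 0, t := 2, u := 5, l := fun i p q => wb (q.1 (wc p)).1 i,
      r := fun i p q => wb (q.1 (wc p)).2 i,
      f := fun p => (p.1, p.2.1, if p.2.2 = 1 then 0 else p.2.2),
      g := fun p => (p.1, p.2.1, if p.2.2 = 2 then 1 else p.2.2), D := {n | 0 < n} },
    { s := 0, t := 1, u := 5, l := fun i p q => wb (q.1 (wc p)).1 i,
      r := fun i p q => wb (q.1 (wc p)).2 i,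
      f := fun p => (p.1, p.2.1, if p.2.2 = 1 then 0 else p.2.2),
      g := fun p => (p.1, p.2.1, if p.2.2 = 2 then 1 else p.2.2), D := {n | 0 < n} }]

/-- the grammar changes few colours -/
def T_WGS : Prop := ∀ m : ℕ, SRig (wG m)

/-- structures of linear NLC-width 2 are generated -/
def T_WGA : Prop := ∀ (m : ℕ) (A : Type) [Finite A] (P : ℕ → A → Prop) (R : ℕ → A → A → Prop),
  (∃ c, LNLC 2 m R Set.univ c) → ∃ c, (wG m).Gen m P R 5 Set.univ c

/-- only structures of linear NLC-width 2 are generated -/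
def T_WGB : Prop := ∀ (m : ℕ) (A : Type) [Finite A] (P : ℕ → A → Prop) (R : ℕ → A → A → Prop),
  (∃ c, (wG m).Gen m P R 5 Set.univ c) → ∃ c, LNLC 2 m R Set.univ c

/-- linear NLC-width at most 2: the spectra are eventually periodic -/
def T_LM2 : Prop := ∀ k ≤ 2, ∀ (m : ℕ) (Ψ : MS) (φ : C2), Ψ.Below m → EvPer (specLM k m Ψ φ)

end Pool.Agent.H46.CH
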