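import Pool.Agent.H46.CH.UT
import Mathlib.Order.WellQuasiOrder

/-!
# The regular level: without changes of colours the spectra are eventually periodic
-/

set_option autoImplicit false

namespace Pool.Agent.H46.CH

open Pool.Agent.H8.VR Pool.Agent.H69.VR Classical

/-! ### the statement -/

/-- eventually periodic sets of numbers -/
def EvPer (X : Set ℕ) : Prop := ∃ m p, 0 < p ∧ ∀ n ≥ m, (n ∈ X ↔ n + p ∈ X)

/-- the operations do not change colours, and there is no condition on the sizes -/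
def Rigid {N Q : Type} (G : Gram N Q) : Prop :=
  ∀ o ∈ G.ops, (∀ q, o.f q = q) ∧ (∀ q, o.g q = q) ∧
    ∀ x y : ℕ, 0 < x → 0 < y → Nat.pair x y ∈ o.D

/-- the regular level -/
def T_REG : Prop :=
  (∀ (N Q : Type) [Finite N] [Finite Q] (G : Gram N Q), Rigid G → ∀ (m : ℕ) (s₀ : N) (Ψ : MS)
    (φ : C2), Ψ.Below m → EvPer (specM G m s₀ Ψ φ)) ∧
  (∀ (Ψ : MS) (φ : C2), Ψ.Below 2 → EvPer (specFM Ψ φ)) ∧
  ∀ (k : ℕ) (Ψ : MS) (φ : C2), Ψ.Below k → EvPer (specEM k Ψ φ)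

/-! ### parameters, silent types, compatible numbers -/

/-- Parameters: a composition system without changes of colours, the counting structure, the final
numbers of partners `af q` of the elements of colour `q`, threshold `k₀` and period `P` of the
counting, and a large threshold `H`. -/
structure Pm (N Q L T O C : Type) [Fintype T] where
  S : Sg N Q L T O
  K : Cp C
  af : Q → L × T → C
  k₀ : ℕ
  P : ℕ
  H : ℕ
  pos : 0 < P
  per : ∀ x ≥ k₀, K.cp (x + P) = K.cp x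
  kH : k₀ ≤ H
  hH : 2 * (k₀ * Fintype.card T) + 2 ≤ H
  fid : ∀ o q, S.f o q = q
  gid : ∀ o q, S.g o q = q
  tr : STriv S

/-- the kinds of the outside elements: the operation which brings them together with the structure,
`true` if the structure is the left argument, colour and label -/
abbrev Fk (Q L O : Type) : Type := O × Bool × Q × L

/-- what is stored about one step of a union: the index of the inserted element, the matrix of the
types, the left elements and the elements which are not yet inserted, before the step -/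
structure Sd (Q L T C : Type) where
  τ : Ix Q L T C
  m : Ix Q L T C × T → ℕ
  a : Ix Q L T C → ℕ
  b : Ix Q L T C → ℕ

/-- what is stored at a node: sort, numbers of the outside elements, configuration -/
structure Dt (N Q L T O C : Type) where
  s : N
  F : Fk Q L O → ℕ
  c : Ix Q L T C → ℕ

/-- run trees -/
inductive Rt (N Q L T O C : Type) : Type
  | leaf (D : Dt N Q L T O C) (q : Q) (l : L) : Rt N Q L T O C
  | join (D : Dt N Q L T O C) (o : O) (w : List (Sd Q L T C)) (t₁ t₂ : Rt N Q L T O C) :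
      Rt N Q L T O C

section
variable {N Q L T O C : Type}

/-- the data at the root -/
def Rt.dt : Rt N Q L T O C → Dt N Q L T O C
  | .leaf D _ _ => D
  | .join D _ _ _ _ => D

/-- `t` is a subtree -/
inductive Rt.Sub : Rt N Q L T O C → Rt N Q L T O C → Prop
  | refl (t : Rt N Q L T O C) : Rt.Sub t t
  | left (D : Dt N Q L T O C) (o : O) (w : List (Sd Q L T C)) (t t₁ t₂ : Rt N Q L T O C)
      (h : Rt.Sub t t₁) : Rt.Sub t (.join D o w t₁ t₂)
  | right (D : Dt N Q L T O C) (o : O) (w : List (Sd Q L T C)) (t t₁ t₂ : Rt N Q L T O C)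
      (h : Rt.Sub t t₂) : Rt.Sub t (.join D o w t₁ t₂)

variable [Fintype T]

/-- the coordinate `z` of the final numbers of the colour `q` is saturated -/
def Pm.sat (W : Pm N Q L T O C) (q : Q) (z : L × T) : Prop := ∃ n ≥ W.k₀, W.K.cp n = W.af q z

/-- the type `θ` from an element of the kind `κ` in the structure to an outside element of the kind
`φ` is silent: it is allowed and saturated on both sides -/
def Pm.slt (W : Pm N Q L T O C) (κ : Q × L) (φ : Fk Q L O) (θ : T) : Prop :=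
  (if φ.2.1 = true then W.S.al φ.1 κ.1 φ.2.2.1 θ else W.S.al φ.1 φ.2.2.1 κ.1 (W.S.sw θ)) ∧
    W.sat κ.1 (φ.2.2.2, θ) ∧ W.sat φ.2.2.1 (κ.2, W.S.sw θ)

/-- a silent type, if there is one -/
noncomputable def Pm.sl [Nonempty T] (W : Pm N Q L T O C) (κ : Q × L) (φ : Fk Q L O) : T :=
  if h : ∃ θ, W.slt κ φ θ then h.choose else Classical.arbitrary T

/-- the exact number `n` is compatible with the value `v`; multiples of the period are allowed if
`s` holds -/
def Pm.cmp (W : Pm N Q L T O C) (s : Prop) (v : C) (n : ℕ) : Prop :=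
  ∃ x j, v = W.K.cp x ∧ n = x + W.P * j ∧ (j ≠ 0 → s)

/-- if `k` is added to numbers which are compatible with `v`, they are compatible with `v'` -/
def Pm.tr1 (W : Pm N Q L T O C) (s : Prop) (v : C) (k : ℕ) (v' : C) : Prop :=
  ∀ n, W.cmp s v n → W.cmp s v' (n + k)

/-- equality below the threshold, inequality and congruence above it -/
def Pm.lp (W : Pm N Q L T O C) (x y : ℕ) : Prop := x = y ∨ (W.H ≤ x ∧ x ≤ y ∧ x ≡ y [MOD W.P])

/-- equality below the threshold, congruence above it -/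
def Pm.eqp (W : Pm N Q L T O C) (x y : ℕ) : Prop :=
  x = y ∨ (W.H ≤ x ∧ W.H ≤ y ∧ x ≡ y [MOD W.P])

/-- order of the steps -/
def Pm.sle (W : Pm N Q L T O C) (x y : Sd Q L T C) : Prop :=
  x.τ = y.τ ∧ (∀ p, W.lp (x.m p) (y.m p)) ∧ (∀ σ, W.lp (x.a σ) (y.a σ)) ∧
    ∀ σ, W.lp (x.b σ) (y.b σ)

/-- order of the data -/
def Pm.dle (W : Pm N Q L T O C) (D D' : Dt N Q L T O C) : Prop :=
  D.s = D'.s ∧ (∀ φ, W.eqp (D.F φ) (D'.F φ)) ∧ ∀ σ, W.lp (D.c σ) (D'.c σ)

/-- embeddings of run trees -/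
inductive Pm.Emb (W : Pm N Q L T O C) : Rt N Q L T O C → Rt N Q L T O C → Prop
  | leaf (D D' : Dt N Q L T O C) (q : Q) (l : L) (h : W.dle D D') :
      Pm.Emb W (.leaf D q l) (.leaf D' q l)
  | join (D D' : Dt N Q L T O C) (o : O) (w w' : List (Sd Q L T C))
      (t₁ t₂ t₁' t₂' : Rt N Q L T O C) (hD : W.dle D D') (hw : List.SublistForall₂ W.sle w w')
      (h₁ : Pm.Emb W t₁ t₁') (h₂ : Pm.Emb W t₂ t₂') (hd₁ : W.dle t₁.dt t₁'.dt)
      (hd₂ : W.dle t₂.dt t₂'.dt) : Pm.Emb W (.join D o w t₁ t₂) (.join D' o w' t₁' t₂')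
  | left (D' : Dt N Q L T O C) (o' : O) (w' : List (Sd Q L T C)) (t t₁' t₂' : Rt N Q L T O C)
      (h : Pm.Emb W t t₁') : Pm.Emb W t (.join D' o' w' t₁' t₂')
  | right (D' : Dt N Q L T O C) (o' : O) (w' : List (Sd Q L T C)) (t t₁' t₂' : Rt N Q L T O C)
      (h : Pm.Emb W t t₂') : Pm.Emb W t (.join D' o' w' t₁' t₂')

/-- `R` is an extension of `t` -/
def Pm.Ext (W : Pm N Q L T O C) (t R : Rt N Q L T O C) : Prop := W.dle t.dt R.dt ∧ W.Emb t R

variable [Fintype Q] [Fintype L] [Fintype C]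

/-- the number of the elements of a kind -/
noncomputable def kc (c : Ix Q L T C → ℕ) (κ : Q × L) : ℕ := fs (fun σ => (σ.1, σ.2.1) = κ) c

/-! ### unions, in terms of numbers -/

/-- The insertion of a part of the elements of the configuration `b` into the configuration `a`
(new configurations: `a'` on the left, `b'` not yet inserted, `e` inserted) is realised for all sets
with target indices. -/
def Pm.JG (W : Pm N Q L T O C) (o : O) (a b a' b' e : Ix Q L T C → ℕ) : Prop :=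
  ∀ (X Y : Type) [Fintype X] [Fintype Y] (t : X → Ix Q L T C) (u : Y → Ix Q L T C),
    (∀ σ, a σ = num fun x => t x = σ) → (∀ σ, b σ = num fun y => u y = σ) →
    ∃ (h : X → Y → T) (I : Set Y) (t' : X → Ix Q L T C) (u' : Y → Ix Q L T C),
      (∀ x, ∀ y ∈ I, W.S.al o (t x).1 (u y).1 (h x y)) ∧
      (∀ x, (t' x).1 = (t x).1 ∧ (t' x).2.1 = (t x).2.1) ∧
      (∀ y, (u' y).1 = (u y).1 ∧ (u' y).2.1 = (u y).2.1) ∧
      (∀ x z, W.tr1 (W.sat (t x).1 z) ((t x).2.2 z)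
        (num fun y => y ∈ I ∧ (u y).2.1 = z.1 ∧ h x y = z.2) ((t' x).2.2 z)) ∧
      (∀ y ∈ I, ∀ z, W.tr1 (W.sat (u y).1 z) ((u y).2.2 z)
        (num fun x => (t x).2.1 = z.1 ∧ W.S.sw (h x y) = z.2) ((u' y).2.2 z)) ∧
      (∀ σ, a' σ = num fun x => t' x = σ) ∧ (∀ σ, b' σ = num fun y => y ∉ I ∧ u y = σ) ∧
      ∀ σ, e σ = num fun y => y ∈ I ∧ u' y = σ

/-- the steps `w` lead from `a` (left) and `b` (not yet inserted) to `a'` and `b'`, and `e` are the
inserted elements -/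
inductive Pm.JR (W : Pm N Q L T O C) (o : O) : (Ix Q L T C → ℕ) → (Ix Q L T C → ℕ) →
    List (Sd Q L T C) → (Ix Q L T C → ℕ) → (Ix Q L T C → ℕ) → (Ix Q L T C → ℕ) → Prop
  | nil (a b : Ix Q L T C → ℕ) : Pm.JR W o a b [] a b 0
  | cons (x : Sd Q L T C) (w : List (Sd Q L T C)) (a₁ b₁ d₁ a' b' e : Ix Q L T C → ℕ)
      (hs : Step W.S W.K o x.τ x.m x.a x.b 0 a₁ b₁ d₁) (h : Pm.JR W o a₁ b₁ w a' b' e) :
      Pm.JR W o x.a x.b (x :: w) a' b' (d₁ + e)

/-- multiples of the period, in the kinds of `B` only -/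
def Pm.dk (W : Pm N Q L T O C) (B : Q × L → Prop) (α : Ix Q L T C → ℕ) : Prop :=
  ∀ σ, W.P ∣ α σ ∧ (α σ ≠ 0 → B (σ.1, σ.2.1))

/-- a segment of a union: it leads from `α`, `β` to `α'`, `β'` (additional to `a`, `b`), inserts `ε`
and may be used in the presence of extra elements -/
def Pm.seg (W : Pm N Q L T O C) (o : O) (B : Q × L → Prop)
    (a b α β α' β' ε : Ix Q L T C → ℕ) : Prop :=
  ∀ U V : Ix Q L T C → ℕ, W.dk B U → W.JG o (a + α + U) (b + β + V) (a + α' + U) (b + β' + V) ε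

/-- generalised extensions of the steps `w`: additional elements `α`, `β` at the beginning, `α'`, `β'`
at the end, `ε` additional inserted elements -/
inductive Pm.GX (W : Pm N Q L T O C) (o : O) (B : Q × L → Prop) : (Ix Q L T C → ℕ) →
    (Ix Q L T C → ℕ) → List (Sd Q L T C) → (Ix Q L T C → ℕ) → (Ix Q L T C → ℕ) →
    (Ix Q L T C → ℕ) → (Ix Q L T C → ℕ) → (Ix Q L T C → ℕ) → Prop
  | nil (a b α β α' β' ε : Ix Q L T C → ℕ) (hα : W.dk B α) (hα' : W.dk B α')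
      (hs : W.seg o B a b α β α' β' ε) : Pm.GX W o B a b [] α β α' β' ε
  | cons (x : Sd Q L T C) (w : List (Sd Q L T C)) (a₁ b₁ d₁ α β α₁ β₁ ε₁ : Ix Q L T C → ℕ)
      (μ : Ix Q L T C × T → ℕ) (α₂ α' β' ε' : Ix Q L T C → ℕ)
      (ht : Step W.S W.K o x.τ x.m x.a x.b 0 a₁ b₁ d₁) (hα : W.dk B α) (hα₁ : W.dk B α₁)
      (hs : W.seg o B x.a x.b α β α₁ β₁ ε₁)
      (hμ : ∀ p, W.P ∣ μ p ∧ (μ p ≠ 0 → W.H ≤ x.m p)) (hμα : ∀ σ, ∑ θ, μ (σ, θ) = α₁ σ)
      (hα₂ : ∀ σ, α₂ σ = fs (fun p => up W.K x.τ p = σ) μ)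
      (hr : Pm.GX W o B a₁ b₁ w α₂ β₁ α' β' ε') :
      Pm.GX W o B x.a x.b (x :: w) α β α' β' (ε₁ + ε')

/-! ### generated structures with targets and extra elements -/

/-- There is a generated structure of sort `s` whose elements have target indices: `c` is the
configuration of the ordinary elements, `U` that of the extra elements, and the exact numbers of the
extra elements are shifted by `off`. -/
def Pm.RX (W : Pm N Q L T O C) (s : N) (c U : Ix Q L T C → ℕ) (off : Q × L → L × T → ℕ) : Prop :=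
  ∃ (A : Type) (_ : Fintype A) (lam : A → L) (th : A → A → T) (X E : Set A) (col : A → Q)
    (t : A → Ix Q L T C), Sym W.S th ∧ W.S.Gen lam th s X col ∧ E ⊆ X ∧
    (∀ a ∈ X, (t a).1 = col a ∧ (t a).2.1 = lam a) ∧
    (∀ a ∈ X, a ∉ E → ∀ z, W.cmp (W.sat (col a) z) ((t a).2.2 z) (kn lam th X a z)) ∧
    (∀ a ∈ E, ∀ z, ∃ n, W.cmp (W.sat (col a) z) ((t a).2.2 z) n ∧
      kn lam th X a z = n + off (col a, lam a) z) ∧
    (∀ σ, c σ = num fun a => a ∈ X ∧ a ∉ E ∧ t a = σ) ∧ ∀ σ, U σ = num fun a => a ∈ E ∧ t a = σ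

/-- the same without extra elements -/
def Pm.RD (W : Pm N Q L T O C) (s : N) (c : Ix Q L T C → ℕ) : Prop := W.RX s c 0 0

/-- the shift of the numbers of the extra elements, if they get silent types to `D φ` elements of
each kind `φ` -/
noncomputable def Pm.ofs [Nonempty T] [Fintype O] (W : Pm N Q L T O C) (D : Fk Q L O → ℕ)
    (κ : Q × L) (z : L × T) : ℕ :=
  ∑ φ : Fk Q L O, if φ.2.2.2 = z.1 ∧ W.sl κ φ = z.2 then D φ else 0

/-- silent types exist for frequent kinds -/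
def Pm.good (W : Pm N Q L T O C) (D : Dt N Q L T O C) : Prop :=
  ∀ κ φ, W.H ≤ kc D.c κ → W.H ≤ D.F φ → ∃ θ, W.slt κ φ θ

/-- correct run trees -/
inductive Pm.Ok (W : Pm N Q L T O C) : Rt N Q L T O C → Prop
  | leaf (D : Dt N Q L T O C) (q : Q) (l : L) (h : W.S.pt D.s q l)
      (hc : ∀ σ, D.c σ = ind (σ = (q, (l, fun _ => W.K.cp 0)))) (hg : W.good D) :
      Pm.Ok W (.leaf D q l)
  | join (D : Dt N Q L T O C) (o : O) (w : List (Sd Q L T C)) (t₁ t₂ : Rt N Q L T O C)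
      (h₁ : Pm.Ok W t₁) (h₂ : Pm.Ok W t₂) (hs : W.S.s o = t₁.dt.s) (ht : W.S.t o = t₂.dt.s)
      (hu : W.S.u o = D.s)
      (hF₁ : ∀ φ, t₁.dt.F φ = D.F φ + if φ.1 = o ∧ φ.2.1 = true then kc t₂.dt.c φ.2.2 else 0)
      (hF₂ : ∀ φ, t₂.dt.F φ = D.F φ + if φ.1 = o ∧ φ.2.1 = false then kc t₁.dt.c φ.2.2 else 0)
      (a' e : Ix Q L T C → ℕ) (hw : W.JR o t₁.dt.c t₂.dt.c w a' 0 e)
      (hc : ∀ σ, D.c σ = a' σ + e σ) (hg : W.good D) : Pm.Ok W (.join D o w t₁ t₂)

/-- the numbers `F` of outside elements are realised -/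
def Pm.adm {A : Type} (W : Pm N Q L T O C) (lam : A → L) (th : A → A → T) (col : A → Q)
    (X : Set A) (F : Fk Q L O → ℕ) : Prop :=
  ∀ φ, ∃ Y : Finset A, F φ ≤ Y.card ∧ ∀ y ∈ Y, y ∉ X ∧ (col y, lam y) = φ.2.2 ∧
    ∀ x ∈ X, if φ.2.1 = true then W.S.al φ.1 (col x) (col y) (th x y)
      else W.S.al φ.1 (col y) (col x) (th y x)

/-- the sizes of the generated structures whose indices are accepted -/
def Pm.Lm (W : Pm N Q L T O C) (s₀ : N) (Ac : Ix Q L T C → Prop) : Set ℕ :=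
  {n | ∃ (A : Type) (_ : Fintype A) (lam : A → L) (th : A → A → T) (col : A → Q),
    Sym W.S th ∧ W.S.Gen lam th s₀ Set.univ col ∧ Fintype.card A = n ∧
    ∀ a, Ac (col a, stt W.K lam th Set.univ a)}

end

/-! ### targets: general tools -/

/-- finite congruences of the numbers have a threshold and a period -/
def T_PD : Prop := ∀ (C : Type) [Finite C] (K : Cp C), ∃ k₀ P, 0 < P ∧
  ∀ x ≥ k₀, K.cp (x + P) = K.cp x

/-- selection of a subset with prescribed numbers -/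
def T_SS : Prop := ∀ (X ι : Type) [Fintype X] (t : X → ι) (a U : ι → ℕ),
  (∀ σ, (a + U) σ = num fun x => t x = σ) → ∃ E : Set X,
    (∀ σ, (num fun x => x ∉ E ∧ t x = σ) = a σ) ∧ ∀ σ, (num fun x => x ∈ E ∧ t x = σ) = U σ

/-- binary trees -/
inductive Bt (α : Type) : Type
  | leaf (a : α) : Bt α
  | node (a : α) (l r : Bt α) : Bt α

/-- embeddings of binary trees -/
inductive Bt.Emb {α : Type} (r : α → α → Prop) : Bt α → Bt α → Prop
  | leaf (a b : α) (h : r a b) : Bt.Emb r (.leaf a) (.leaf b)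
  | node (a b : α) (t₁ t₂ t₁' t₂' : Bt α) (h : r a b) (h₁ : Bt.Emb r t₁ t₁')
      (h₂ : Bt.Emb r t₂ t₂') : Bt.Emb r (.node a t₁ t₂) (.node b t₁' t₂')
  | left (b : α) (t t₁' t₂' : Bt α) (h : Bt.Emb r t t₁') : Bt.Emb r t (.node b t₁' t₂')
  | right (b : α) (t t₁' t₂' : Bt α) (h : Bt.Emb r t t₂') : Bt.Emb r t (.node b t₁' t₂')

/-- Kruskal's theorem for binary trees -/
def T_KR : Prop := ∀ (α : Type) (r : α → α → Prop), (∀ a, r a a) →
  (∀ a b c, r a b → r b c → r a c) → WellQuasiOrdered r → WellQuasiOrdered (Bt.Emb r)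

/-- finite bases -/
def T_BS : Prop := ∀ (α : Type) (r : α → α → Prop), WellQuasiOrdered r → ∀ S : Set α,
  ∃ B : Finset α, (∀ x ∈ B, x ∈ S) ∧ ∀ y ∈ S, ∃ x ∈ B, r x y

/-- a set which is eventually closed under adding `p` is eventually periodic -/
def T_EU : Prop := ∀ (X : Set ℕ) (m p : ℕ), 0 < p → (∀ n ≥ m, n ∈ X → n + p ∈ X) → EvPer X

/-- the data of the steps and of the nodes, and the run trees are well quasi-ordered -/
def T_WQ : Prop := ∀ (N Q L T O C : Type) [Finite N] [Fintype Q] [Fintype L] [Fintype T]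
  [Finite O] [Fintype C] (W : Pm N Q L T O C), WellQuasiOrdered W.Ext

/-! ### targets: numbers -/

/-- compatible numbers -/
def T_TR : Prop := ∀ (N Q L T O C : Type) [Fintype T] (W : Pm N Q L T O C),
  (∀ s v, W.tr1 s v 0 v) ∧
  (∀ s v k v' k' v'', W.tr1 s v k v' → W.tr1 s v' k' v'' → W.tr1 s v (k + k') v'') ∧
  (∀ s v k, W.tr1 s v k (W.K.ad v (W.K.cp k))) ∧
  (∀ (s : Prop) v k v' j, W.tr1 s v k v' → (j ≠ 0 → s) → W.tr1 s v (k + W.P * j) v') ∧
  ∀ q z n, W.cmp (W.sat q z) (W.af q z) n → W.K.cp n = W.af q z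

/-- one step is realised -/
def T_J1 : Prop := ∀ (N Q L T O C : Type) [Fintype Q] [Fintype L] [Fintype T] [Fintype C]
  [Nonempty T] (W : Pm N Q L T O C) (o : O) (τ : Ix Q L T C) (m : Ix Q L T C × T → ℕ)
  (a b d a' b' d' : Ix Q L T C → ℕ), Step W.S W.K o τ m a b d a' b' d' →
    W.JG o a b a' b' (fun σ => ind (σ = nw W.S W.K τ m))

/-- composition -/
def T_J2 : Prop := ∀ (N Q L T O C : Type) [Fintype Q] [Fintype L] [Fintype T] [Fintype C]
  [Nonempty T] (W : Pm N Q L T O C) (o : O) (a b a' b' e a'' b'' e' : Ix Q L T C → ℕ),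
    W.JG o a b a b 0 ∧
    (W.JG o a b a' b' e → W.JG o a' b' a'' b'' e' → W.JG o a b a'' b'' (e + e'))

/-- silent extra elements on the left -/
def T_J3 : Prop := ∀ (N Q L T O C : Type) [Fintype Q] [Fintype L] [Fintype T] [Fintype C]
  [Nonempty T] (W : Pm N Q L T O C) (o : O) (a b a' b' e U : Ix Q L T C → ℕ),
    W.JG o a b a' b' e → (∀ σ, W.P ∣ U σ) → (∀ σ, W.P ∣ b σ - b' σ) →
    (∀ σ τ, U σ ≠ 0 → b' τ < b τ → ∃ θ, W.slt (σ.1, σ.2.1) (o, true, τ.1, τ.2.1) θ) →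
      W.JG o (a + U) b (a' + U) b' e

/-- extra elements which are not inserted -/
def T_J4 : Prop := ∀ (N Q L T O C : Type) [Fintype Q] [Fintype L] [Fintype T] [Fintype C]
  [Nonempty T] (W : Pm N Q L T O C) (o : O) (a b a' b' e V : Ix Q L T C → ℕ),
    W.JG o a b a' b' e → W.JG o a (b + V) a' (b' + V) e

/-- words of steps are realised -/
def T_JW : Prop := ∀ (N Q L T O C : Type) [Fintype Q] [Fintype L] [Fintype T] [Fintype C]
  [Nonempty T] (W : Pm N Q L T O C) (o : O) (a b a' b' e : Ix Q L T C → ℕ)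
  (w : List (Sd Q L T C)), W.JR o a b w a' b' e → W.JG o a b a' b' e

/-- generalised extensions are realised -/
def T_GJ : Prop := ∀ (N Q L T O C : Type) [Fintype Q] [Fintype L] [Fintype T] [Fintype C]
  [Nonempty T] (W : Pm N Q L T O C) (o : O) (B : Q × L → Prop)
  (a b α β α' β' ε a' b' e : Ix Q L T C → ℕ) (w : List (Sd Q L T C)),
    W.GX o B a b w α β α' β' ε → W.JR o a b w a' b' e →
      W.JG o (a + α) (b + β) (a' + α') (b' + β') (e + ε)

/-- generalised extensions may be merged -/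
def T_GM : Prop := ∀ (N Q L T O C : Type) [Fintype Q] [Fintype L] [Fintype T] [Fintype C]
  [Nonempty T] (W : Pm N Q L T O C) (o : O) (B : Q × L → Prop)
  (a b α β α' β' ε γ δ γ' δ' η : Ix Q L T C → ℕ) (w : List (Sd Q L T C)),
    W.GX o B a b w α β α' β' ε → W.GX o B a b w γ δ γ' δ' η →
      W.GX o B a b w (α + γ) (β + δ) (α' + γ') (β' + δ') (ε + η)

/-- extensions of a word are generalised extensions -/
def T_GR : Prop := ∀ (N Q L T O C : Type) [Fintype Q] [Fintype L] [Fintype T] [Fintype C]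
  [Nonempty T] (W : Pm N Q L T O C) (o : O) (B B' : Q × L → Prop),
  (∀ κ κ', B κ → B' κ' → ∃ θ, W.slt κ (o, true, κ') θ) →
  ∀ (a b : Ix Q L T C → ℕ) (w : List (Sd Q L T C)) (a' e : Ix Q L T C → ℕ),
    W.JR o a b w a' 0 e →
  ∀ (a₂ b₂ : Ix Q L T C → ℕ) (w₂ : List (Sd Q L T C)) (a₂' e₂ : Ix Q L T C → ℕ),
    W.JR o a₂ b₂ w₂ a₂' 0 e₂ → List.SublistForall₂ W.sle w w₂ →
    (∀ σ, W.lp (a σ) (a₂ σ)) → (∀ σ, W.lp (b σ) (b₂ σ)) →
    (∀ κ, W.H ≤ kc a κ → B κ) → (∀ κ, W.H ≤ kc b κ → B' κ) →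
      ∃ α β α' ε : Ix Q L T C → ℕ, a₂ = a + α ∧ b₂ = b + β ∧ a₂' = a' + α' ∧ e₂ = e + ε ∧
        W.GX o B a b w α β α' 0 ε

/-! ### targets: structures -/

/-- the union of two structures -/
def T_JC : Prop := ∀ (N Q L T O : Type) (S : Sg N Q L T O), (∀ o q, S.f o q = q) →
  (∀ o q, S.g o q = q) → STriv S → ∀ (o : O) (A B : Type) [Fintype A] [Fintype B]
  (lam : A → L) (th : A → A → T) (X : Set A) (col : A → Q) (lam' : B → L) (th' : B → B → T)
  (Y : Set B) (col' : B → Q) (h : A → B → T), Sym S th → Sym S th' →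
    S.Gen lam th (S.s o) X col → S.Gen lam' th' (S.t o) Y col' →
    (∀ x ∈ X, ∀ y ∈ Y, S.al o (col x) (col' y) (h x y)) → ∃ th'' : A ⊕ B → A ⊕ B → T,
      Sym S th'' ∧ S.Gen (Sum.elim lam lam') th'' (S.u o) (Sum.inl '' X ∪ Sum.inr '' Y)
        (Sum.elim col col') ∧
      (∀ x ∈ X, ∀ z, kn (Sum.elim lam lam') th'' (Sum.inl '' X ∪ Sum.inr '' Y) (.inl x) z =
        kn lam th X x z + num fun y => y ∈ Y ∧ lam' y = z.1 ∧ h x y = z.2) ∧
      ∀ y ∈ Y, ∀ z, kn (Sum.elim lam lam') th'' (Sum.inl '' X ∪ Sum.inr '' Y) (.inr y) z =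
        kn lam' th' Y y z + num fun x => x ∈ X ∧ lam x = z.1 ∧ S.sw (h x y) = z.2

/-- one-element structures -/
def T_XP : Prop := ∀ (N Q L T O C : Type) [Fintype Q] [Fintype L] [Fintype T] [Fintype C]
  [Nonempty T] (W : Pm N Q L T O C) (s : N) (q : Q) (l : L) (c : Ix Q L T C → ℕ),
    W.S.pt s q l → (∀ σ, c σ = ind (σ = (q, (l, fun _ => W.K.cp 0)))) → W.RD s c

/-- ordinary elements become extra elements -/
def T_XA : Prop := ∀ (N Q L T O C : Type) [Fintype Q] [Fintype L] [Fintype T] [Fintype C]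
  (W : Pm N Q L T O C) (s : N) (c U : Ix Q L T C → ℕ), W.RD s (c + U) → W.RX s c U 0

/-- extra elements become ordinary elements -/
def T_XB : Prop := ∀ (N Q L T O C : Type) [Fintype Q] [Fintype L] [Fintype T] [Fintype C]
  (W : Pm N Q L T O C) (s : N) (c U : Ix Q L T C → ℕ) (off : Q × L → L × T → ℕ),
    W.RX s c U off → (∀ σ, U σ ≠ 0 → ∀ z, W.P ∣ off (σ.1, σ.2.1) z ∧
      (off (σ.1, σ.2.1) z ≠ 0 → W.sat σ.1 z)) → W.RD s (c + U)

/-- unions with extra elements on the left -/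
def T_XL : Prop := ∀ (N Q L T O C : Type) [Fintype Q] [Fintype L] [Fintype T] [Fintype O]
  [Fintype C] [Nonempty T] (W : Pm N Q L T O C) (o : O) (c U b a' e : Ix Q L T C → ℕ)
  (off : Q × L → L × T → ℕ), W.RX (W.S.s o) c U off → W.RD (W.S.t o) b →
    W.JG o c b a' 0 e → (∀ σ, W.P ∣ U σ) →
    (∀ σ τ, U σ ≠ 0 → b τ ≠ 0 → ∃ θ, W.slt (σ.1, σ.2.1) (o, true, τ.1, τ.2.1) θ) →
      W.RX (W.S.u o) (a' + e) U (off + W.ofs fun φ =>
        if φ.1 = o ∧ φ.2.1 = true then kc b φ.2.2 else 0)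

/-- unions with extra elements on the right -/
def T_XR : Prop := ∀ (N Q L T O C : Type) [Fintype Q] [Fintype L] [Fintype T] [Fintype O]
  [Fintype C] [Nonempty T] (W : Pm N Q L T O C) (o : O) (a c U a' e : Ix Q L T C → ℕ)
  (off : Q × L → L × T → ℕ), W.RD (W.S.s o) a → W.RX (W.S.t o) c U off →
    W.JG o a c a' 0 e → (∀ σ, W.P ∣ U σ) →
    (∀ σ τ, U σ ≠ 0 → a τ ≠ 0 → ∃ θ, W.slt (σ.1, σ.2.1) (o, false, τ.1, τ.2.1) θ) →
      W.RX (W.S.u o) (a' + e) U (off + W.ofs fun φ =>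
        if φ.1 = o ∧ φ.2.1 = false then kc a φ.2.2 else 0)

/-- unions without extra elements -/
def T_XD : Prop := ∀ (N Q L T O C : Type) [Fintype Q] [Fintype L] [Fintype T] [Finite O]
  [Fintype C] [Nonempty T] (W : Pm N Q L T O C) (o : O) (a b a' e : Ix Q L T C → ℕ), W.RD (W.S.s o) a →
    W.RD (W.S.t o) b → W.JG o a b a' 0 e → W.RD (W.S.u o) (a' + e)

/-- correct run trees are realised -/
def T_RO : Prop := ∀ (N Q L T O C : Type) [Fintype Q] [Fintype L] [Fintype T] [Finite O]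
  [Fintype C] [Nonempty T] (W : Pm N Q L T O C) (R : Rt N Q L T O C), W.Ok R → W.RD R.dt.s R.dt.c

/-- subtrees are correct; embeddings into subtrees -/
def T_ED : Prop := ∀ (N Q L T O C : Type) [Fintype Q] [Fintype L] [Fintype T] [Fintype C]
  (W : Pm N Q L T O C),
  (∀ t R : Rt N Q L T O C, Rt.Sub t R → W.Ok R → W.Ok t) ∧
  (∀ (D : Dt N Q L T O C) (q : Q) (l : L) (R : Rt N Q L T O C), W.Emb (.leaf D q l) R →
    ∃ D', Rt.Sub (.leaf D' q l) R ∧ W.dle D D') ∧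
  ∀ (D : Dt N Q L T O C) (o : O) (w : List (Sd Q L T C)) (t₁ t₂ R : Rt N Q L T O C),
    W.Emb (.join D o w t₁ t₂) R → ∃ D' w' t₁' t₂', Rt.Sub (.join D' o w' t₁' t₂') R ∧
      W.dle D D' ∧ List.SublistForall₂ W.sle w w' ∧ W.Emb t₁ t₁' ∧ W.Emb t₂ t₂' ∧
      W.dle t₁.dt t₁'.dt ∧ W.dle t₂.dt t₂'.dt

/-- extra elements are carried from a subtree to the root -/
def T_SH : Prop := ∀ (N Q L T O C : Type) [Fintype Q] [Fintype L] [Fintype T] [Fintype O]
  [Fintype C] [Nonempty T] (W : Pm N Q L T O C) (t R : Rt N Q L T O C), Rt.Sub t R → W.Ok R →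
    (∀ φ, R.dt.F φ ≤ t.dt.F φ) ∧ ∀ (U : Ix Q L T C → ℕ) (off : Q × L → L × T → ℕ),
      (∀ σ, W.P ∣ U σ) →
      (∀ σ φ, U σ ≠ 0 → R.dt.F φ < t.dt.F φ → ∃ θ, W.slt (σ.1, σ.2.1) φ θ) →
        W.RX t.dt.s t.dt.c U off →
          W.RX R.dt.s R.dt.c U (off + W.ofs fun φ => t.dt.F φ - R.dt.F φ)

/-- extra elements are carried between nodes with the same data -/
def T_SD : Prop := ∀ (N Q L T O C : Type) [Fintype Q] [Fintype L] [Fintype T] [Finite O]
  [Fintype C] [Nonempty T] (W : Pm N Q L T O C) (t R : Rt N Q L T O C) (D : Dt N Q L T O C)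
  (U : Ix Q L T C → ℕ), Rt.Sub t R → W.Ok R → W.dle D t.dt → W.dle D R.dt →
    (∀ σ, W.P ∣ U σ) → (∀ σ, U σ ≠ 0 → W.H ≤ D.c σ) → W.RD D.s (t.dt.c + U) →
      W.RD D.s (R.dt.c + U)

/-- the amalgam at a union -/
def T_PM : Prop := ∀ (N Q L T O C : Type) [Fintype Q] [Fintype L] [Fintype T] [Finite O]
  [Fintype C] [Nonempty T] (W : Pm N Q L T O C) (D : Dt N Q L T O C) (o : O) (w : List (Sd Q L T C))
  (t₁ t₂ : Rt N Q L T O C), W.Ok (.join D o w t₁ t₂) → ∀ (n : ℕ)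
  (D' : Fin n → Dt N Q L T O C) (w' : Fin n → List (Sd Q L T C))
  (t₁' t₂' : Fin n → Rt N Q L T O C), (∀ i, W.Ok (.join (D' i) o (w' i) (t₁' i) (t₂' i)) ∧
    W.dle D (D' i) ∧ List.SublistForall₂ W.sle w (w' i) ∧ W.dle t₁.dt (t₁' i).dt ∧
    W.dle t₂.dt (t₂' i).dt) →
    W.RD t₁.dt.s (fun σ => t₁.dt.c σ + ∑ i, ((t₁' i).dt.c σ - t₁.dt.c σ)) →
    W.RD t₂.dt.s (fun σ => t₂.dt.c σ + ∑ i, ((t₂' i).dt.c σ - t₂.dt.c σ)) →
      W.RD D.s (fun σ => D.c σ + ∑ i, ((D' i).c σ - D.c σ))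

/-- the extensions are carried to the roots one after the other -/
def T_PS : Prop := ∀ (N Q L T O C : Type) [Fintype Q] [Fintype L] [Fintype T] [Finite O]
  [Fintype C] [Nonempty T] (W : Pm N Q L T O C) (D : Dt N Q L T O C) (n : ℕ)
  (t R : Fin n → Rt N Q L T O C), (∀ i, Rt.Sub (t i) (R i) ∧ W.Ok (R i) ∧ W.dle D (t i).dt ∧
    W.dle D (R i).dt) → W.RD D.s (fun σ => D.c σ + ∑ i, ((t i).dt.c σ - D.c σ)) →
      W.RD D.s (fun σ => D.c σ + ∑ i, ((R i).dt.c σ - D.c σ))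

/-- the amalgam of any number of extensions of a run tree -/
def T_PT : Prop := ∀ (N Q L T O C : Type) [Fintype Q] [Fintype L] [Fintype T] [Finite O]
  [Fintype C] [Nonempty T] (W : Pm N Q L T O C) (t : Rt N Q L T O C), W.Ok t → ∀ (n : ℕ)
  (R : Fin n → Rt N Q L T O C), (∀ i, W.Ok (R i) ∧ W.Ext t (R i)) →
    W.RD t.dt.s (fun σ => t.dt.c σ + ∑ i, ((R i).dt.c σ - t.dt.c σ))

/-! ### targets: from structures to run trees -/

/-- double counting -/
def T_DC : Prop := ∀ (N Q L T O C : Type) [Fintype T] (W : Pm N Q L T O C) (A : Type)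
  [Fintype A] (lam : A → L) (th : A → A → T) (col : A → Q), Sym W.S th →
  (∀ a z, W.K.cp (kn lam th Set.univ a z) = W.af (col a) z) → ∀ (κ κ' : Q × L)
  (X Y : Finset A), (∀ x ∈ X, (col x, lam x) = κ) → (∀ y ∈ Y, (col y, lam y) = κ') →
    Disjoint X Y → W.H ≤ X.card → W.H ≤ Y.card →
      ∃ x ∈ X, ∃ y ∈ Y, W.sat κ.1 (κ'.2, th x y) ∧ W.sat κ'.1 (κ.2, W.S.sw (th x y))

/-- the steps of a union of generated structures -/
def T_XJ : Prop := ∀ (N Q L T O C : Type) [Fintype Q] [Fintype L] [Fintype T] [Fintype C]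
  (W : Pm N Q L T O C) (A : Type) [Fintype A] (lam : A → L) (th : A → A → T) (col : A → Q)
  (o : O) (X Y : Set A), Sym W.S th → Disjoint X Y →
    (∀ x ∈ X, ∀ y ∈ Y, W.S.al o (col x) (col y) (th x y)) →
      ∃ w, W.JR o (cf W.K lam th X X col) (cf W.K lam th Y Y col) w
        (cf W.K lam th X (X ∪ Y) col) 0 (cf W.K lam th Y (X ∪ Y) col)

/-- run trees of generated structures -/
def T_XT : Prop := ∀ (N Q L T O C : Type) [Fintype Q] [Fintype L] [Fintype T] [Fintype C]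
  (W : Pm N Q L T O C) (A : Type) [Fintype A] (lam : A → L) (th : A → A → T) (col : A → Q),
  Sym W.S th → (∀ a z, W.K.cp (kn lam th Set.univ a z) = W.af (col a) z) →
  ∀ (s : N) (X : Set A) (c : A → Q), W.S.Gen lam th s X c → (∀ a ∈ X, c a = col a) →
  ∀ F : Fk Q L O → ℕ, W.adm lam th col X F →
    ∃ R : Rt N Q L T O C, W.Ok R ∧ R.dt = ⟨s, F, cf W.K lam th X X col⟩

/-! ### targets: assembly -/

/-- accepted structures have run trees -/
def T_EA : Prop := ∀ (N Q L T O C : Type) [Fintype Q] [Fintype L] [Fintype T] [Fintype C]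
  (W : Pm N Q L T O C) (s₀ : N) (Ac : Ix Q L T C → Prop), (∀ σ, Ac σ → σ.2.2 = W.af σ.1) →
  ∀ n ∈ W.Lm s₀ Ac, ∃ R : Rt N Q L T O C, W.Ok R ∧ R.dt.s = s₀ ∧ (∀ φ, R.dt.F φ = 0) ∧
    tot R.dt.c = n ∧ ∀ σ, R.dt.c σ ≠ 0 → Ac σ

/-- realised accepted configurations -/
def T_EB : Prop := ∀ (N Q L T O C : Type) [Fintype Q] [Fintype L] [Fintype T] [Fintype C]
  (W : Pm N Q L T O C) (s₀ : N) (Ac : Ix Q L T C → Prop), (∀ σ, Ac σ → σ.2.2 = W.af σ.1) →
  ∀ c : Ix Q L T C → ℕ, W.RD s₀ c → (∀ σ, c σ ≠ 0 → Ac σ) → tot c ∈ W.Lm s₀ Ac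

/-- the theorem for the parameters -/
def T_EC : Prop := ∀ (N Q L T O C : Type) [Finite N] [Fintype Q] [Fintype L] [Fintype T]
  [Finite O] [Fintype C] [Nonempty T] (W : Pm N Q L T O C) (s₀ : N) (Ac : Ix Q L T C → Prop),
  (∀ σ, Ac σ → σ.2.2 = W.af σ.1) → EvPer (W.Lm s₀ Ac)

/-- the theorem for composition systems -/
def T_ES : Prop := ∀ (N Q L T O C : Type) [Finite N] [Fintype Q] [Fintype L] [Fintype T]
  [Finite O] [Fintype C] [Nonempty T] (S : Sg N Q L T O) (K : Cp C) (s₀ : N)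
  (Ok : St L T C → Prop), (∀ o q, S.f o q = q) → (∀ o q, S.g o q = q) → STriv S →
    EvPer {n | SysMem S K s₀ Ok n}

end Pool.Agent.H46.CH
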