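import Pool.Agent.H46.CH.GR

/-!
# Generalised extensions are realised, and may be merged
-/

set_option autoImplicit false

namespace Pool.Agent.H46.CH

open Classical Pool.Agent.H8.VR Pool.Agent.H69.VR

section
variable {N Q L T O C : Type} [Fintype Q] [Fintype L] [Fintype T] [Fintype C]

theorem step_det {S : Sg N Q L T O} {K : Cp C} {o : O} {τ : Ix Q L T C}
    {m : Ix Q L T C × T → ℕ} {a b d a₁ b₁ d₁ a₂ b₂ d₂ : Ix Q L T C → ℕ}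
    (h : Step S K o τ m a b d a₁ b₁ d₁) (h' : Step S K o τ m a b d a₂ b₂ d₂) :
    a₁ = a₂ ∧ b₁ = b₂ ∧ d₁ = d₂ := by
  refine ⟨funext fun σ => ?_, funext fun σ => ?_, funext fun σ => ?_⟩
  · rw [h.2.2.2.1 σ, h'.2.2.2.1 σ]
  · have e1 := h.2.2.1 σ
    have e2 := h'.2.2.1 σ
    omega
  · rw [h.2.2.2.2 σ, h'.2.2.2.2 σ]

/-- a step with additional elements -/
theorem step_add (W : Pm N Q L T O C) (o : O) (x : Sd Q L T C)
    {a₁ b₁ d₁ α₁ β₁ α₂ : Ix Q L T C → ℕ} {μ : Ix Q L T C × T → ℕ}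
    (ht : Step W.S W.K o x.τ x.m x.a x.b 0 a₁ b₁ d₁)
    (hμ : ∀ p, W.P ∣ μ p ∧ (μ p ≠ 0 → W.H ≤ x.m p)) (hμα : ∀ σ, ∑ θ, μ (σ, θ) = α₁ σ)
    (hα₂ : ∀ σ, α₂ σ = fs (fun p => up W.K x.τ p = σ) μ) :
    Step W.S W.K o x.τ (x.m + μ) (x.a + α₁) (x.b + β₁) 0 (a₁ + α₂) (b₁ + β₁) d₁ := by
  refine ⟨fun σ => ?_, fun p hp => ?_, fun σ => ?_, fun σ => ?_, fun σ => ?_⟩
  · have e1 := ht.1 σ
    have e2 := hμα σ
    simp only [Pi.add_apply, Finset.sum_add_distrib]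
    omega
  · refine ht.2.1 p fun h0 => hp ?_
    have e1 := (hμ p).2
    have e2 := W.hH
    simp only [Pi.add_apply]
    by_contra h1
    have e3 : μ p ≠ 0 := by omega
    have := e1 e3
    omega
  · have := ht.2.2.1 σ
    simp only [Pi.add_apply]
    omega
  · have e3 : fs (fun p => up W.K x.τ p = σ) (x.m + μ) =
        fs (fun p => up W.K x.τ p = σ) x.m + fs (fun p => up W.K x.τ p = σ) μ := fs_add' _ _ _
    rw [e3, Pi.add_apply, ht.2.2.2.1 σ, hα₂ σ]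
  · rw [ht.2.2.2.2 σ, nw_eq W x.τ x.m μ hμ]

theorem gx_cons {W : Pm N Q L T O C} {o : O} {B : Q × L → Prop} {x : Sd Q L T C}
    {w : List (Sd Q L T C)} {a b α β α' β' ε : Ix Q L T C → ℕ}
    (h : W.GX o B a b (x :: w) α β α' β' ε) :
    ∃ (a₁ b₁ d₁ α₁ β₁ ε₁ : Ix Q L T C → ℕ) (μ : Ix Q L T C × T → ℕ) (α₂ ε' : Ix Q L T C → ℕ),
      Step W.S W.K o x.τ x.m x.a x.b 0 a₁ b₁ d₁ ∧ W.dk B α ∧ W.dk B α₁ ∧
      W.seg o B x.a x.b α β α₁ β₁ ε₁ ∧ (∀ p, W.P ∣ μ p ∧ (μ p ≠ 0 → W.H ≤ x.m p)) ∧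
      (∀ σ, ∑ θ, μ (σ, θ) = α₁ σ) ∧ (∀ σ, α₂ σ = fs (fun p => up W.K x.τ p = σ) μ) ∧
      W.GX o B a₁ b₁ w α₂ β₁ α' β' ε' ∧ ε = ε₁ + ε' := by
  cases h with
  | cons x w a₁ b₁ d₁ α β α₁ β₁ ε₁ μ α₂ α' β' ε' ht hα hα₁ hs hμ hμα hα₂ hr =>
    exact ⟨a₁, b₁, d₁, α₁, β₁, ε₁, μ, α₂, ε', ht, hα, hα₁, hs, hμ, hμα, hα₂, hr, rfl⟩

theorem dk_add {W : Pm N Q L T O C} {B : Q × L → Prop} {α β : Ix Q L T C → ℕ} (h : W.dk B α)
    (h' : W.dk B β) : W.dk B (α + β) := by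
  intro σ
  refine ⟨Dvd.dvd.add (h σ).1 (h' σ).1, fun h0 => ?_⟩
  by_cases h1 : α σ = 0
  · refine (h' σ).2 fun h2 => h0 ?_
    simp only [Pi.add_apply, h1, h2, add_zero]
  · exact (h σ).2 h1

end

theorem pf_GJ (hJ1 : T_J1) (hJ2 : T_J2) : T_GJ := by
  intro N Q L T O C _ _ _ _ _ W o B a b α β α' β' ε a' b' e w hG
  induction hG generalizing a' b' e with
  | nil a b α β α' β' ε hα hα' hs =>
    intro hJ
    cases hJ with
    | nil =>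
      have h1 := hs 0 0 (fun σ => ⟨by simp, fun h => absurd rfl h⟩)
      simpa using h1
  | cons x w a₁ b₁ d₁ α β α₁ β₁ ε₁ μ α₂ α' β' ε' ht hα hα₁ hs hμ hμα hα₂ hr ih =>
    intro hJ
    obtain ⟨-, -, a₂, b₂, d₂, e₂, hs2, hJ2', rfl⟩ := jr_cons hJ
    obtain ⟨rfl, rfl, rfl⟩ := step_det ht hs2
    have h1 := hs 0 0 (fun σ => ⟨by simp, fun h => absurd rfl h⟩)
    simp only [add_zero] at h1
    have h2 := hJ1 N Q L T O C W o x.τ _ _ _ _ _ _ _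
      (step_add W o x (β₁ := β₁) ht hμ hμα hα₂)
    have h3 := ih a' b' e₂ hJ2'
    have h4 := (hJ2 N Q L T O C W o _ _ _ _ _ _ _ _).2 h2 h3
    have h5 := (hJ2 N Q L T O C W o _ _ _ _ _ _ _ _).2 h1 h4
    have h6 : (fun σ => ind (σ = nw W.S W.K x.τ (x.m + μ))) = d₁ := by
      funext σ
      rw [ht.2.2.2.2 σ, nw_eq W x.τ x.m μ hμ, Pi.zero_apply, zero_add]
    rw [h6] at h5
    have h7 : ε₁ + (d₁ + (e₂ + ε')) = d₁ + e₂ + (ε₁ + ε') := by abel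
    rw [h7] at h5
    exact h5

theorem seg_add {N Q L T O C : Type} [Fintype Q] [Fintype L] [Fintype T] [Fintype C]
    (hJ2 : T_J2) [Nonempty T] (W : Pm N Q L T O C) (o : O) (B : Q × L → Prop)
    {a b α β α' β' ε γ δ γ' δ' η : Ix Q L T C → ℕ} (hγ : W.dk B γ) (hα' : W.dk B α')
    (h : W.seg o B a b α β α' β' ε) (h' : W.seg o B a b γ δ γ' δ' η) :
    W.seg o B a b (α + γ) (β + δ) (α' + γ') (β' + δ') (ε + η) := by
  intro U V hU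
  have h1 := h (γ + U) (δ + V) (dk_add hγ hU)
  have h2 := h' (α' + U) (β' + V) (dk_add hα' hU)
  have e1 : a + α + (γ + U) = a + (α + γ) + U := by abel
  have e2 : b + β + (δ + V) = b + (β + δ) + V := by abel
  have e3 : a + α' + (γ + U) = a + γ + (α' + U) := by abel
  have e4 : b + β' + (δ + V) = b + δ + (β' + V) := by abel
  have e5 : a + γ' + (α' + U) = a + (α' + γ') + U := by abel
  have e6 : b + δ' + (β' + V) = b + (β' + δ') + V := by abel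
  rw [e1, e2, e3, e4] at h1
  rw [e5, e6] at h2
  exact (hJ2 N Q L T O C W o _ _ _ _ _ _ _ _).2 h1 h2

theorem pf_GM (hJ2 : T_J2) : T_GM := by
  intro N Q L T O C _ _ _ _ _ W o B a b α β α' β' ε γ δ γ' δ' η w hG
  induction hG generalizing γ δ γ' δ' η with
  | nil a b α β α' β' ε hα hα' hs =>
    intro hG'
    cases hG' with
    | nil _ _ _ _ _ _ _ hγ hγ' hs' =>
      exact Pm.GX.nil _ _ _ _ _ _ _ (dk_add hα hγ) (dk_add hα' hγ')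
        (seg_add hJ2 W o B hγ hα' hs hs')
  | cons x w a₁ b₁ d₁ α β α₁ β₁ ε₁ μ α₂ α' β' ε' ht hα hα₁ hs hμ hμα hα₂ hr ih =>
    intro hG'
    obtain ⟨a₂, b₂, d₂, γ₁, δ₁, η₁, ν, γ₂, η', ht', hγ, hγ₁, hs', hν, hνγ, hγ₂, hr', rfl⟩ :=
      gx_cons hG'
    · obtain ⟨rfl, rfl, rfl⟩ := step_det ht ht'
      have h1 := ih _ _ _ _ _ hr'
      have e1 : ε₁ + ε' + (η₁ + η') = ε₁ + η₁ + (ε' + η') := by abel
      rw [e1]
      refine Pm.GX.cons x w a₁ b₁ d₁ _ _ (α₁ + γ₁) (β₁ + δ₁) _ (μ + ν) (α₂ + γ₂) _ _ _ ht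
        (dk_add hα hγ) (dk_add hα₁ hγ₁) (seg_add hJ2 W o B hγ hα₁ hs hs') (fun p => ?_)
        (fun σ => ?_) (fun σ => ?_) h1
      · refine ⟨Dvd.dvd.add (hμ p).1 (hν p).1, fun h => ?_⟩
        by_cases h0 : μ p = 0
        · refine (hν p).2 fun h2 => h ?_
          simp only [Pi.add_apply, h0, h2, add_zero]
        · exact (hμ p).2 h0
      · have e1 := hμα σ
        have e2 := hνγ σ
        simp only [Pi.add_apply, Finset.sum_add_distrib]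
        omega
      · have e3 : fs (fun p => up W.K x.τ p = σ) (μ + ν) =
            fs (fun p => up W.K x.τ p = σ) μ + fs (fun p => up W.K x.τ p = σ) ν := fs_add' _ _ _
        rw [e3, Pi.add_apply, hα₂ σ, hγ₂ σ]

end Pool.Agent.H46.CH
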