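import Pool.Agent.H46.CH.AT
import Pool.Agent.H8.VR.StepL

/-!
# Extensions of a word are generalised extensions
-/

set_option autoImplicit false

namespace Pool.Agent.H46.CH

open Classical Pool.Agent.H8.VR Pool.Agent.H69.VR

section
variable {N Q L T O C : Type} [Fintype Q] [Fintype L] [Fintype T] [Fintype C]

theorem fs_add' {ι : Type} [Fintype ι] (X : ι → Prop) (f g : ι → ℕ) :
    fs X (fun i => f i + g i) = fs X f + fs X g := by
  unfold fs
  exact Finset.sum_add_distrib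

theorem fs_dvd {ι : Type} [Fintype ι] (X : ι → Prop) (f : ι → ℕ) (P : ℕ) (h : ∀ i, P ∣ f i) :
    P ∣ fs X f := by
  unfold fs
  exact Finset.dvd_sum fun i _ => h i

theorem le_fs {ι : Type} [Fintype ι] (X : ι → Prop) (f : ι → ℕ) (i : ι) (h : X i) :
    f i ≤ fs X f := by
  unfold fs
  exact Finset.single_le_sum (f := f) (fun _ _ => Nat.zero_le _)
    (Finset.mem_filter.2 ⟨Finset.mem_univ _, h⟩)

theorem fs_ne {ι : Type} [Fintype ι] (X : ι → Prop) (f : ι → ℕ) (h : fs X f ≠ 0) :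
    ∃ i, X i ∧ f i ≠ 0 := by
  unfold fs at h
  obtain ⟨i, hi, h1⟩ := Finset.exists_ne_zero_of_sum_ne_zero h
  exact ⟨i, (Finset.mem_filter.1 hi).2, h1⟩

theorem fs_fs {ι κ : Type} [Fintype ι] [Fintype κ] (g : κ → ι) (X : ι → Prop) (f : κ → ℕ) :
    fs X (fun i => fs (fun k => g k = i) f) = fs (fun k => X (g k)) f := by
  unfold fs
  rw [← Finset.sum_fiberwise_of_maps_to (s := Finset.univ.filter fun k => X (g k))
    (t := Finset.univ.filter X) (g := g)]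
  · refine Finset.sum_congr rfl fun i hi => Finset.sum_congr ?_ fun _ _ => rfl
    ext k
    simp only [Finset.mem_filter, Finset.mem_univ, true_and] at hi ⊢
    constructor
    · intro h; exact ⟨by rw [h]; exact hi, h⟩
    · intro h; exact h.2
  · intro k hk
    simpa using hk

theorem fs_prod {ι κ : Type} [Fintype ι] [Fintype κ] (X : ι → Prop) (f : ι × κ → ℕ) :
    fs X (fun i => ∑ θ, f (i, θ)) = fs (fun p => X p.1) f := by
  unfold fs
  rw [Finset.sum_filter, Finset.sum_filter, Fintype.sum_prod_type]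
  refine Finset.sum_congr rfl fun i _ => ?_
  split_ifs <;> simp_all

theorem le_kc (c : Ix Q L T C → ℕ) (σ : Ix Q L T C) : c σ ≤ kc c (σ.1, σ.2.1) :=
  le_fs _ c σ rfl

theorem kc_left {S : Sg N Q L T O} {K : Cp C} {o : O} {τ : Ix Q L T C} {m : Ix Q L T C × T → ℕ}
    {a b d a' b' d' : Ix Q L T C → ℕ} (h : Step S K o τ m a b d a' b' d') (κ : Q × L) :
    kc a' κ = kc a κ := by
  obtain ⟨h1, -, -, h4, -⟩ := h
  unfold kc
  have e1 : a' = fun σ => fs (fun p => up K τ p = σ) m := funext h4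
  have e2 : a = fun σ => ∑ θ, m (σ, θ) := funext fun σ => (h1 σ).symm
  rw [e1, e2, fs_fs, fs_prod]
  rfl

theorem kc_right {S : Sg N Q L T O} {K : Cp C} {o : O} {τ : Ix Q L T C} {m : Ix Q L T C × T → ℕ}
    {a b d a' b' d' : Ix Q L T C → ℕ} (h : Step S K o τ m a b d a' b' d') (κ : Q × L) :
    kc b' κ ≤ kc b κ := by
  obtain ⟨-, -, h3, -, -⟩ := h
  unfold kc fs
  exact Finset.sum_le_sum fun σ _ => by have := h3 σ; omega

theorem cp_mul (W : Pm N Q L T O C) (x : ℕ) (hx : W.k₀ ≤ x) (j : ℕ) :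
    W.K.cp (x + W.P * j) = W.K.cp x := by
  induction j with
  | zero => simp
  | succ j ih =>
    have e : x + W.P * (j + 1) = (x + W.P * j) + W.P := by ring
    rw [e, W.per _ (by omega), ih]

/-- additional multiples of the period do not change the new index -/
theorem nw_eq (W : Pm N Q L T O C) (τ : Ix Q L T C) (m μ : Ix Q L T C × T → ℕ)
    (hμ : ∀ p, W.P ∣ μ p ∧ (μ p ≠ 0 → W.H ≤ m p)) :
    nw W.S W.K τ (m + μ) = nw W.S W.K τ m := by
  unfold nw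
  refine Prod.ext rfl (Prod.ext rfl (funext fun z => ?_))
  dsimp only
  congr 1
  have e : (fun σ : Ix Q L T C => (m + μ) (σ, W.S.sw z.2)) =
      fun σ => m (σ, W.S.sw z.2) + μ (σ, W.S.sw z.2) := rfl
  rw [e, fs_add']
  obtain ⟨j, hj⟩ := fs_dvd (fun σ : Ix Q L T C => σ.2.1 = z.1) (fun σ => μ (σ, W.S.sw z.2)) W.P
    fun σ => (hμ _).1
  rw [hj]
  by_cases h0 : fs (fun σ : Ix Q L T C => σ.2.1 = z.1) (fun σ => μ (σ, W.S.sw z.2)) = 0
  · rw [← hj, h0, add_zero]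
  · obtain ⟨σ, hσ, h1⟩ := fs_ne _ _ h0
    refine cp_mul W _ ?_ j
    have h2 := (hμ _).2 h1
    have h3 := le_fs (fun σ : Ix Q L T C => σ.2.1 = z.1) (fun σ => m (σ, W.S.sw z.2)) σ hσ
    have := W.kH
    omega

theorem lp_le {W : Pm N Q L T O C} {x y : ℕ} (h : W.lp x y) :
    y = x + (y - x) ∧ W.P ∣ y - x ∧ (y - x ≠ 0 → W.H ≤ x) := by
  rcases h with rfl | ⟨h1, h2, h3⟩
  · exact ⟨by omega, by simp, fun h => absurd (Nat.sub_self _) h⟩
  · exact ⟨by omega, (Nat.modEq_iff_dvd' h2).1 h3, fun _ => h1⟩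

theorem split_sub {α : Type} {r : α → α → Prop} {x : α} {w : List α} : ∀ {w₂ : List α},
    List.SublistForall₂ r (x :: w) w₂ →
      ∃ i y w₃, w₂ = i ++ y :: w₃ ∧ r x y ∧ List.SublistForall₂ r w w₃
  | [], h => by cases h
  | y :: w₂, h => by
    cases h with
    | cons h1 h2 => exact ⟨[], y, w₂, rfl, h1, h2⟩
    | cons_right h1 =>
      obtain ⟨i, y', w₃, h2, h3, h4⟩ := split_sub h1
      exact ⟨y :: i, y', w₃, by rw [h2]; rfl, h3, h4⟩

theorem jr_cons {W : Pm N Q L T O C} {o : O} {x : Sd Q L T C} {w : List (Sd Q L T C)}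
    {a b a' b' e : Ix Q L T C → ℕ} (h : W.JR o a b (x :: w) a' b' e) : a = x.a ∧ b = x.b ∧
    ∃ a₁ b₁ d₁ e₁, Step W.S W.K o x.τ x.m x.a x.b 0 a₁ b₁ d₁ ∧ W.JR o a₁ b₁ w a' b' e₁ ∧
      e = d₁ + e₁ := by
  cases h with
  | cons x w a₁ b₁ d₁ a' b' e hs h => exact ⟨rfl, rfl, a₁, b₁, d₁, e, hs, h, rfl⟩

theorem split_jr {W : Pm N Q L T O C} {o : O} {y : Sd Q L T C} {w : List (Sd Q L T C)}
    {a' b' : Ix Q L T C → ℕ} : ∀ {i : List (Sd Q L T C)} {a b e : Ix Q L T C → ℕ},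
    W.JR o a b (i ++ y :: w) a' b' e →
      ∃ e₁ e₂, W.JR o a b i y.a y.b e₁ ∧ W.JR o y.a y.b (y :: w) a' b' e₂ ∧ e = e₁ + e₂
  | [], a, b, e, h => by
    obtain ⟨rfl, rfl, -⟩ := jr_cons h
    exact ⟨0, e, Pm.JR.nil _ _, h, (zero_add _).symm⟩
  | x :: i, a, b, e, h => by
    rw [List.cons_append] at h
    obtain ⟨rfl, rfl, a₁, b₁, d₁, e', hs, h', rfl⟩ := jr_cons h
    obtain ⟨e₁, e₂, h1, h2, h3⟩ := split_jr h'
    exact ⟨d₁ + e₁, e₂, Pm.JR.cons x i a₁ b₁ d₁ _ _ e₁ hs h1, h2, by rw [h3, add_assoc]⟩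

theorem jr_zero {W : Pm N Q L T O C} {o : O} {a b a' b' e : Ix Q L T C → ℕ}
    {w : List (Sd Q L T C)} (h : W.JR o a b w a' b' e) (hb : b = 0) : w = [] ∧ a' = a ∧ e = 0 := by
  cases h with
  | nil => exact ⟨rfl, rfl, rfl⟩
  | cons x w a₁ b₁ d₁ a' b' e hs h =>
    have := hs.2.2.1 x.τ
    rw [ind_pos rfl, hb] at this
    simp at this

theorem inner (hJW : T_JW) (hJ2 : T_J2) (hJ3 : T_J3) (hJ4 : T_J4) [Nonempty T]
    (W : Pm N Q L T O C) (o : O) (B B' : Q × L → Prop)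
    (hsl : ∀ κ κ', B κ → B' κ' → ∃ θ, W.slt κ (o, true, κ') θ) :
    ∀ (w : List (Sd Q L T C)) (a b a' e : Ix Q L T C → ℕ), W.JR o a b w a' 0 e →
    ∀ (w₂ : List (Sd Q L T C)) (a₂ b₂ a₂' e₂ : Ix Q L T C → ℕ), W.JR o a₂ b₂ w₂ a₂' 0 e₂ →
    List.SublistForall₂ W.sle w w₂ → ∀ α β : Ix Q L T C → ℕ, a₂ = a + α → b₂ = b + β →
    W.dk B α → W.dk B' β → (w = [] → β = 0) → (∀ κ, W.H ≤ kc a κ → B κ) →
    (∀ κ, W.H ≤ kc b κ → B' κ) →
      ∃ α' ε : Ix Q L T C → ℕ, a₂' = a' + α' ∧ e₂ = e + ε ∧ W.GX o B a b w α β α' 0 ε := by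
  intro w
  induction w with
  | nil =>
    intro a b a' e hw w₂ a₂ b₂ a₂' e₂ hw₂ _ α β ha hb hα hβ h0 _ _
    have hβ0 := h0 rfl
    subst hβ0
    cases hw with
    | nil =>
      subst ha hb
      rw [add_zero] at hw₂
      obtain ⟨rfl, rfl, rfl⟩ := jr_zero hw₂ rfl
      refine ⟨α, 0, rfl, (add_zero _).symm, Pm.GX.nil _ _ _ _ _ _ _ hα hα fun U V hU => ?_⟩
      exact (hJ2 N Q L T O C W o _ _ 0 0 0 0 0 0).1
  | cons x w₁ ih =>
    intro a b a' e hw w₂ a₂ b₂ a₂' e₂ hw₂ hs α β ha hb hα hβ _ hBa hBb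
    obtain ⟨rfl, rfl, a₁, b₁, d₁, e₁, hstep, h, rfl⟩ := jr_cons hw
    obtain ⟨i, y, w₃, rfl, hxy, hs3⟩ := split_sub hs
    obtain ⟨ei, er, hi, hr, rfl⟩ := split_jr hw₂
    obtain ⟨-, -, a₃, b₃, d₃, er', hstep3, h3, rfl⟩ := jr_cons hr
    obtain ⟨hτ, hm, hla, hlb⟩ := hxy
    set α₁ : Ix Q L T C → ℕ := fun σ => y.a σ - x.a σ with hα₁
    set β₁ : Ix Q L T C → ℕ := fun σ => y.b σ - x.b σ with hβ₁
    set μ : Ix Q L T C × T → ℕ := fun p => y.m p - x.m p with hμ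
    have hya : y.a = x.a + α₁ := funext fun σ => (lp_le (hla σ)).1
    have hyb : y.b = x.b + β₁ := funext fun σ => (lp_le (hlb σ)).1
    have hym : y.m = x.m + μ := funext fun p => (lp_le (hm p)).1
    have hdα₁ : W.dk B α₁ := fun σ => ⟨(lp_le (hla σ)).2.1, fun h => hBa _
      (((lp_le (hla σ)).2.2 h).trans (le_kc _ _))⟩
    have hdβ₁ : W.dk B' β₁ := fun σ => ⟨(lp_le (hlb σ)).2.1, fun h => hBb _
      (((lp_le (hlb σ)).2.2 h).trans (le_kc _ _))⟩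
    have hμ' : ∀ p, W.P ∣ μ p ∧ (μ p ≠ 0 → W.H ≤ x.m p) := fun p =>
      ⟨(lp_le (hm p)).2.1, (lp_le (hm p)).2.2⟩
    have hμα : ∀ σ, ∑ θ, μ (σ, θ) = α₁ σ := by
      intro σ
      have e1 := hstep3.1 σ
      have e2 := hstep.1 σ
      rw [hym, hya] at e1
      simp only [Pi.add_apply, Finset.sum_add_distrib] at e1
      omega
    set α₂ : Ix Q L T C → ℕ := fun σ => fs (fun p => up W.K x.τ p = σ) μ with hα₂
    have ha3 : a₃ = a₁ + α₂ := by
      funext σ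
      have e1 := hstep3.2.2.2.1 σ
      have e2 := hstep.2.2.2.1 σ
      rw [hym, ← hτ] at e1
      have e3 : fs (fun p => up W.K x.τ p = σ) (x.m + μ) =
          fs (fun p => up W.K x.τ p = σ) x.m + fs (fun p => up W.K x.τ p = σ) μ :=
        fs_add' _ _ _
      rw [Pi.add_apply, e1, e2, e3]
    have hb3 : b₃ = b₁ + β₁ := by
      funext σ
      have e1 := hstep3.2.2.1 σ
      have e2 := hstep.2.2.1 σ
      rw [hyb, ← hτ] at e1
      simp only [Pi.add_apply] at e1 ⊢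
      omega
    have hd3 : d₃ = d₁ := by
      funext σ
      rw [hstep3.2.2.2.2 σ, hstep.2.2.2.2 σ, hym, ← hτ, nw_eq W x.τ x.m μ hμ']
    have hdα₂ : W.dk B α₂ := by
      intro σ
      refine ⟨fs_dvd _ _ _ fun p => (hμ' p).1, fun h => ?_⟩
      obtain ⟨p, hp, h1⟩ := fs_ne _ _ h
      have h2 : α₁ p.1 ≠ 0 := by
        rw [← hμα p.1]
        intro h3
        rw [Finset.sum_eq_zero_iff] at h3
        exact h1 (h3 p.2 (Finset.mem_univ _))
      have h4 := (hdα₁ p.1).2 h2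
      have h5 : (σ.1, σ.2.1) = (p.1.1, p.1.2.1) := by rw [← hp]; rfl
      rw [h5]
      exact h4
    have h0' : w₁ = [] → β₁ = 0 := by
      rintro rfl
      cases h with
      | nil =>
        funext σ
        have e2 := hstep.2.2.1 σ
        have e3 : ind (σ = x.τ) ≤ 1 := by unfold ind; split_ifs <;> omega
        by_contra h4
        have h5 := (lp_le (hlb σ)).2.2 h4
        have := W.hH
        simp only [Pi.zero_apply] at e2
        omega
    obtain ⟨α', ε', h4, h5, h6⟩ := ih a₁ b₁ a' e₁ h w₃ a₃ b₃ a₂' er' h3 hs3 α₂ β₁ ha3 hb3 hdα₂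
      hdβ₁ h0' (fun κ hκ => hBa κ (by rwa [← kc_left hstep κ]))
      (fun κ hκ => hBb κ (hκ.trans (kc_right hstep κ)))
    refine ⟨α', ei + ε', h4, ?_, ?_⟩
    · rw [h5, hd3]
      abel
    · refine Pm.GX.cons x w₁ a₁ b₁ d₁ α β α₁ β₁ ei μ α₂ α' 0 ε' hstep hα hdα₁ ?_ hμ' hμα
        (fun _ => rfl) h6
      intro U V hU
      have g1 := hJW N Q L T O C W o _ _ _ _ _ _ hi
      have g2 := hJ3 N Q L T O C W o _ _ _ _ _ U g1 (fun σ => (hU σ).1) (fun σ => ?_)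
        (fun σ τ h7 h8 => ?_)
      · have g3 := hJ4 N Q L T O C W o _ _ _ _ _ V g2
        rw [ha, hb, hya, hyb] at g3
        exact g3
      · rw [hb, hyb]
        simp only [Pi.add_apply]
        have e1 : x.b σ + β σ - (x.b σ + β₁ σ) = β σ - β₁ σ := by omega
        rw [e1]
        exact Nat.dvd_sub (hβ σ).1 (hdβ₁ σ).1
      · rw [hb, hyb] at h8
        simp only [Pi.add_apply] at h8
        exact hsl _ _ ((hU σ).2 h7) ((hβ τ).2 (by omega))

end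

theorem pf_GR (hJW : T_JW) (hJ2 : T_J2) (hJ3 : T_J3) (hJ4 : T_J4) : T_GR := by
  intro N Q L T O C _ _ _ _ _ W o B B' hsl a b w a' e hw a₂ b₂ w₂ a₂' e₂ hw₂ hs hla hlb hBa hBb
  have ha : a₂ = a + fun σ => a₂ σ - a σ := funext fun σ => (lp_le (hla σ)).1
  have hb : b₂ = b + fun σ => b₂ σ - b σ := funext fun σ => (lp_le (hlb σ)).1
  have h0 : w = [] → (fun σ => b₂ σ - b σ) = 0 := by
    rintro rfl
    cases hw with
    | nil =>
      funext σ
      by_contra h4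
      have h5 := (lp_le (hlb σ)).2.2 h4
      have := W.hH
      simp only [Pi.zero_apply] at h5
      omega
  obtain ⟨α', ε, h1, h2, h3⟩ := inner hJW hJ2 hJ3 hJ4 W o B B' hsl w a b a' e hw w₂ a₂ b₂ a₂' e₂
    hw₂ hs _ _ ha hb
    (fun σ => ⟨(lp_le (hla σ)).2.1, fun h => hBa _ (((lp_le (hla σ)).2.2 h).trans (le_kc _ _))⟩)
    (fun σ => ⟨(lp_le (hlb σ)).2.1, fun h => hBb _ (((lp_le (hlb σ)).2.2 h).trans (le_kc _ _))⟩)
    h0 hBa hBb
  exact ⟨_, _, α', ε, ha, hb, h1, h2, h3⟩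

end Pool.Agent.H46.CH
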