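import Pool.Agent.H46.CH.GJ

/-!
# The amalgam at a union
-/

set_option autoImplicit false

namespace Pool.Agent.H46.CH

open Classical Pool.Agent.H8.VR Pool.Agent.H69.VR

section
variable {N Q L T O C : Type} [Fintype Q] [Fintype L] [Fintype T] [Fintype C]

theorem ok_join {W : Pm N Q L T O C} {D : Dt N Q L T O C} {o : O} {w : List (Sd Q L T C)}
    {t₁ t₂ : Rt N Q L T O C} (h : W.Ok (.join D o w t₁ t₂)) :
    W.Ok t₁ ∧ W.Ok t₂ ∧ W.S.s o = t₁.dt.s ∧ W.S.t o = t₂.dt.s ∧ W.S.u o = D.s ∧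
    (∀ φ, t₁.dt.F φ = D.F φ + if φ.1 = o ∧ φ.2.1 = true then kc t₂.dt.c φ.2.2 else 0) ∧
    (∀ φ, t₂.dt.F φ = D.F φ + if φ.1 = o ∧ φ.2.1 = false then kc t₁.dt.c φ.2.2 else 0) ∧
    (∃ a' e : Ix Q L T C → ℕ, W.JR o t₁.dt.c t₂.dt.c w a' 0 e ∧ ∀ σ, D.c σ = a' σ + e σ) ∧
    W.good D := by
  cases h with
  | join D o w t₁ t₂ h₁ h₂ hs ht hu hF₁ hF₂ a' e hw hc hg =>
    exact ⟨h₁, h₂, hs, ht, hu, hF₁, hF₂, ⟨a', e, hw, hc⟩, hg⟩

theorem ok_good {W : Pm N Q L T O C} {t : Rt N Q L T O C} (h : W.Ok t) : W.good t.dt := by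
  cases h with
  | leaf D q l h hc hg => exact hg
  | join D o w t₁ t₂ h₁ h₂ hs ht hu hF₁ hF₂ a' e hw hc hg => exact hg

end

theorem sfa_refl {α : Type} {r : α → α → Prop} (h : ∀ a, r a a) : ∀ l : List α,
    List.SublistForall₂ r l l
  | [] => List.SublistForall₂.nil
  | a :: l => List.SublistForall₂.cons (h a) (sfa_refl h l)

theorem pf_PM (hGR : T_GR) (hGM : T_GM) (hGJ : T_GJ) (hXD : T_XD) : T_PM := by
  intro N Q L T O C _ _ _ _ _ _ W D o w t₁ t₂ hok n D' w' t₁' t₂' hall h1 h2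
  obtain ⟨ok₁, ok₂, hs, ht, hu, hF₁, -, ⟨a', e, hw, hc⟩, -⟩ := ok_join hok
  set B : Q × L → Prop := fun κ => W.H ≤ kc t₁.dt.c κ with hB
  set B' : Q × L → Prop := fun κ => W.H ≤ kc t₂.dt.c κ with hB'
  have hsl : ∀ κ κ', B κ → B' κ' → ∃ θ, W.slt κ (o, true, κ') θ := by
    intro κ κ' hκ hκ'
    refine ok_good ok₁ κ _ hκ ?_
    rw [hF₁]
    simp only [and_self, if_true]
    exact hκ'.trans (Nat.le_add_left _ _)
  have key : ∀ i, ∃ α β α' ε a'' e' : Ix Q L T C → ℕ, (t₁' i).dt.c = t₁.dt.c + α ∧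
      (t₂' i).dt.c = t₂.dt.c + β ∧ (∀ σ, (D' i).c σ = D.c σ + (α' σ + ε σ)) ∧
      W.GX o B t₁.dt.c t₂.dt.c w α β α' 0 ε := by
    intro i
    obtain ⟨hoki, hdi, hwi, hd1, hd2⟩ := hall i
    obtain ⟨-, -, -, -, -, -, -, ⟨a'', e', hw', hc'⟩, -⟩ := ok_join hoki
    obtain ⟨α, β, α', ε, g1, g2, g3, g4, g5⟩ := hGR N Q L T O C W o B B' hsl _ _ _ _ _ hw _ _ _ _ _
      hw' hwi hd1.2.2 hd2.2.2 (fun κ h => h) (fun κ h => h)
    refine ⟨α, β, α', ε, a'', e', g1, g2, fun σ => ?_, g5⟩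
    rw [hc' σ, hc σ, g3, g4]
    simp only [Pi.add_apply]
    omega
  choose α β α' ε a'' e' k1 k2 k3 k4 using key
  -- the sums
  have hsum : ∀ s : Finset (Fin n), W.GX o B t₁.dt.c t₂.dt.c w (∑ i ∈ s, α i) (∑ i ∈ s, β i)
      (∑ i ∈ s, α' i) 0 (∑ i ∈ s, ε i) := by
    intro s
    induction s using Finset.induction_on with
    | empty =>
      obtain ⟨α, β, α', ε, g1, g2, g3, g4, g5⟩ := hGR N Q L T O C W o B B' hsl _ _ _ _ _ hw _ _ _ _
        _ hw (sfa_refl (fun x => ⟨rfl, fun _ => Or.inl rfl, fun _ => Or.inl rfl,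
          fun _ => Or.inl rfl⟩) w) (fun _ => Or.inl rfl) (fun _ => Or.inl rfl) (fun κ h => h)
        (fun κ h => h)
      have z1 : α = 0 := by
        have := g1.symm
        rwa [add_eq_left] at this
      have z2 : β = 0 := by
        have := g2.symm
        rwa [add_eq_left] at this
      have z3 : α' = 0 := by
        have := g3.symm
        rwa [add_eq_left] at this
      have z4 : ε = 0 := by
        have := g4.symm
        rwa [add_eq_left] at this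
      subst z1 z2 z3 z4
      simpa using g5
    | insert i s hi ih =>
      rw [Finset.sum_insert hi, Finset.sum_insert hi, Finset.sum_insert hi, Finset.sum_insert hi]
      have := hGM N Q L T O C W o B _ _ _ _ _ _ _ _ _ _ _ _ _ (k4 i) ih
      rwa [add_zero] at this
  have hJ := hGJ N Q L T O C W o B _ _ _ _ _ _ _ _ _ _ _ (hsum Finset.univ) hw
  rw [add_zero] at hJ
  have q1 : (fun σ => t₁.dt.c σ + ∑ i, ((t₁' i).dt.c σ - t₁.dt.c σ)) =
      t₁.dt.c + ∑ i, α i := by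
    funext σ
    rw [Pi.add_apply, Finset.sum_apply]
    congr 1
    refine Finset.sum_congr rfl fun i _ => ?_
    rw [k1 i, Pi.add_apply]
    omega
  have q2 : (fun σ => t₂.dt.c σ + ∑ i, ((t₂' i).dt.c σ - t₂.dt.c σ)) =
      t₂.dt.c + ∑ i, β i := by
    funext σ
    rw [Pi.add_apply, Finset.sum_apply]
    congr 1
    refine Finset.sum_congr rfl fun i _ => ?_
    rw [k2 i, Pi.add_apply]
    omega
  rw [q1, ← hs] at h1
  rw [q2, ← ht] at h2
  have hR := hXD N Q L T O C W o _ _ _ _ h1 h2 hJ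
  rw [hu] at hR
  have q3 : (fun σ => D.c σ + ∑ i, ((D' i).c σ - D.c σ)) =
      a' + ∑ i, α' i + (e + ∑ i, ε i) := by
    funext σ
    simp only [Pi.add_apply, Finset.sum_apply]
    have e1 : ∑ i, ((D' i).c σ - D.c σ) = ∑ i, (α' i σ + ε i σ) :=
      Finset.sum_congr rfl fun i _ => by rw [k3 i σ]; omega
    rw [e1, Finset.sum_add_distrib, hc σ]
    omega
  rw [q3]
  exact hR

end Pool.Agent.H46.CH
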