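import Pool.Agent.H8.CH.N2
import Pool.Agent.H8.CH.JC
import Pool.Agent.H8.CH.DC
import Pool.Agent.H8.CH.XJ
import Pool.Agent.H8.CH.XL
import Pool.Agent.H8.CH.XR
import Pool.Agent.H9.CH.XT
import Pool.Agent.H9.CH.EC
import Pool.Agent.H20.CH.ES
import Pool.Agent.H23.CH.JW
import Pool.Agent.H23.CH.SH
import Pool.Agent.H23.CH.KR
import Pool.Agent.H23.CH.WQ
import Pool.Agent.H36.CHS.ED
import Pool.Agent.H36.CHS.EU
import Pool.Agent.H36.CHS.J3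
import Pool.Agent.H36.CHS.RO
import Pool.Agent.H40.CH.EA
import Pool.Agent.H40.CH.J4
import Pool.Agent.H46.CH.GR
import Pool.Agent.H46.CH.GJ
import Pool.Agent.H46.CH.PM
import Pool.Agent.H75.CH.EB
import Pool.Agent.H75.CH.REG
import Pool.Agent.H76.CH.J1
import Pool.Agent.H76.CH.J2
import Pool.Agent.H76.CH.PD
import Pool.Agent.H99.CH.PS
import Pool.Agent.H99.CH.PT
import Pool.Agent.H99.CH.SD

/-!
# The regular level: all modules put together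
-/

set_option autoImplicit false

namespace Pool.Agent.H46.CH

open Pool.Agent

theorem t_j3 : T_J3 := H36.CHS.pf_J3 H76.CH.pf_TR H76.CH.pf_SS

theorem t_j4 : T_J4 := H40.CH.pf_J4 H76.CH.pf_SS

theorem t_jw : T_JW := H23.CH.pf_JW H76.CH.pf_J1 H76.CH.pf_J2

theorem t_xl : T_XL := H8.CH.pf_XL H76.CH.pf_TR H8.CH.pf_JC

theorem t_xr : T_XR := H8.CH.pf_XR H76.CH.pf_TR H8.CH.pf_JC

theorem t_xt : T_XT := H9.CH.pf_XT H8.CH.pf_DC H8.CH.pf_XJ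

theorem t_ea : T_EA := H40.CH.pf_EA t_xt

section
variable (hXP : T_XP) (hXA : T_XA) (hXB : T_XB) (hXD : T_XD)

include hXP hXD in
theorem t_ro : T_RO := H36.CHS.pf_RO hXP hXD t_jw

include hXP hXD in
theorem t_sh : T_SH := H23.CH.pf_SH t_xl t_xr (t_ro hXP hXD) t_jw

include hXP hXA hXB hXD in
theorem t_sd : T_SD := H99.CH.pf_SD hXA hXB (t_sh hXP hXD) H36.CHS.pf_ED

include hXD in
theorem t_pm : T_PM := pf_PM (pf_GR t_jw H76.CH.pf_J2 t_j3 t_j4) (pf_GM H76.CH.pf_J2)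
  (pf_GJ H76.CH.pf_J1 H76.CH.pf_J2) hXD

include hXP hXA hXB hXD in
theorem t_pt : T_PT := H99.CH.pf_PT H36.CHS.pf_ED (t_ro hXP hXD) (t_pm hXD)
  (H99.CH.pf_PS (t_sd hXP hXA hXB hXD))

include hXP hXA hXB hXD in
theorem t_es : T_ES := H20.CH.pf_ES H76.CH.pf_PD
  (H9.CH.pf_EC H76.CH.pf_BS H36.CHS.pf_EU (H23.CH.pf_WQ H23.CH.pf_KR) t_ea
    (H75.CH.pf_EB H76.CH.pf_TR) (t_pt hXP hXA hXB hXD))

include hXP hXA hXB hXD in
theorem t_reg' : T_REG := H75.CH.pf_REG H8.CH.pf_N2 (t_es hXP hXA hXB hXD)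

end

end Pool.Agent.H46.CH
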