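import Pool.Agent.H46.CH.AllC
import Pool.Agent.H46.CH.AllA
import Pool.Agent.H79.CH.XP
import Pool.Agent.H79.CH.XA
import Pool.Agent.H79.CH.XB
import Pool.Agent.H79.CH.XD

/-!
# The regular level, complete
-/

set_option autoImplicit false

namespace Pool.Agent.H46.CH

open Pool.Agent

theorem t_xa : T_XA := H79.CH.pf_XA H76.CH.pf_SS

theorem t_xb : T_XB := H79.CH.pf_XB

theorem t_xd : T_XD := H79.CH.pf_XD t_xl t_xb

theorem t_reg : T_REG := t_reg' H79.CH.pf_XP t_xa t_xb t_xd

end Pool.Agent.H46.CH
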