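import Pool.Agent.H8.CH.N2
import Pool.Agent.H8.CH.LRA
import Pool.Agent.H8.CH.LRB
import Pool.Agent.H8.CH.RL
import Pool.Agent.H8.CH.RE
import Pool.Agent.H8.CH.AU
import Pool.Agent.H8.CH.SWA
import Pool.Agent.H8.CH.SWB
import Pool.Agent.H8.CH.UG
import Pool.Agent.H8.CH.UM
import Pool.Agent.H8.CH.UP
import Pool.Agent.H8.CH.LG
import Pool.Agent.H8.CH.PGA
import Pool.Agent.H8.CH.PGB
import Pool.Agent.H11.CH.RG
import Pool.Agent.H11.CH.B1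
import Pool.Agent.H11.CH.CA
import Pool.Agent.H11.CH.EX
import Pool.Agent.H1.CH.RQ
import Pool.Agent.H1.CH.RH
import Pool.Agent.H1.CH.LOB
import Pool.Agent.H1.CH.CC
import Pool.Agent.H94.CH.CB
import Pool.Agent.H94.CH.LOC
import Pool.Agent.H94.CH.PQ
import Pool.Agent.H94.CH.TP
import Pool.Agent.H45.CH.B2
import Pool.Agent.H45.CH.MT
import Pool.Agent.H74.CH.CR
import Pool.Agent.H74.CH.SHC
import Pool.Agent.H74.CH.A1
import Pool.Agent.H74.CH.O2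
import Pool.Agent.H36.CHS.A2
import Pool.Agent.H36.CHS.O1
import Pool.Agent.H36.CHS.S1
import Pool.Agent.H36.CHS.S2
import Pool.Agent.H36.CHS.LOW
import Pool.Agent.H37.CH.NPA
import Pool.Agent.H88.CHS.CD
import Pool.Agent.H88.CHS.CO
import Pool.Agent.H88.CHS.FBN
import Pool.Agent.H88.CHS.IR
import Pool.Agent.H88.CHS.IS
import Pool.Agent.H88.CHS.LD
import Pool.Agent.H88.CHS.LE
import Pool.Agent.H88.CHS.VS

/-!
# The context-sensitive level: all modules put together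
-/

set_option autoImplicit false

namespace Pool.Agent.H46.CH

open Pool.Agent

/-! ### the upper bound -/

theorem t_au : T_AU := H8.CH.pf_AU H8.CH.pf_SWA H8.CH.pf_SWB

theorem t_rh : T_RH := H1.CH.pf_RH H11.CH.pf_RG H1.CH.pf_RQ

theorem t_rl : T_RL := H8.CH.pf_RL H11.CH.pf_RG H1.CH.pf_RQ t_rh

theorem t_re : T_RE := H8.CH.pf_RE H11.CH.pf_RG H1.CH.pf_RQ t_rh

theorem t_ug : T_UG :=
  H8.CH.pf_UG H8.CH.pf_N2 H8.CH.pf_LRA H8.CH.pf_LRB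
    (H74.VR.pf_MM H65.VR.pf_GM H53.VR.t_CM H8.VR.pf_tt) H8.VR.pf_tt t_rl t_re t_au

theorem t_up : T_UP :=
  H8.CH.pf_UP t_ug (H8.CH.pf_UM t_ug) H8.CH.pf_LG H8.CH.pf_PGA H8.CH.pf_PGB

/-! ### the lower bound -/

theorem t_cr : T_CR := H74.CH.pf_CR H11.CH.pf_EX

theorem t_ca : T_CA := H11.CH.pf_CA H94.CH.pf_TP H45.CH.pf_MT t_cr

theorem t_cb : T_CB := H94.CH.pf_CB H11.CH.pf_B1 H45.CH.pf_B2 H45.CH.pf_MT

theorem t_loc : T_LOC := H94.CH.pf_LOC H1.CH.pf_LOB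

theorem t_cc : T_CC := H1.CH.pf_CC t_loc t_ca t_cb

theorem t_s1 : T_S1 := H36.CHS.pf_S1 H88.CH.pf_CO H88.CH.pf_IS

theorem t_s2 : T_S2 := H36.CHS.pf_S2 H88.CH.pf_CO H88.CH.pf_IS

theorem t_a1 : T_A1 :=
  H74.CH.pf_A1 H88.CH.pf_IR t_s1 (H88.CH.pf_LD H88.CH.pf_CO H88.CH.pf_IR) H74.CH.pf_SHC
    (H88.CH.pf_VS H88.CH.pf_CO)

theorem t_a2 : T_A2 :=
  H36.CHS.pf_A2 H88.CH.pf_IR t_s2 (H88.CH.pf_LE H88.CH.pf_CO H88.CH.pf_IR)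

theorem t_low : T_LOW :=
  H36.CHS.pf_LOW t_cc H88.CH.pf_CD (H37.CH.pf_NPA H94.CH.pf_PQ H88.CH.pf_IR)
    (H37.CH.pf_NPB H94.CH.pf_PQ H88.CH.pf_IR) t_a1 t_a2
    (H36.CHS.pf_O1 H88.CH.pf_IR H88.CH.pf_IS) (H74.CH.pf_O2 H88.CH.pf_IR H88.CH.pf_IS)
    H88.CH.pf_IR H88.CH.pf_FBN

theorem t_cs : T_CS := ⟨t_up.1, t_up.2, t_low⟩

end Pool.Agent.H46.CH
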