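import Pool.Agent.H46.CH.AllC
import Pool.Agent.H8.VR.All
import Pool.Agent.H1.CHD.TUG
import Pool.Agent.H11.CHD.TUB
import Pool.Agent.H23.CHD.TB2
import Pool.Agent.H23.CHD.TCA
import Pool.Agent.H29.CHD.TCL
import Pool.Agent.H29.CHD.TLD
import Pool.Agent.H36.CHD.TLW
import Pool.Agent.H36.CHD.TN2
import Pool.Agent.H38.CHD.TMT
import Pool.Agent.H38.CHD.TUM
import Pool.Agent.H43.CHD.TGB
import Pool.Agent.H43.CHD.TUP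
import Pool.Agent.H48.CHD.TRG
import Pool.Agent.H48.CHD.TUA
import Pool.Agent.H6.CHD.TCC
import Pool.Agent.H72.CHD.AUT
import Pool.Agent.H74.CHD.TCR
import Pool.Agent.H75.CHD.TN1
import Pool.Agent.H79.CHD.SWC
import Pool.Agent.H79.CHD.SWD
import Pool.Agent.H79.CHD.TA1
import Pool.Agent.H88.CHD.TGA
import Pool.Agent.H88.CHD.TRA
import Pool.Agent.H88.CHD.TVS
import Pool.Agent.H94.CHD.TA2
import Pool.Agent.H94.CHD.TB1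
import Pool.Agent.H94.CHD.TCB
import Pool.Agent.H94.CHD.TTP
import Pool.Agent.H99.CHD.TIR
import Pool.Agent.H99.CHD.TRB

/-!
# The context-free level: all modules put together
-/

set_option autoImplicit false

namespace Pool.Agent.H46.CH

open Pool.Agent

theorem t_aut : T_AUT := H72.CHD.pf_AUT H79.CHD.pf_SWC H79.CHD.pf_SWD

theorem t_trg : T_TRG := H48.CHD.pf_TRG H11.CH.pf_RG t_rh

theorem t_tua : T_TUA := H48.CHD.pf_TUA (H33.VR.pf_RS H8.VR.pf_tt) H8.VR.pf_tt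

theorem t_tub : T_TUB :=
  H11.CHD.pf_TUB (H33.VR.pf_RC H65.VR.pf_GM H53.VR.t_CM H49.VR.pf_FB H8.VR.pf_tt) H8.VR.pf_tt

theorem t_tca : T_TCA :=
  H23.CHD.pf_TCA H88.CHD.pf_TRA H94.CHD.pf_TTP H38.CHD.pf_TMT (H74.CHD.pf_TCR H11.CH.pf_EX)

theorem t_tcb : T_TCB :=
  H94.CHD.pf_TCB H99.CHD.pf_TRB H38.CHD.pf_TMT H94.CHD.pf_TB1 H23.CHD.pf_TB2

theorem t_tcc : T_TCC := H6.CHD.pf_TCC t_loc t_tca t_tcb

theorem t_ta1 : T_TA1 := H79.CHD.pf_TA1 H99.CHD.pf_TIR t_s1 H88.CH.pf_CO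

theorem t_ta2 : T_TA2 := H94.CHD.pf_TA2 H99.CHD.pf_TIR t_s2

theorem t_tld : T_TLD := H29.CHD.pf_TLD H99.CHD.pf_TIR

theorem t_tcl : T_TCL := H29.CHD.pf_TCL H99.CHD.pf_TIR H88.CH.pf_IR

theorem t_tn1 : T_TN1 :=
  H75.CHD.pf_TN1 H99.CHD.pf_TIR (H88.CH.pf_LD H88.CH.pf_CO H88.CH.pf_IR) t_tld t_tcl
    H88.CHD.pf_TVS t_ta1 H88.CH.pf_IR (H36.CHS.pf_O1 H88.CH.pf_IR H88.CH.pf_IS)
    (H74.CH.pf_O2 H88.CH.pf_IR H88.CH.pf_IS)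

theorem t_tn2 : T_TN2 :=
  H36.CHD.pf_TN2 H99.CHD.pf_TIR (H88.CH.pf_LE H88.CH.pf_CO H88.CH.pf_IR) t_tld t_tcl t_ta2
    H88.CH.pf_IR (H36.CHS.pf_O1 H88.CH.pf_IR H88.CH.pf_IS)

theorem t_tlw : T_TLW := H36.CHD.pf_TLW t_tcc H88.CH.pf_CD t_tn1 t_tn2 H88.CH.pf_FBN

theorem t_tug : T_TUG :=
  H1.CHD.pf_TUG H8.CH.pf_N2 (H74.VR.pf_MM H65.VR.pf_GM H53.VR.t_CM H8.VR.pf_tt) t_aut t_trg t_tua
    t_tub

theorem t_tum : T_TUM := H38.CHD.pf_TUM t_tug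

theorem t_tup : T_TUP := H43.CHD.pf_TUP t_tug t_tum H88.CHD.pf_TGA H43.CHD.pf_TGB

theorem t_cf : T_CF := ⟨t_tup.1, t_tup.2.1, t_tup.2.2, t_tlw⟩

end Pool.Agent.H46.CH
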