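import Pool.Agent.H46.CH.AllH0
import Pool.Agent.H6.CHD.TW2
import Pool.Agent.H36.CHD.TDB
import Pool.Agent.H36.CHD.PDA
import Pool.Agent.H36.CHD.NMK
import Pool.Agent.H1.CHD.TDA
import Pool.Agent.H8.DE.Cor

/-!
# The hierarchy
-/

set_option autoImplicit false

namespace Pool.Agent.H46.CH

open Pool.Agent.H69.Sp Pool.Agent.H69.Mt Pool.Agent.H8.VR Pool.Agent.H69.VR Pool.Agent.H8.JS
open Pool.Agent.H8.DE Classical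

theorem hard_w : ∃ Ψ : MS, Ψ.Below 1 ∧ (∀ (A : Type) [Finite A] [Nonempty A] (P : ℕ → A → Prop)
        (R : ℕ → A → A → Prop), (∀ e V, Ψ.Sat P R e V) ↔ TreeBlowUp (R 0)) ∧
      ∀ L ∈ LCF, ∃ (φ : C2) (p : Polynomial ℤ), ∀ k ≥ 2, ∀ x : List Bool, ∃ y : List Bool,
        (num y : ℤ) = p.eval (num x : ℤ) ∧ (x ∈ L ↔ y ∈ lang (specWM k 1 Ψ φ)) :=
  hard_wm Pool.Agent.H6.CHD.pf_TW2 Pool.Agent.H1.CHD.pf_TDA Pool.Agent.H36.CHD.pf_TDB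
    Pool.Agent.H36.CHD.pf_NMK

theorem hard_l : ∃ Ψ : MS, Ψ.Below 1 ∧ (∀ (A : Type) [Finite A] [Nonempty A] (P : ℕ → A → Prop)
        (R : ℕ → A → A → Prop), (∀ e V, Ψ.Sat P R e V) ↔ PathBlowUp (R 0)) ∧
      ∀ L ∈ NLIN, ∃ (φ : C2) (p : Polynomial ℤ), ∀ k ≥ 3, ∀ x : List Bool, ∃ y : List Bool,
        (num y : ℤ) = p.eval (num x : ℤ) ∧ (x ∈ L ↔ y ∈ lang (specLM k 1 Ψ φ)) :=
  hard_lm (Pool.Agent.H36.CHD.pf_PDA Pool.Agent.H1.CHD.pf_TDA) Pool.Agent.H36.CHD.pf_TDB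
    Pool.Agent.H36.CHD.pf_NMK

theorem t_hi :
    (∀ (N Q : Type) [Finite N] [Finite Q] (G : Gram N Q),
      (∀ o ∈ G.ops, IsSpectrum o.D ∧ IsSpectrum (posCompl o.D)) →
        ∀ (m : ℕ) (s₀ : N) (Ψ : MS) (φ : C2), Ψ.Below m →
          IsSpectrum (specM G m s₀ Ψ φ) ∧ IsSpectrum (posCompl (specM G m s₀ Ψ φ))) ∧
    (∀ (N Q : Type) [Finite N] [Finite Q] (G : Gram N Q), (∀ o ∈ G.ops, o.D = {n | 0 < n}) →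
        ∀ (m : ℕ) (s₀ : N) (Ψ : MS) (φ : C2), Ψ.Below m →
          lang (specM G m s₀ Ψ φ) ∈ DE ∧ lang (specM G m s₀ Ψ φ) ∈ LCF) ∧
    (∀ (k m : ℕ) (Ψ : MS) (φ : C2), Ψ.Below m →
      (IsSpectrum (specWM k m Ψ φ) ∧ IsSpectrum (posCompl (specWM k m Ψ φ))) ∧
        lang (specWM k m Ψ φ) ∈ DE ∧ lang (specWM k m Ψ φ) ∈ LCF) ∧
    (∃ Ψ : MS, Ψ.Below 1 ∧ (∀ (A : Type) [Finite A] [Nonempty A] (P : ℕ → A → Prop)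
        (R : ℕ → A → A → Prop), (∀ e V, Ψ.Sat P R e V) ↔ TreeBlowUp (R 0)) ∧
      ∀ L ∈ LCF, ∃ (φ : C2) (p : Polynomial ℤ), ∀ k ≥ 2, ∀ x : List Bool, ∃ y : List Bool,
        (num y : ℤ) = p.eval (num x : ℤ) ∧ (x ∈ L ↔ y ∈ lang (specWM k 1 Ψ φ))) ∧
    (∀ (k m : ℕ) (Ψ : MS) (φ : C2), Ψ.Below m →
      (IsSpectrum (specLM k m Ψ φ) ∧ IsSpectrum (posCompl (specLM k m Ψ φ))) ∧
        lang (specLM k m Ψ φ) ∈ NLIN) ∧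
    (∃ Ψ : MS, Ψ.Below 1 ∧ (∀ (A : Type) [Finite A] [Nonempty A] (P : ℕ → A → Prop)
        (R : ℕ → A → A → Prop), (∀ e V, Ψ.Sat P R e V) ↔ PathBlowUp (R 0)) ∧
      ∀ L ∈ NLIN, ∃ (φ : C2) (p : Polynomial ℤ), ∀ k ≥ 3, ∀ x : List Bool, ∃ y : List Bool,
        (num y : ℤ) = p.eval (num x : ℤ) ∧ (x ∈ L ↔ y ∈ lang (specLM k 1 Ψ φ))) ∧
    (∀ (N Q : Type) [Finite N] [Finite Q] (G : Gram N Q),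
      (∀ o ∈ G.ops, Function.Bijective o.f ∧ Function.Bijective o.g ∧ o.D = {n | 0 < n}) →
        ∀ (m : ℕ) (s₀ : N) (Ψ : MS) (φ : C2), Ψ.Below m →
          ∃ a p, 0 < p ∧ ∀ n ≥ a, (n ∈ specM G m s₀ Ψ φ ↔ n + p ∈ specM G m s₀ Ψ φ)) ∧
    (∀ (m : ℕ) (Ψ : MS) (φ : C2), Ψ.Below m →
      ∃ a p, 0 < p ∧ ∀ n ≥ a, (n ∈ specWM 1 m Ψ φ ↔ n + p ∈ specWM 1 m Ψ φ)) ∧
    (∀ (Ψ : MS) (φ : C2), Ψ.Below 2 →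
      ∃ a p, 0 < p ∧ ∀ n ≥ a, (n ∈ specFM Ψ φ ↔ n + p ∈ specFM Ψ φ)) ∧
    ∀ (k : ℕ) (Ψ : MS) (φ : C2), Ψ.Below k →
      ∃ a p, 0 < p ∧ ∀ n ≥ a, (n ∈ specEM k Ψ φ ↔ n + p ∈ specEM k Ψ φ) := by
  refine ⟨e_all.1, fun N Q _ _ G hG m s₀ Ψ φ h => ⟨e_all.2.1 N Q G hG m s₀ Ψ φ h,
      t_cf.1 N Q G hG m s₀ Ψ φ h⟩, fun k m Ψ φ h => ⟨(e_all.2.2.1 k m Ψ φ h).1,
      (e_all.2.2.1 k m Ψ φ h).2, t_cf.2.1 k m Ψ φ h⟩, hard_w,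
      fun k m Ψ φ h => ⟨lm_compl k m Ψ φ h, t_cs.1 k m Ψ φ h⟩, hard_l,
      fun N Q _ _ G hG m s₀ Ψ φ h => reg_bij t_reg G hG m s₀ Ψ φ h,
      fun m Ψ φ h => reg_w1 t_reg m Ψ φ h, fun Ψ φ h => t_reg.2.1 Ψ φ h,
      fun k Ψ φ h => t_reg.2.2 k Ψ φ h⟩

end Pool.Agent.H46.CH
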