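import Pool.Agent.H46.CH.DW

/-!
# Blow-ups of trees and paths are definable: targets
-/

set_option autoImplicit false

namespace Pool.Agent.H46.CH

open Pool.Agent.H8.VR Pool.Agent.H69.VR

/-- blow-ups of rooted trees, without numbers: blocks are classes of `R x y ∧ R y x`, every block has
at most one parent, and everything is reached from a root -/
def TBx {A : Type} (R : A → A → Prop) : Prop :=
  (∀ x, R x x) ∧ (∀ x y z, R x y → R y x → ((R x z ↔ R y z) ∧ (R z x ↔ R z y))) ∧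
  (∀ x y z, R x z → ¬ R z x → R y z → ¬ R z y → R x y ∧ R y x) ∧
  ∃ r, (∀ y, R y r → R r y) ∧
    ∀ S : Set A, r ∈ S → (∀ x ∈ S, ∀ y, R x y → y ∈ S) → ∀ y, y ∈ S

/-- every block has at most one child -/
def UCh {A : Type} (R : A → A → Prop) : Prop :=
  ∀ x y z, R x y → ¬ R y x → R x z → ¬ R z x → R y z ∧ R z y

/-- blow-ups of trees without numbers -/
def T_TDA : Prop := ∀ (A : Type) [Finite A] [Nonempty A] (R : A → A → Prop),
  TreeBlowUp R ↔ TBx R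

/-- blow-ups of paths without numbers -/
def T_PDA : Prop := ∀ (A : Type) [Finite A] [Nonempty A] (R : A → A → Prop),
  PathBlowUp R ↔ TBx R ∧ UCh R

/-- definability -/
def T_TDB : Prop :=
  (∃ Ψ : MS, Ψ.Below 1 ∧ ∀ (A : Type) [Nonempty A] (P : ℕ → A → Prop) (R : ℕ → A → A → Prop),
    (∀ (e : ℕ → A) (V : ℕ → Set A), Ψ.Sat P R e V) ↔ TBx (R 0)) ∧
  ∃ Ψ : MS, Ψ.Below 1 ∧ ∀ (A : Type) [Nonempty A] (P : ℕ → A → Prop) (R : ℕ → A → A → Prop),
    (∀ (e : ℕ → A) (V : ℕ → Set A), Ψ.Sat P R e V) ↔ TBx (R 0) ∧ UCh (R 0)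

/-- more colours -/
def T_NMK : Prop :=
  (∀ (k k' m : ℕ), k ≤ k' → ∀ (A : Type) (R : ℕ → A → A → Prop),
    (∃ c, NLC k m R Set.univ c) → ∃ c, NLC k' m R Set.univ c) ∧
  ∀ (k k' m : ℕ), k ≤ k' → ∀ (A : Type) (R : ℕ → A → A → Prop),
    (∃ c, LNLC k m R Set.univ c) → ∃ c, LNLC k' m R Set.univ c

end Pool.Agent.H46.CH
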