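import Pool.Agent.H46.CH.AT

/-!
# Bijective changes of colours reduce to no changes of colours
-/

set_option autoImplicit false

namespace Pool.Agent.H46.CH

open Pool.Agent.H8.VR Pool.Agent.H69.VR Classical

section
variable {N Q : Type}

/-- the operation, for the colours at the root: `π` leads from the colours of the result to the
colours at the root -/
def opP (o : Op N Q) (f g π : Equiv.Perm Q) : Op (N × Equiv.Perm Q) Q where
  s := (o.s, f.trans π)
  t := (o.t, g.trans π)
  u := (o.u, π)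
  l := fun i p q => o.l i ((f.trans π).symm p) ((g.trans π).symm q)
  r := fun i p q => o.r i ((f.trans π).symm p) ((g.trans π).symm q)
  f := id
  g := id
  D := o.D

/-- the permutation of a map, if it is a bijection -/
noncomputable def prm (f : Q → Q) : Equiv.Perm Q :=
  if h : Function.Bijective f then Equiv.ofBijective f h else Equiv.refl Q

theorem prm_apply {f : Q → Q} (h : Function.Bijective f) (q : Q) : prm f q = f q := by
  rw [prm, dif_pos h]
  rfl

variable [Finite Q]

/-- the list of the permutations -/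
noncomputable def prms (Q : Type) [Finite Q] : List (Equiv.Perm Q) :=
  (Set.finite_univ : (Set.univ : Set (Equiv.Perm Q)).Finite).toFinset.toList

theorem mem_prms (π : Equiv.Perm Q) : π ∈ prms Q := by
  simp [prms]

/-- the grammar for the colours at the root -/
noncomputable def grP (G : Gram N Q) : Gram (N × Equiv.Perm Q) Q where
  pts := G.pts.flatMap fun x => (prms Q).map fun π =>
    { s := (x.s, π), q := π x.q, un := x.un, lp := x.lp }
  ops := G.ops.flatMap fun o => (prms Q).map fun π => opP o (prm o.f) (prm o.g) π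

theorem gen_grP {G : Gram N Q} (hG : ∀ o ∈ G.ops, Function.Bijective o.f ∧ Function.Bijective o.g)
    {A : Type} {m : ℕ} {P : ℕ → A → Prop} {R : ℕ → A → A → Prop} {s : N} {X : Set A} {c : A → Q}
    (h : G.Gen m P R s X c) : ∀ π : Equiv.Perm Q, (grP G).Gen m P R (s, π) X fun a => π (c a) := by
  induction h with
  | pt x hx a c hc hP hR =>
    intro π
    refine Gram.Gen.pt (G := grP G) (m := m) (P := P) (R := R)
      { s := (x.s, π), q := π x.q, un := x.un, lp := x.lp } ?_ a _ ?_ hP hR
    · exact List.mem_flatMap.2 ⟨x, hx, List.mem_map.2 ⟨π, mem_prms π, rfl⟩⟩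
    · simp [hc]
  | op o ho X Y c c₁ c₂ h₁ h₂ hd hD hR hX hY ih1 ih2 =>
    intro π
    refine Gram.Gen.op (G := grP G) (m := m) (P := P) (R := R) (opP o (prm o.f) (prm o.g) π) ?_
      X Y _ (fun a => ((prm o.f).trans π) (c₁ a)) (fun a => ((prm o.g).trans π) (c₂ a))
      (ih1 _) (ih2 _) hd hD ?_ ?_ ?_
    · exact List.mem_flatMap.2 ⟨o, ho, List.mem_map.2 ⟨π, mem_prms π, rfl⟩⟩
    · intro a ha b hb i hi
      have := hR a ha b hb i hi
      simpa [opP] using this
    · intro a ha
      simp only [opP, id, Equiv.trans_apply, prm_apply (hG o ho).1, hX a ha]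
    · intro b hb
      simp only [opP, id, Equiv.trans_apply, prm_apply (hG o ho).2, hY b hb]

theorem grP_gen {G : Gram N Q} (hG : ∀ o ∈ G.ops, Function.Bijective o.f ∧ Function.Bijective o.g)
    {A : Type} {m : ℕ} {P : ℕ → A → Prop} {R : ℕ → A → A → Prop} {s : N × Equiv.Perm Q}
    {X : Set A} {c : A → Q} (h : (grP G).Gen m P R s X c) :
    G.Gen m P R s.1 X fun a => s.2.symm (c a) := by
  induction h with
  | pt x hx a c hc hP hR =>
    obtain ⟨y, hy, hx⟩ := List.mem_flatMap.1 hx
    obtain ⟨π, -, rfl⟩ := List.mem_map.1 hx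
    refine Gram.Gen.pt (G := G) (m := m) (P := P) (R := R) y hy a _ ?_ hP hR
    simp only [hc, Equiv.symm_apply_apply]
  | op o ho X Y c c₁ c₂ h₁ h₂ hd hD hR hX hY ih1 ih2 =>
    obtain ⟨o', ho', hx⟩ := List.mem_flatMap.1 ho
    obtain ⟨π, -, rfl⟩ := List.mem_map.1 hx
    refine Gram.Gen.op (G := G) (m := m) (P := P) (R := R) o' ho' X Y _ _ _ ih1 ih2 hd hD ?_ ?_ ?_
    · intro a ha b hb i hi
      exact hR a ha b hb i hi
    · intro a ha
      have := hX a ha
      simp only [opP, id] at this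
      simp only [opP, this, ← prm_apply (hG o' ho').1]
      simp
    · intro b hb
      have := hY b hb
      simp only [opP, id] at this
      simp only [opP, this, ← prm_apply (hG o' ho').2]
      simp

theorem specM_grP {G : Gram N Q} (hG : ∀ o ∈ G.ops, Function.Bijective o.f ∧ Function.Bijective o.g)
    (m : ℕ) (s₀ : N) (Ψ : MS) (φ : C2) :
    specM G m s₀ Ψ φ = specM (grP G) m (s₀, Equiv.refl Q) Ψ φ := by
  ext n
  refine and_congr_right fun _ => exists_congr fun P => exists_congr fun R => ?_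
  refine and_congr_left fun _ => ⟨?_, ?_⟩
  · rintro ⟨c, hc⟩
    exact ⟨_, gen_grP hG hc (Equiv.refl Q)⟩
  · rintro ⟨c, hc⟩
    exact ⟨_, grP_gen hG hc⟩

/-- the regular level with bijective changes of colours -/
theorem reg_bij (h : T_REG) [Finite N] (G : Gram N Q)
    (hG : ∀ o ∈ G.ops, Function.Bijective o.f ∧ Function.Bijective o.g ∧ o.D = {n | 0 < n})
    (m : ℕ) (s₀ : N) (Ψ : MS) (φ : C2) (hΨ : Ψ.Below m) : EvPer (specM G m s₀ Ψ φ) := by
  rw [specM_grP (fun o ho => ⟨(hG o ho).1, (hG o ho).2.1⟩)]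
  refine h.1 (N × Equiv.Perm Q) Q (grP G) ?_ m _ Ψ φ hΨ
  intro o ho
  obtain ⟨o', ho', hx⟩ := List.mem_flatMap.1 ho
  obtain ⟨π, -, rfl⟩ := List.mem_map.1 hx
  refine ⟨fun _ => rfl, fun _ => rfl, fun x y hx _ => ?_⟩
  have := (hG o' ho').2.2
  simp only [opP, this]
  exact lt_of_lt_of_le hx (Nat.left_le_pair x y)

end

/-- NLC-width 1 -/
theorem reg_w1 (h : T_REG) (m : ℕ) (Ψ : MS) (φ : C2) (hΨ : Ψ.Below m) : EvPer (specWM 1 m Ψ φ) := by
  rw [specWM_eq]
  refine reg_bij h (cwG 1 m) ?_ m () Ψ φ hΨ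
  intro o ho
  obtain ⟨x, -, rfl⟩ := List.mem_map.1 ho
  exact ⟨Finite.injective_iff_bijective.1 fun a b _ => Subsingleton.elim a b,
    Finite.injective_iff_bijective.1 fun a b _ => Subsingleton.elim a b, rfl⟩

end Pool.Agent.H46.CH
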