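import Pool.Agent.H46.CH.AllD
import Pool.Agent.H8.DE.Cor

/-!
# Spectra over blow-ups, and their complements
-/

set_option autoImplicit false

namespace Pool.Agent.H46.CH

open Pool.Agent.H69.Sp Pool.Agent.H69.Mt Pool.Agent.H8.VR Pool.Agent.H69.VR Classical

/-- the complement of the spectrum is a spectrum: linear NLC-width -/
theorem lm_compl (k m : ℕ) (Ψ : MS) (φ : C2) (h : Ψ.Below m) :
    IsSpectrum (specLM k m Ψ φ) ∧ IsSpectrum (posCompl (specLM k m Ψ φ)) := by
  rw [Pool.Agent.H8.CH.pf_LG k m Ψ φ]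
  refine t_all.1 Bool (Fin k) (linG k m) (fun o ho => ?_) m true Ψ φ h
  simp only [linG, List.mem_map] at ho
  obtain ⟨x, -, rfl⟩ := ho
  exact Pool.Agent.H60.VR.pf_PO

theorem specPB_eq (φ : C2) : specPB φ = specG pbG 1 true φ := by
  ext n
  refine and_congr_right fun hn => exists_congr fun P => exists_congr fun R => ?_
  have : Nonempty (Fin n) := ⟨⟨0, hn⟩⟩
  exact and_congr_left fun _ => ⟨fun h => Pool.Agent.H8.CH.pf_PGA (Fin n) P R h,
    fun h => Pool.Agent.H8.CH.pf_PGB (Fin n) P R h⟩

/-- the complement of the spectrum is a spectrum: blow-ups of paths -/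
theorem pb_compl (φ : C2) : IsSpectrum (specPB φ) ∧ IsSpectrum (posCompl (specPB φ)) := by
  rw [specPB_eq]
  refine t_vr Bool (Fin 3) pbG (fun o ho => ?_) 1 true φ
  simp only [pbG, List.mem_cons, List.not_mem_nil, or_false] at ho
  rcases ho with rfl | rfl <;> exact Pool.Agent.H60.VR.pf_PO

section
variable (hB : T_TGB)

include hB in
theorem specTB_eq (φ : C2) : specTB φ = specG tbG 1 true φ := by
  ext n
  refine and_congr_right fun hn => exists_congr fun P => exists_congr fun R => ?_
  have : Nonempty (Fin n) := ⟨⟨0, hn⟩⟩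
  exact and_congr_left fun _ => ⟨fun h => Pool.Agent.H88.CHD.pf_TGA (Fin n) P R h,
    fun h => hB (Fin n) P R h⟩

include hB in
/-- the complement of the spectrum is a spectrum: blow-ups of trees -/
theorem tb_compl (φ : C2) : IsSpectrum (specTB φ) ∧ IsSpectrum (posCompl (specTB φ)) := by
  rw [specTB_eq hB]
  refine t_vr Bool (Fin 3) tbG (fun o ho => ?_) 1 true φ
  simp only [tbG, List.mem_cons, List.not_mem_nil, or_false] at ho
  rcases ho with rfl | rfl <;> exact Pool.Agent.H60.VR.pf_PO

end

end Pool.Agent.H46.CH
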