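import Pool.Agent.H8.CH.PGA
import Pool.Agent.H88.CHD.TGA

/-!
# Blow-ups of paths have linear NLC-width at most 3, blow-ups of trees have NLC-width at most 3
-/

set_option autoImplicit false

namespace Pool.Agent.H46.CH

open Pool.Agent.H8.VR Pool.Agent.H69.VR Classical

theorem gen_lnlc {A : Type} {P : ℕ → A → Prop} {R : ℕ → A → A → Prop} {s : Bool} {X : Set A}
    {c : A → Fin 3} (h : pbG.Gen 1 P R s X c) :
    (s = false → ∃ b, X = {b}) ∧ (s = true → LNLC 3 1 R X c) := by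
  induction h with
  | pt x hx a c hc hP hR => exact ⟨fun _ => ⟨a, rfl⟩, fun _ => LNLC.pt a c⟩
  | op o ho X Y c c₁ c₂ h₁ h₂ hd hD hR hX hY ih1 ih2 =>
    have ho' : o.s = true ∧ o.t = false ∧ o.u = true := by
      simp only [pbG, List.mem_cons, List.not_mem_nil, or_false] at ho
      rcases ho with rfl | rfl <;> exact ⟨rfl, rfl, rfl⟩
    obtain ⟨b, rfl⟩ := ih2.1 ho'.2.1
    refine ⟨fun h => ?_, fun _ => ?_⟩
    · rw [ho'.2.2] at h
      exact absurd h (by simp)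
    · refine LNLC.op X b c c₁ (ih1.2 ho'.1) (Set.disjoint_singleton_right.1 hd)
        (fun i p => o.l i p (c₂ b)) (fun i p => o.r i p (c₂ b)) o.f ?_ hX
      intro a ha i hi
      exact hR a ha b rfl i hi

theorem gen_nlc3 {A : Type} {P : ℕ → A → Prop} {R : ℕ → A → A → Prop} {s : Bool} {X : Set A}
    {c : A → Fin 3} (h : tbG.Gen 1 P R s X c) : NLC 3 1 R X c := by
  induction h with
  | pt x hx a c hc hP hR => exact NLC.pt a c
  | op o ho X Y c c₁ c₂ h₁ h₂ hd hD hR hX hY ih1 ih2 =>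
    exact NLC.op X Y c c₁ c₂ ih1 ih2 hd o.l o.r o.f o.g hR hX hY

/-- blow-ups of paths have linear NLC-width at most 3 -/
theorem pb_lnlc (A : Type) [Finite A] [Nonempty A] (R : ℕ → A → A → Prop)
    (h : PathBlowUp (R 0)) : ∃ c, LNLC 3 1 R Set.univ c := by
  obtain ⟨c, hc⟩ := Pool.Agent.H8.CH.pf_PGA A (fun _ _ => True) R h
  exact ⟨c, (gen_lnlc hc).2 rfl⟩

/-- blow-ups of trees have NLC-width at most 3 -/
theorem tb_nlc (A : Type) [Finite A] [Nonempty A] (R : ℕ → A → A → Prop)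
    (h : TreeBlowUp (R 0)) : ∃ c, NLC 3 1 R Set.univ c := by
  obtain ⟨c, hc⟩ := Pool.Agent.H88.CHD.pf_TGA A (fun _ _ => True) R h
  exact ⟨c, gen_nlc3 hc⟩

end Pool.Agent.H46.CH
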