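import Pool.Agent.H46.CH.All
import Pool.Agent.H46.CH.AllD
import Pool.Agent.H46.CH.W3
import Pool.Agent.H46.CH.SpH
import Pool.Agent.H46.CH.PW
import Pool.Agent.H46.CH.DX

/-!
# The hierarchy, from the rows about blow-ups
-/

set_option autoImplicit false

namespace Pool.Agent.H46.CH

open Pool.Agent.H69.Sp Pool.Agent.H69.Mt Pool.Agent.H8.VR Pool.Agent.H69.VR Pool.Agent.H8.JS
open Pool.Agent.H8.DE Classical

/-- `LCF` is carried by the structures of NLC-width at most `k`, for every `k ≥ 2` -/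
theorem hard_wm (hW : T_TW2) (hTA : T_TDA) (hTB : T_TDB) (hK : T_NMK) :
    ∃ Ψ : MS, Ψ.Below 1 ∧ (∀ (A : Type) [Finite A] [Nonempty A] (P : ℕ → A → Prop)
        (R : ℕ → A → A → Prop), (∀ e V, Ψ.Sat P R e V) ↔ TreeBlowUp (R 0)) ∧
      ∀ L ∈ LCF, ∃ (φ : C2) (p : Polynomial ℤ), ∀ k ≥ 2, ∀ x : List Bool, ∃ y : List Bool,
        (num y : ℤ) = p.eval (num x : ℤ) ∧ (x ∈ L ↔ y ∈ lang (specWM k 1 Ψ φ)) := by
  obtain ⟨Ψ, hΨ, h⟩ := hTB.1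
  have h' : ∀ (A : Type) [Finite A] [Nonempty A] (P : ℕ → A → Prop)
      (R : ℕ → A → A → Prop), (∀ e V, Ψ.Sat P R e V) ↔ TreeBlowUp (R 0) := fun A _ _ P R =>
    (h A P R).trans (hTA A (R 0)).symm
  refine ⟨Ψ, hΨ, h', fun L hL => ?_⟩
  obtain ⟨φ, p, hp⟩ := t_cf.2.2.2 L hL
  refine ⟨φ, p, fun k hk => ?_⟩
  have e : specWM k 1 Ψ φ = specTB φ := by
    ext n
    refine and_congr_right fun hn => exists_congr fun P => exists_congr fun R => ?_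
    haveI : Nonempty (Fin n) := ⟨⟨0, hn⟩⟩
    constructor
    · rintro ⟨-, h1, h2⟩
      exact ⟨(h' (Fin n) P R).1 h1, h2⟩
    · rintro ⟨h1, h2⟩
      exact ⟨hK.1 2 k 1 hk (Fin n) R (hW (Fin n) R h1), (h' (Fin n) P R).2 h1, h2⟩
  rw [e]
  exact hp

/-- `NLIN` is carried by the structures of linear NLC-width at most `k`, for every `k ≥ 3` -/
theorem hard_lm (hPA : T_PDA) (hTB : T_TDB) (hK : T_NMK) :
    ∃ Ψ : MS, Ψ.Below 1 ∧ (∀ (A : Type) [Finite A] [Nonempty A] (P : ℕ → A → Prop)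
        (R : ℕ → A → A → Prop), (∀ e V, Ψ.Sat P R e V) ↔ PathBlowUp (R 0)) ∧
      ∀ L ∈ NLIN, ∃ (φ : C2) (p : Polynomial ℤ), ∀ k ≥ 3, ∀ x : List Bool, ∃ y : List Bool,
        (num y : ℤ) = p.eval (num x : ℤ) ∧ (x ∈ L ↔ y ∈ lang (specLM k 1 Ψ φ)) := by
  obtain ⟨Ψ, hΨ, h⟩ := hTB.2
  have h' : ∀ (A : Type) [Finite A] [Nonempty A] (P : ℕ → A → Prop)
      (R : ℕ → A → A → Prop), (∀ e V, Ψ.Sat P R e V) ↔ PathBlowUp (R 0) := fun A _ _ P R =>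
    (h A P R).trans (hPA A (R 0)).symm
  refine ⟨Ψ, hΨ, h', fun L hL => ?_⟩
  obtain ⟨φ, p, hp⟩ := t_cs.2.2 L hL
  refine ⟨φ, p, fun k hk => ?_⟩
  have e : specLM k 1 Ψ φ = specPB φ := by
    ext n
    refine and_congr_right fun hn => exists_congr fun P => exists_congr fun R => ?_
    haveI : Nonempty (Fin n) := ⟨⟨0, hn⟩⟩
    constructor
    · rintro ⟨-, h1, h2⟩
      exact ⟨(h' (Fin n) P R).1 h1, h2⟩
    · rintro ⟨h1, h2⟩
      exact ⟨hK.2 3 k 1 hk (Fin n) R (pb_lnlc (Fin n) R h1), (h' (Fin n) P R).2 h1, h2⟩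
  rw [e]
  exact hp

end Pool.Agent.H46.CH
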