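import Pool.Agent.H46.CH.Defs
import Pool.Agent.H8.VR.Cor

/-!
# Alternating machines with small trees, and two-variable logic with counting over blow-ups of trees
-/

set_option autoImplicit false

namespace Pool.Agent.H46.CH

open Pool.Agent.H8.JS Pool.Agent.H8.VR Pool.Agent.H69.VR

/-- Alternating machines are nondeterministic machines with a map `br`: in the state `q` with
`br q = some (q₁, q₂)` the machine branches, it continues with `q₁` and with `q₂`. `ATr M br c z`: there
is an accepting tree of size `z` for the configuration `c`. -/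
inductive ATr (M : NTM) (br : M.Q → Option (M.Q × M.Q)) : Cfg M → ℕ → Prop
  | acc (c : Cfg M) (h : c.q = M.acc) : ATr M br c 1
  | ex (c c' : Cfg M) (z : ℕ) (h : br c.q = none) (h' : Step M c c') (ht : ATr M br c' z) :
      ATr M br c (z + 1)
  | all (c : Cfg M) (q₁ q₂ : M.Q) (z₁ z₂ : ℕ) (h : br c.q = some (q₁, q₂))
      (h₁ : ATr M br { c with q := q₁ } z₁) (h₂ : ATr M br { c with q := q₂ } z₂) :
      ATr M br c (z₁ + z₂ + 1)

/-- the configurations which are reached on the input `x` -/
inductive ARch (M : NTM) (br : M.Q → Option (M.Q × M.Q)) (x : List Bool) : Cfg M → Prop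
  | ini : ARch M br x (init M x)
  | ex (c c' : Cfg M) (h : ARch M br x c) (hb : br c.q = none) (h' : Step M c c') :
      ARch M br x c'
  | left (c : Cfg M) (q₁ q₂ : M.Q) (h : ARch M br x c) (hb : br c.q = some (q₁, q₂)) :
      ARch M br x { c with q := q₁ }
  | right (c : Cfg M) (q₁ q₂ : M.Q) (h : ARch M br x c) (hb : br c.q = some (q₁, q₂)) :
      ARch M br x { c with q := q₂ }

/-- The languages accepted by alternating machines in space `s n` with accepting trees of size at most
`t n`, for the inputs of length `n`. -/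
def ATS (s t : ℕ → ℕ) : Set (Set (List Bool)) :=
  {L | ∃ (M : NTM) (br : M.Q → Option (M.Q × M.Q)), ∀ x,
    (∀ c, ARch M br x c → ∀ j, c.hd j < s x.length) ∧ (x ∈ L ↔ ∃ z, ATr M br (init M x) z) ∧
    (x ∈ L → ∃ z ≤ t x.length, ATr M br (init M x) z)}

/-- The analogue of `LOGCFL` with a linear exponent: alternating linear space and accepting trees of
size `2 ^ O(n)`. -/
def LCF : Set (Set (List Bool)) :=
  {L | ∃ c, L ∈ ATS (fun n => c * (n + 1)) (fun n => 2 ^ (c * (n + 1)))}

/-- `R` is the blow-up of a rooted tree: the elements are distributed over nonempty blocks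
`0, …, T`, the block `i > 0` has the parent `p i < i`, and `R x y` holds iff the block of `y` is the
block of `x` or one of its children. -/
def TreeBlowUp {A : Type} (R : A → A → Prop) : Prop :=
  ∃ (T : ℕ) (b : A → ℕ) (p : ℕ → ℕ), (∀ i, (∃ x, b x = i) ↔ i ≤ T) ∧ (∀ i, 0 < i → p i < i) ∧
    ∀ x y, (R x y ↔ b y = b x ∨ (0 < b y ∧ p (b y) = b x))

/-- The sizes of the models of `φ` in which `R 0` is the blow-up of a rooted tree. -/
def specTB (φ : C2) : Set ℕ :=
  {n | 0 < n ∧ ∃ (P : ℕ → Fin n → Prop) (R : ℕ → Fin n → Fin n → Prop), TreeBlowUp (R 0) ∧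
    ∀ v : Bool → Fin n, φ.Sat P R v}

/-- The context-free level: over structures generated by a grammar, in particular of bounded NLC-width,
all languages are in `LCF`, and blow-ups of trees carry all of `LCF`. -/
def T_CF : Prop :=
  (∀ (N Q : Type) [Finite N] [Finite Q] (G : Gram N Q), (∀ o ∈ G.ops, o.D = {n | 0 < n}) →
    ∀ (m : ℕ) (s₀ : N) (Ψ : MS) (φ : C2), Ψ.Below m → lang (specM G m s₀ Ψ φ) ∈ LCF) ∧
  (∀ (k m : ℕ) (Ψ : MS) (φ : C2), Ψ.Below m → lang (specWM k m Ψ φ) ∈ LCF) ∧
  (∀ φ : C2, lang (specTB φ) ∈ LCF) ∧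
  ∀ L ∈ LCF, ∃ (φ : C2) (p : Polynomial ℤ), ∀ x : List Bool, ∃ y : List Bool,
    (num y : ℤ) = p.eval (num x : ℤ) ∧ (x ∈ L ↔ y ∈ lang (specTB φ))

end Pool.Agent.H46.CH
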