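import Pool.Agent.H46.CH.Defs
import Pool.Agent.H8.JS.Sys

/-!
# The lower bound: path blow-ups carry nondeterministic linear space
-/

set_option autoImplicit false

namespace Pool.Agent.H46.CH

open Classical
open Pool.Agent.H8.VR (C2)
open Pool.Agent.H8.JS (NTM Cfg Mv IsComp lang num)

/-! ### local conditions -/

/-- the truth values of `R 0`, `R 1`, `R 2` at the pair `(x, y)` -/
def bt {A : Type} (R : ℕ → A → A → Prop) (x y : A) : Fin 3 → Prop := fun i => R i x y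

/-- Local conditions for labelled structures: `ok` for the labels, `pr` for the pairs of different
elements, and `ct` for the numbers of the partners: for `(D, k, true)` the number of the partners with
`D` is `k`, for `(D, k, false)` it is at least `k`. -/
structure Loc (Λ : Type) where
  ok : Λ → Prop
  pr : Λ → Λ → (Fin 3 → Prop) → (Fin 3 → Prop) → Prop
  ct : Λ → List ((Λ → (Fin 3 → Prop) → (Fin 3 → Prop) → Prop) × ℕ × Bool)

/-- the number of the partners of `x` with `D` -/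
noncomputable def pn {Λ A : Type} (lab : A → Λ) (R : ℕ → A → A → Prop)
    (D : Λ → (Fin 3 → Prop) → (Fin 3 → Prop) → Prop) (x : A) : ℕ :=
  {y | y ≠ x ∧ D (lab y) (bt R x y) (bt R y x)}.ncard

/-- the local conditions are satisfied -/
def Loc.Sat {Λ A : Type} (D : Loc Λ) (lab : A → Λ) (R : ℕ → A → A → Prop) : Prop :=
  (∀ x, D.ok (lab x)) ∧ (∀ x y, x ≠ y → D.pr (lab x) (lab y) (bt R x y) (bt R y x)) ∧
    ∀ x, ∀ p ∈ D.ct (lab x), if p.2.2 = true then pn lab R p.1 x = p.2.1 else p.2.1 ≤ pn lab R p.1 x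

/-- `P` marks the labels -/
def Mk {Λ A : Type} (ix : Λ → ℕ) (P : ℕ → A → Prop) (lab : A → Λ) : Prop :=
  ∀ x l, P (ix l) x ↔ l = lab x

/-- quantifier-free conditions are expressed by formulas, and so are the numbers of the partners -/
def T_LOB : Prop := ∀ (Λ : Type) [Finite Λ] (ix : Λ → ℕ), Function.Injective ix →
  (∀ E : Λ → Λ → (Fin 3 → Prop) → (Fin 3 → Prop) → Prop, ∃ ψ : C2, ∀ (A : Type)
    (P : ℕ → A → Prop) (R : ℕ → A → A → Prop) (lab : A → Λ), Mk ix P lab → ∀ v : Bool → A,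
      (ψ.Sat P R v ↔ E (lab (v false)) (lab (v true)) (bt R (v false) (v true))
        (bt R (v true) (v false)))) ∧
  ∃ ψ : C2, ∀ (A : Type) (P : ℕ → A → Prop) (R : ℕ → A → A → Prop) (v : Bool → A),
    (ψ.Sat P R v ↔ ∃ l, ∀ l', P (ix l') (v false) ↔ l' = l)

/-- local conditions are expressed by formulas -/
def T_LOC : Prop := ∀ (Λ : Type) [Finite Λ] (D : Loc Λ), ∃ φ : C2, ∀ (A : Type) [Finite A]
  (R : ℕ → A → A → Prop),
    (∃ P : ℕ → A → Prop, ∀ v : Bool → A, φ.Sat P R v) ↔ ∃ lab : A → Λ, D.Sat lab R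

/-! ### machines with counters -/

/-- A machine with counters: the instruction `e` relates the vectors `v` and `v'` before and after it
by `v' = c + A v` (if `dir e = true`) or by `v = c + A v'`; `nx` says which instructions may follow,
`st` is the stage. -/
structure AM (J : Type) where
  I : Type
  finI : Finite I
  nx : I → I → Prop
  ini : I → Prop
  fi : I → Prop
  dir : I → Bool
  A : I → J → J → ℕ
  c : I → J → ℕ
  st : I → Bool

section
variable {J : Type} [Fintype J]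

/-- the effect of an instruction -/
def AM.Rel (M : AM J) (e : M.I) (v v' : J → ℕ) : Prop :=
  if M.dir e = true then ∀ j, v' j = M.c e j + ∑ k, M.A e j k * v k
  else ∀ j, v j = M.c e j + ∑ k, M.A e j k * v' k

/-- `T` instructions, from the vector `0` to the vector `0` -/
structure AM.Run (M : AM J) (T : ℕ) (e : ℕ → M.I) (v : ℕ → J → ℕ) : Prop where
  pos : 0 < T
  ini : M.ini (e 0)
  fi : M.fi (e (T - 1))
  nx : ∀ t, t + 1 < T → M.nx (e t) (e (t + 1))
  rel : ∀ t < T, M.Rel (e t) (v t) (v (t + 1))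
  zero : ∀ j, v 0 j = 0
  zero' : ∀ j, v T j = 0

/-- the stage of the block `t` -/
def AM.stg (M : AM J) (T : ℕ) (e : ℕ → M.I) (t : ℕ) : Bool := if t < T then M.st (e t) else true

/-- the size of a stage: a block with the vector `v` has `1 + ∑ v j` elements -/
def AM.sz (M : AM J) (T : ℕ) (e : ℕ → M.I) (v : ℕ → J → ℕ) (b : Bool) : ℕ :=
  ∑ t ∈ Finset.range (T + 1), if M.stg T e t = b then 1 + ∑ j, v t j else 0

/-- the sizes of the runs whose stages have the same size -/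
def AM.Num (M : AM J) : Set ℕ :=
  {n | ∃ T e v, M.Run T e v ∧ M.sz T e v false = M.sz T e v true ∧
    n = M.sz T e v false + M.sz T e v true}

/-- the labels: the instruction before the block, the instruction after the block, and the counter or
`none` for the head of the block -/
abbrev AM.Lb (M : AM J) : Type := Option M.I × Option M.I × Option J

/-- the stage of a label -/
def AM.stl (M : AM J) (l : M.Lb) : Bool := match l.2.1 with
  | some i => M.st i
  | none => true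

/-- the conditions for the outgoing edges -/
noncomputable def AM.outc (M : AM J) (l : M.Lb) :
    List ((M.Lb → (Fin 3 → Prop) → (Fin 3 → Prop) → Prop) × ℕ × Bool) := match l.2.1 with
  | none => [(fun _ a _ => a 1, 0, true)]
  | some i => if M.dir i = true then
      (fun l' a _ => a 1 ∧ l'.2.2 = none, 0, true) ::
        (Finset.univ : Finset J).toList.map fun j => (fun l' a _ => a 1 ∧ l'.2.2 = some j,
          (match l.2.2 with | some k => M.A i j k | none => M.c i j), true)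
    else [(fun _ a _ => a 1, if l.2.2 = none then 0 else 1, true)]

/-- the conditions for the incoming edges -/
noncomputable def AM.inc (M : AM J) (l : M.Lb) :
    List ((M.Lb → (Fin 3 → Prop) → (Fin 3 → Prop) → Prop) × ℕ × Bool) := match l.1 with
  | none => [(fun _ _ b => b 1, 0, true)]
  | some i => if M.dir i = true then [(fun _ _ b => b 1, if l.2.2 = none then 0 else 1, true)]
    else (fun l' _ b => b 1 ∧ l'.2.2 = none, 0, true) ::
      (Finset.univ : Finset J).toList.map fun j => (fun l' _ b => b 1 ∧ l'.2.2 = some j,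
        (match l.2.2 with | some k => M.A i j k | none => M.c i j), true)

/-- the local conditions for the runs: `R 0` is the blow-up of a path, `R 1` are the edges between the
blocks -/
noncomputable def AM.lc (M : AM J) : Loc M.Lb where
  ok l := (l.1 = none → l.2.2 = none ∧ ∃ i, l.2.1 = some i ∧ M.ini i) ∧
    (l.2.1 = none → l.2.2 = none ∧ ∃ i, l.1 = some i ∧ M.fi i)
  pr l l' a b := (a 0 → b 0 → l.1 = l'.1 ∧ l.2.1 = l'.2.1) ∧
    (a 0 → ¬ b 0 → ∃ i, l.2.1 = some i ∧ l'.1 = some i ∧ ∀ i', l'.2.1 = some i' → M.nx i i') ∧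
    (a 1 → a 0 ∧ ¬ b 0 ∧ ¬ (l.2.2 = none ∧ l'.2.2 = none))
  ct l := [(fun l' a b => a 0 ∧ b 0 ∧ l'.2.2 = none, if l.2.2 = none then 0 else 1, true),
      (fun _ a b => a 0 ∧ ¬ b 0, if l.2.1 = none then 0 else 1, if l.2.1 = none then true else false),
      (fun _ a b => b 0 ∧ ¬ a 0, if l.1 = none then 0 else 1, if l.1 = none then true else false)] ++
    M.outc l ++ M.inc l

/-- the local conditions for the runs whose stages have the same size: `R 2` is a matching of the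
stages -/
noncomputable def AM.loc (M : AM J) : Loc M.Lb where
  ok := M.lc.ok
  pr l l' a b := M.lc.pr l l' a b ∧ (a 2 → M.stl l = false ∧ M.stl l' = true)
  ct l := [(fun _ a _ => a 2, if M.stl l = true then 0 else 1, true),
      (fun _ _ b => b 2, if M.stl l = true then 1 else 0, true)] ++ M.lc.ct l

/-- `M.Path e v e' v' s`: from the block with instruction `e` and vector `v` to the block with
instruction `e'` and vector `v'`; `s` is the size of all blocks before the last one -/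
inductive AM.Path (M : AM J) : M.I → (J → ℕ) → M.I → (J → ℕ) → ℕ → Prop
  | nil (e : M.I) (v : J → ℕ) : AM.Path M e v e v 0
  | snoc (e : M.I) (v : J → ℕ) (e₁ : M.I) (v₁ : J → ℕ) (e₂ : M.I) (v₂ : J → ℕ) (s : ℕ)
      (h : AM.Path M e v e₁ v₁ s) (hr : M.Rel e₁ v₁ v₂) (hn : M.nx e₁ e₂) :
      AM.Path M e v e₂ v₂ (s + (1 + ∑ j, v₁ j))

end

/-- paths as sequences -/
def T_PQ : Prop := ∀ (J : Type) [Fintype J] (M : AM J) (e : M.I) (v : J → ℕ) (e' : M.I)
  (v' : J → ℕ) (s : ℕ), M.Path e v e' v' s ↔ ∃ (T : ℕ) (es : ℕ → M.I) (vs : ℕ → J → ℕ),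
    es 0 = e ∧ vs 0 = v ∧ es T = e' ∧ vs T = v' ∧
    (∀ t < T, M.Rel (es t) (vs t) (vs (t + 1)) ∧ M.nx (es t) (es (t + 1))) ∧
    s = ∑ t ∈ Finset.range T, (1 + ∑ j, vs t j)

/-- star forests between two blocks -/
def T_EX : Prop := ∀ (J : Type) [Fintype J] (v v' : J → ℕ) (A : J → J → ℕ) (c : J → ℕ),
  (∀ j, v' j = c j + ∑ k, A j k * v k) →
    ∃ f : (Σ j, Fin (v' j)) → Option (Σ k, Fin (v k)), ∀ (x : Option (Σ k, Fin (v k))) (j : J),
      {i : Fin (v' j) | f ⟨j, i⟩ = x}.ncard = (match x with | some k => A j k.1 | none => c j)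

/-- transport of labelled structures along a bijection -/
def T_TP : Prop := ∀ (Λ A B : Type) (D : Loc Λ) (e : A ≃ B) (lab : A → Λ) (R : ℕ → A → A → Prop),
  (PathBlowUp (R 0) → PathBlowUp (fun x y => R 0 (e.symm x) (e.symm y))) ∧
  (D.Sat lab R → D.Sat (fun x => lab (e.symm x)) (fun i x y => R i (e.symm x) (e.symm y)))

/-- the matching of the stages -/
def T_MT : Prop := ∀ (J : Type) [Fintype J] (M : AM J) (A : Type) [Finite A]
  (R : ℕ → A → A → Prop) (lab : A → M.Lb),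
  (M.loc.Sat lab R → M.lc.Sat lab R ∧
    {x | M.stl (lab x) = false}.ncard = {x | M.stl (lab x) = true}.ncard) ∧
  (M.lc.Sat lab R → {x | M.stl (lab x) = false}.ncard = {x | M.stl (lab x) = true}.ncard →
    ∃ R' : ℕ → A → A → Prop, R' 0 = R 0 ∧ M.loc.Sat lab R')

/-- from runs to structures, without the matching -/
def T_CR : Prop := ∀ (J : Type) [Fintype J] (M : AM J) (T : ℕ) (e : ℕ → M.I) (v : ℕ → J → ℕ),
  M.Run T e v → ∃ (A : Type) (_ : Finite A) (R : ℕ → A → A → Prop) (lab : A → M.Lb),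
    PathBlowUp (R 0) ∧ M.lc.Sat lab R ∧
      ∀ b, {x | M.stl (lab x) = b}.ncard = M.sz T e v b

/-- from runs to structures -/
def T_CA : Prop := ∀ (J : Type) [Fintype J] (M : AM J) (n : ℕ), n ∈ M.Num →
  ∃ (R : ℕ → Fin n → Fin n → Prop) (lab : Fin n → M.Lb), PathBlowUp (R 0) ∧ M.loc.Sat lab R

/-- the blocks of a structure: labels -/
def T_B1 : Prop := ∀ (J : Type) [Fintype J] (M : AM J) (A : Type) [Finite A]
  (R : ℕ → A → A → Prop) (lab : A → M.Lb) (T : ℕ) (b : A → ℕ),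
  (∀ i, (∃ x, b x = i) ↔ i ≤ T) → (∀ x y, (R 0 x y ↔ b x ≤ b y ∧ b y ≤ b x + 1)) →
  M.lc.Sat lab R → 0 < T ∧ ∃ e : ℕ → M.I, M.ini (e 0) ∧ M.fi (e (T - 1)) ∧
    (∀ t, t + 1 < T → M.nx (e t) (e (t + 1))) ∧
    (∀ x, (lab x).1 = if b x = 0 then none else some (e (b x - 1))) ∧
    (∀ x, (lab x).2.1 = if b x = T then none else some (e (b x))) ∧
    ∀ t ≤ T, {x | b x = t ∧ (lab x).2.2 = none}.ncard = 1

/-- the edges of a structure -/
def T_B2 : Prop := ∀ (J : Type) [Fintype J] (M : AM J) (A : Type) [Finite A]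
  (R : ℕ → A → A → Prop) (lab : A → M.Lb) (T : ℕ) (b : A → ℕ) (e : ℕ → M.I),
  (∀ x y, (R 0 x y ↔ b x ≤ b y ∧ b y ≤ b x + 1)) → M.lc.Sat lab R →
  (∀ x, (lab x).1 = if b x = 0 then none else some (e (b x - 1))) →
  (∀ x, (lab x).2.1 = if b x = T then none else some (e (b x))) →
  (∀ t ≤ T, {x | b x = t ∧ (lab x).2.2 = none}.ncard = 1) → ∀ t < T,
    M.Rel (e t) (fun j => {x | b x = t ∧ (lab x).2.2 = some j}.ncard)
      (fun j => {x | b x = t + 1 ∧ (lab x).2.2 = some j}.ncard)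

/-- from structures to runs -/
def T_CB : Prop := ∀ (J : Type) [Fintype J] (M : AM J) (n : ℕ) (R : ℕ → Fin n → Fin n → Prop)
  (lab : Fin n → M.Lb), PathBlowUp (R 0) → M.loc.Sat lab R → n ∈ M.Num

/-- every machine with counters is expressed by a formula -/
def T_CC : Prop := ∀ (J : Type) [Fintype J] (M : AM J), ∃ φ : C2, specPB φ = M.Num

/-! ### from Turing machines to machines with counters -/

/-- the tape symbols -/
abbrev TS (M : NTM) : Type := Pool.Agent.H8.JS.Sym M.Γ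

/-- the counters: the left and the right part of every tape, the number of the word, a power of two, a
counter which is `0`, a free counter, and the digits of a clock and their complements -/
inductive Ct (k d : ℕ) : Type
  | lf (j : Fin (k + 1)) : Ct k d
  | rt (j : Fin (k + 1)) : Ct k d
  | N : Ct k d
  | P : Ct k d
  | Z : Ct k d
  | D : Ct k d
  | u (i : Fin d) : Ct k d
  | w (i : Fin d) : Ct k d
  deriving DecidableEq, Fintype

/-- transitions: old state, symbols, new state, new symbols, moves, symbols to the left of the heads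
which move to the left (`none` for the first cell) -/
abbrev Tr (M : NTM) : Type :=
  M.Q × (Fin (M.k + 1) → TS M) × M.Q × (Fin (M.k + 1) → TS M) × (Fin (M.k + 1) → Mv) ×
    (Fin (M.k + 1) → Option (TS M))

/-- the transition is possible -/
def Tr.ok {M : NTM} (τ : Tr M) : Prop :=
  M.δ τ.1 τ.2.1 τ.2.2.1 τ.2.2.2.1 τ.2.2.2.2.1 ∧ ∀ j, τ.2.2.2.2.2 j ≠ none → τ.2.2.2.2.1 j = .L

/-- the instructions -/
inductive Ins (M : NTM) (d : ℕ) : Type
  | start : Ins M d
  | load (b : Bool) : Ins M d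
  | endl : Ins M d
  | pop (τ : Tr M) : Ins M d
  | push (τ : Tr M) : Ins M d
  | clear : Ins M d
  | pad : Ins M d
  | begB : Ins M d
  | ipop (i : Fin d) : Ins M d
  | ipush (i : Fin d) : Ins M d
  | fpop : Ins M d
  | fpush : Ins M d

instance : Finite Mv := by
  refine Finite.of_injective (β := Fin 3) (fun q => match q with
    | .L => 0
    | .S => 1
    | .R => 2) ?_
  intro a b h
  cases a <;> cases b <;> simp_all

theorem Tr.finite (M : NTM) : Finite (Tr M) := by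
  have := M.finQ
  have := M.finΓ
  infer_instance

theorem Ins.finite (M : NTM) (d : ℕ) : Finite (Ins M d) := by
  have := Tr.finite M
  refine Finite.of_injective (β := (Fin 7 ⊕ Bool) ⊕ ((Tr M ⊕ Tr M) ⊕ (Fin d ⊕ Fin d)))
    (fun q => match q with
    | .start => .inl (.inl 0)
    | .load b => .inl (.inr b)
    | .endl => .inl (.inl 1)
    | .pop τ => .inr (.inl (.inl τ))
    | .push τ => .inr (.inl (.inr τ))
    | .clear => .inl (.inl 2)
    | .pad => .inl (.inl 3)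
    | .begB => .inl (.inl 4)
    | .ipop i => .inr (.inr (.inl i))
    | .ipush i => .inr (.inr (.inr i))
    | .fpop => .inl (.inl 5)
    | .fpush => .inl (.inl 6)) ?_
  intro a b h
  cases a <;> cases b <;> simp_all

/-- which instruction may follow -/
def Ins.nx {M : NTM} {d : ℕ} : Ins M d → Ins M d → Prop
  | .start, .load _ => True
  | .start, .endl => True
  | .load _, .load _ => True
  | .load _, .endl => True
  | .endl, .pop τ => τ.1 = M.start ∧ Tr.ok τ
  | .endl, .clear => M.start = M.acc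
  | .pop τ, .push τ' => τ = τ'
  | .push τ, .pop τ' => τ'.1 = τ.2.2.1 ∧ Tr.ok τ'
  | .push τ, .clear => τ.2.2.1 = M.acc
  | .clear, .pad => True
  | .pad, .begB => True
  | .begB, .ipop _ => True
  | .begB, .fpop => True
  | .ipop i, .ipush i' => i = i'
  | .ipush _, .ipop _ => True
  | .ipush _, .fpop => True
  | .fpop, .fpush => True
  | _, _ => False

/-- the direction: `false` for `pop`, `pad`, `ipop`, `fpop` -/
def Ins.dir {M : NTM} {d : ℕ} : Ins M d → Bool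
  | .pop _ => false
  | .pad => false
  | .ipop _ => false
  | .fpop => false
  | _ => true

/-- the stage -/
def Ins.st {M : NTM} {d : ℕ} : Ins M d → Bool
  | .ipop _ => true
  | .ipush _ => true
  | .fpop => true
  | .fpush => true
  | _ => false

/-- the constants; `B` is the base, `cd` the code of the symbols -/
noncomputable def Ins.c {M : NTM} {d : ℕ} (B : ℕ) (cd : TS M → ℕ) : Ins M d → Ct M.k d → ℕ
  | .start, .P => 1
  | .load b, .rt j => if j = 0 then cd (.bit b) else 0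
  | .pop τ, .rt j => cd (τ.2.1 j)
  | .pop τ, .lf j => match τ.2.2.2.2.2 j with
    | some t => cd t + 1
    | none => 0
  | .push τ, .lf j => if τ.2.2.2.2.1 j = .R then cd (τ.2.2.2.1 j) + 1 else 0
  | .push τ, .rt j => if τ.2.2.2.2.1 j = .R then 0 else match τ.2.2.2.2.2 j with
    | some t => cd t + B * cd (τ.2.2.2.1 j)
    | none => cd (τ.2.2.2.1 j)
  | .ipop i, .w l => if l = i then 1 else 0
  | .ipush i, .u l => if l = i then 1 else 0
  | _, _ => 0

/-- one or zero -/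
noncomputable def dl (p : Prop) : ℕ := if p then 1 else 0

/-- the matrices -/
noncomputable def Ins.A {M : NTM} {d : ℕ} (B : ℕ) : Ins M d → Ct M.k d → Ct M.k d → ℕ
  | .start, _, _ => 0
  | .load _, .P, k => 2 * dl (k = .P)
  | .load b, .N, k => dl (k = .N) + b.toNat * dl (k = .P)
  | .load _, .rt j, k => (if j = 0 then B else 1) * dl (k = .rt j)
  | .load _, j, k => dl (k = j)
  | .endl, .P, _ => 0
  | .endl, .N, k => dl (k = .N) + dl (k = .P)
  | .endl, j, k => dl (k = j)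
  | .pop _, .rt j, k => B * dl (k = .rt j)
  | .pop τ, .lf j, k => (if τ.2.2.2.2.2 j = none then 1 else B) * dl (k = .lf j)
  | .pop τ, .Z, k => dl (k = .Z) +
      dl (∃ j, k = .lf j ∧ τ.2.2.2.2.1 j = .L ∧ τ.2.2.2.2.2 j = none)
  | .pop _, j, k => dl (k = j)
  | .push τ, .lf j, k => (if τ.2.2.2.2.1 j = .R then B else 1) * dl (k = .lf j)
  | .push τ, .rt j, k => (if τ.2.2.2.2.1 j = .R then 1 else
      if τ.2.2.2.2.2 j = none then B else B * B) * dl (k = .rt j)
  | .push _, j, k => dl (k = j)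
  | .clear, j, k => dl (j = .N ∧ k = .N)
  | .pad, j, k => dl (j ≠ .D ∧ k = j)
  | .begB, .w _, k => dl (k = .N)
  | .begB, _, _ => 0
  | .ipop i, .Z, k => dl (k = .Z) + dl (∃ l, k = .w l ∧ l < i)
  | .ipop _, j, k => dl (k = j)
  | .ipush i, .u l, k => dl (k = .u l ∧ i ≤ l)
  | .ipush i, .w l, k => dl (k = .w l) + dl (k = .u l ∧ l < i)
  | .ipush _, j, k => dl (k = j)
  | .fpop, .Z, k => dl (k = .Z) + dl (∃ l, k = .w l)
  | .fpop, j, k => dl (k = j)
  | .fpush, _, _ => 0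

/-- the machine with counters for a Turing machine -/
noncomputable def tmA (M : NTM) (B : ℕ) (cd : TS M → ℕ) (d : ℕ) : AM (Ct M.k d) where
  I := Ins M d
  finI := Ins.finite M d
  nx := Ins.nx
  ini e := e = .start
  fi e := e = .fpush
  dir := Ins.dir
  A := Ins.A B
  c := Ins.c B cd
  st := Ins.st

/-- `B` is a base for the code `cd` -/
structure Code (M : NTM) (B : ℕ) (cd : TS M → ℕ) : Prop where
  bl : cd .bl = 0
  inj : Function.Injective cd
  lt : ∀ a, cd a + 1 < B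

/-- `r` is the number of the tape inscription `f` -/
def Cod {M : NTM} (B : ℕ) (cd : TS M → ℕ) (f : ℕ → TS M) (r : ℕ) : Prop :=
  ∃ s, (∀ i ≥ s, f i = .bl) ∧ r = ∑ i ∈ Finset.range s, cd (f i) * B ^ i

/-- `v` is the vector of the configuration `c`, the counter `N` is `n` -/
def VC {M : NTM} {d : ℕ} (B : ℕ) (cd : TS M → ℕ) (n : ℕ) (c : Cfg M) (v : Ct M.k d → ℕ) : Prop :=
  (∀ j, v (.lf j) = ∑ i ∈ Finset.range (c.hd j), (cd (c.tp j (c.hd j - 1 - i)) + 1) * B ^ i) ∧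
  (∀ j, Cod B cd (fun i => c.tp j (c.hd j + i)) (v (.rt j))) ∧ v .N = n ∧ v .P = 0 ∧ v .Z = 0 ∧
  v .D = 0 ∧ (∀ i, v (.u i) = 0) ∧ ∀ i, v (.w i) = 0

/-- codes exist -/
def T_CD : Prop := ∀ M : NTM, ∃ (B : ℕ) (cd : TS M → ℕ), Code M B cd

/-- the code of a tape inscription -/
def T_CO : Prop := ∀ (M : NTM) (B : ℕ) (cd : TS M → ℕ), Code M B cd →
  (∀ (f : ℕ → TS M) (r r' : ℕ), Cod B cd f r → Cod B cd f r' → r = r') ∧
  (∀ (f : ℕ → TS M) (r : ℕ), Cod B cd f r ↔ ∃ r', r = cd (f 0) + B * r' ∧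
    Cod B cd (fun i => f (i + 1)) r') ∧
  (∀ (a b : TS M) (r r' : ℕ), cd a + B * r = cd b + B * r' → a = b ∧ r = r') ∧
  ∀ (a b : TS M) (r r' : ℕ), cd a + 1 + B * r = cd b + 1 + B * r' → a = b ∧ r = r'

/-- what the instructions do: first part -/
def T_IR : Prop := ∀ (M : NTM) (B : ℕ) (cd : TS M → ℕ) (d : ℕ) (v v' : Ct M.k d → ℕ),
  ((tmA M B cd d).Rel .start v v' ↔ ∀ j, v' j = dl (j = .P)) ∧
  (∀ b, (tmA M B cd d).Rel (.load b) v v' ↔ v' .P = 2 * v .P ∧ v' .N = v .N + b.toNat * v .P ∧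
    v' (.rt 0) = cd (.bit b) + B * v (.rt 0) ∧ (∀ j ≠ 0, v' (.rt j) = v (.rt j)) ∧
    (∀ j, v' (.lf j) = v (.lf j)) ∧ v' .Z = v .Z ∧ v' .D = v .D ∧ (∀ i, v' (.u i) = v (.u i)) ∧
    ∀ i, v' (.w i) = v (.w i)) ∧
  ((tmA M B cd d).Rel .endl v v' ↔ v' .P = 0 ∧ v' .N = v .N + v .P ∧
    ∀ j, j ≠ .P → j ≠ .N → v' j = v j) ∧
  ((tmA M B cd d).Rel .clear v v' ↔ ∀ j, v' j = if j = .N then v .N else 0) ∧
  ((tmA M B cd d).Rel .pad v v' ↔ v .D = 0 ∧ ∀ j, j ≠ .D → v j = v' j) ∧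
  ((tmA M B cd d).Rel .begB v v' ↔ ∀ j, v' j = match j with
    | .w _ => v .N
    | _ => 0) ∧
  ((tmA M B cd d).Rel .fpop v v' ↔ v .Z = v' .Z + (∑ l, v' (.w l)) ∧ ∀ j, j ≠ .Z → v j = v' j) ∧
  ((tmA M B cd d).Rel .fpush v v' ↔ ∀ j, v' j = 0)

/-- what the instructions do: second part -/
def T_IS : Prop := ∀ (M : NTM) (B : ℕ) (cd : TS M → ℕ) (d : ℕ) (v v' : Ct M.k d → ℕ),
  (∀ τ, (tmA M B cd d).Rel (.pop τ) v v' ↔ (∀ j, v (.rt j) = cd (τ.2.1 j) + B * v' (.rt j)) ∧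
    (∀ j, v (.lf j) = match τ.2.2.2.2.2 j with
      | some t => cd t + 1 + B * v' (.lf j)
      | none => v' (.lf j)) ∧
    v .Z = v' .Z + (∑ j, if τ.2.2.2.2.1 j = .L ∧ τ.2.2.2.2.2 j = none then v' (.lf j) else 0) ∧
    v .N = v' .N ∧ v .P = v' .P ∧ v .D = v' .D ∧ (∀ i, v (.u i) = v' (.u i)) ∧
    ∀ i, v (.w i) = v' (.w i)) ∧
  (∀ τ, (tmA M B cd d).Rel (.push τ) v v' ↔
    (∀ j, v' (.lf j) = if τ.2.2.2.2.1 j = .R then cd (τ.2.2.2.1 j) + 1 + B * v (.lf j)
      else v (.lf j)) ∧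
    (∀ j, v' (.rt j) = if τ.2.2.2.2.1 j = .R then v (.rt j) else match τ.2.2.2.2.2 j with
      | some t => cd t + B * cd (τ.2.2.2.1 j) + B * B * v (.rt j)
      | none => cd (τ.2.2.2.1 j) + B * v (.rt j)) ∧
    v' .Z = v .Z ∧ v' .N = v .N ∧ v' .P = v .P ∧ v' .D = v .D ∧ (∀ i, v' (.u i) = v (.u i)) ∧
    ∀ i, v' (.w i) = v (.w i)) ∧
  (∀ i, (tmA M B cd d).Rel (.ipop i) v v' ↔ (∀ l, v (.w l) = v' (.w l) + dl (l = i)) ∧
    v .Z = v' .Z + (∑ l, if l < i then v' (.w l) else 0) ∧ (∀ l, v (.u l) = v' (.u l)) ∧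
    v .N = v' .N ∧ v .P = v' .P ∧ v .D = v' .D ∧ (∀ j, v (.lf j) = v' (.lf j)) ∧
    ∀ j, v (.rt j) = v' (.rt j)) ∧
  ∀ i, (tmA M B cd d).Rel (.ipush i) v v' ↔
    (∀ l, v' (.u l) = if l < i then 0 else v (.u l) + dl (l = i)) ∧
    (∀ l, v' (.w l) = v (.w l) + if l < i then v (.u l) else 0) ∧ v' .Z = v .Z ∧
    v' .N = v .N ∧ v' .P = v .P ∧ v' .D = v .D ∧ (∀ j, v' (.lf j) = v (.lf j)) ∧
    ∀ j, v' (.rt j) = v (.rt j)

/-- one step of the Turing machine: forwards -/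
def T_S1 : Prop := ∀ (M : NTM) (B : ℕ) (cd : TS M → ℕ) (d n : ℕ), Code M B cd →
  ∀ (c c' : Cfg M) (v : Ct M.k d → ℕ), VC B cd n c v → Pool.Agent.H8.JS.Step M c c' →
    ∃ (τ : Tr M) (v₁ v' : Ct M.k d → ℕ), τ.ok ∧ τ.1 = c.q ∧ τ.2.2.1 = c'.q ∧
      (tmA M B cd d).Rel (.pop τ) v v₁ ∧ (tmA M B cd d).Rel (.push τ) v₁ v' ∧ VC B cd n c' v' ∧
      ∀ j, v₁ j ≤ v j

/-- one step of the Turing machine: backwards -/
def T_S2 : Prop := ∀ (M : NTM) (B : ℕ) (cd : TS M → ℕ) (d n : ℕ), Code M B cd →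
  ∀ (c : Cfg M) (v v₁ v' : Ct M.k d → ℕ) (τ : Tr M), VC B cd n c v → τ.ok → τ.1 = c.q →
    (tmA M B cd d).Rel (.pop τ) v v₁ → (tmA M B cd d).Rel (.push τ) v₁ v' →
    ∃ c' : Cfg M, Pool.Agent.H8.JS.Step M c c' ∧ c'.q = τ.2.2.1 ∧ VC B cd n c' v'

/-- a word is loaded -/
def T_LD : Prop := ∀ (M : NTM) (B : ℕ) (cd : TS M → ℕ) (d : ℕ), Code M B cd →
  ∀ (x : List Bool) (v : Ct M.k d → ℕ), VC B cd (num x) (Pool.Agent.H8.JS.init M x) v →
    ∃ (v₁ : Ct M.k d → ℕ) (s : ℕ), (tmA M B cd d).Path .start (fun _ => 0) .endl v₁ s ∧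
      (tmA M B cd d).Rel .endl v₁ v ∧
      s + (1 + ∑ j, v₁ j) ≤ (x.length + 3) * (1 + 2 * num x + B ^ (x.length + 1))

/-- only words are loaded -/
def T_LE : Prop := ∀ (M : NTM) (B : ℕ) (cd : TS M → ℕ) (d : ℕ), Code M B cd →
  ∀ (v₁ v : Ct M.k d → ℕ) (s : ℕ), (tmA M B cd d).Path .start (fun _ => 0) .endl v₁ s →
    (tmA M B cd d).Rel .endl v₁ v → ∃ x : List Bool,
      VC B cd (num x) (Pool.Agent.H8.JS.init M x) v

/-- the size of the second stage -/
def fB (d n : ℕ) : ℕ := ((n + 1) ^ d - 1) * (2 * (d * n) + 1) + (2 * (1 + d * n) + 1)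

/-- the clock: soundness -/
def T_O1 : Prop := ∀ (M : NTM) (B : ℕ) (cd : TS M → ℕ) (d n : ℕ) (v v₂ : Ct M.k d → ℕ)
  (e : Ins M d) (s : ℕ), (∀ j, v j = match j with
    | .w _ => n
    | _ => 0) → Ins.nx (.begB : Ins M d) e → (tmA M B cd d).Path e v .fpush v₂ s →
      s + (1 + ∑ j, v₂ j) + 1 = fB d n

/-- the clock: existence -/
def T_O2 : Prop := ∀ (M : NTM) (B : ℕ) (cd : TS M → ℕ) (d n : ℕ) (v : Ct M.k d → ℕ),
  (∀ j, v j = match j with
    | .w _ => n
    | _ => 0) → ∃ (e : Ins M d) (v₂ : Ct M.k d → ℕ) (s : ℕ), Ins.nx (.begB : Ins M d) e ∧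
      (tmA M B cd d).Path e v .fpush v₂ s

/-- the two paths of a run -/
def TwoP (M : NTM) (B : ℕ) (cd : TS M → ℕ) (d n : ℕ) : Prop :=
  ∃ (v v₁ v₂ : Ct M.k d → ℕ) (e : Ins M d) (s₁ s₂ : ℕ),
    (tmA M B cd d).Path .start (fun _ => 0) .begB v s₁ ∧ (tmA M B cd d).Rel .begB v v₁ ∧
    Ins.nx (.begB : Ins M d) e ∧ (tmA M B cd d).Path e v₁ .fpush v₂ s₂ ∧
    s₁ + (1 + ∑ j, v j) = s₂ + (1 + ∑ j, v₂ j) + 1 ∧ n = 2 * (s₁ + (1 + ∑ j, v j))

/-- from runs to paths -/
def T_NPA : Prop := ∀ (M : NTM) (B : ℕ) (cd : TS M → ℕ) (d n : ℕ), n ∈ (tmA M B cd d).Num →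
  TwoP M B cd d n

/-- from paths to runs -/
def T_NPB : Prop := ∀ (M : NTM) (B : ℕ) (cd : TS M → ℕ) (d n : ℕ), TwoP M B cd d n →
  n ∈ (tmA M B cd d).Num

/-- short accepting computations -/
def T_SHC : Prop := ∀ (M : NTM) (c : ℕ), (∀ x, Space M x (c * (x.length + 1))) →
  ∃ d, ∀ x, Pool.Agent.H8.JS.Acc M x → ∃ (l : ℕ) (cc : ℕ → Cfg M),
    IsComp M (Pool.Agent.H8.JS.init M x) l cc ∧ (cc l).q = M.acc ∧ l ≤ (num x + 1) ^ d

/-- the size of the vectors -/
def T_VS : Prop := ∀ (M : NTM) (c B : ℕ) (cd : TS M → ℕ), Code M B cd →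
  (∀ x, Space M x (c * (x.length + 1))) → ∃ d₁, ∀ (d : ℕ) (x : List Bool) (l : ℕ)
    (cc : ℕ → Cfg M), IsComp M (Pool.Agent.H8.JS.init M x) l cc → ∀ i ≤ l,
      ∃ v : Ct M.k d → ℕ, VC B cd (num x) (cc i) v ∧ 1 + ∑ j, v j ≤ (num x + 1) ^ d₁

/-- the first stage: existence, with a bound for the size -/
def T_A1 : Prop := ∀ (M : NTM) (c B : ℕ) (cd : TS M → ℕ), Code M B cd →
  (∀ x, Space M x (c * (x.length + 1))) → ∃ d₂, ∀ (d : ℕ) (x : List Bool),
    Pool.Agent.H8.JS.Acc M x → ∃ s₀ ≤ (num x + 1) ^ d₂, ∀ D : ℕ, ∃ (v : Ct M.k d → ℕ) (s : ℕ),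
      (tmA M B cd d).Path .start (fun _ => 0) .begB v s ∧ v .N = num x ∧
        s + (1 + ∑ j, v j) = s₀ + D

/-- the first stage: soundness -/
def T_A2 : Prop := ∀ (M : NTM) (B : ℕ) (cd : TS M → ℕ) (d : ℕ), Code M B cd →
  ∀ (v : Ct M.k d → ℕ) (s : ℕ), (tmA M B cd d).Path .start (fun _ => 0) .begB v s →
    ∃ x : List Bool, Pool.Agent.H8.JS.Acc M x ∧ v .N = num x

/-- the size of the second stage is a polynomial which grows fast enough -/
def T_FBN : Prop := (∀ d, 0 < d → StrictMono (fB d)) ∧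
  (∀ d₂, ∃ d, 0 < d ∧ ∀ n, (n + 1) ^ d₂ ≤ fB d n) ∧
  ∀ d, ∃ p : Polynomial ℤ, ∀ n : ℕ, p.eval (n : ℤ) = ((2 * fB d n : ℕ) : ℤ)

/-- the lower bound -/
def T_LOW : Prop := ∀ L ∈ NLIN, ∃ (φ : C2) (p : Polynomial ℤ), ∀ x : List Bool, ∃ y : List Bool,
    (num y : ℤ) = p.eval (num x : ℤ) ∧ (x ∈ L ↔ y ∈ lang (specPB φ))

end Pool.Agent.H46.CH
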