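import Pool.Agent.H46.CH.DD
import Pool.Agent.H46.CH.LT

/-!
# The lower bound: blow-ups of trees carry alternating linear space with small trees
-/

set_option autoImplicit false

namespace Pool.Agent.H46.CH

open Classical
open Pool.Agent.H8.VR (C2)
open Pool.Agent.H8.JS (NTM Cfg Mv IsComp lang num)

/-! ### machines with counters and branching -/

/-- A machine with counters and branching: after an instruction with `ar` the machine branches, the
instructions `nx` may follow on the left side and `nr` on the right side. -/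
structure BM (J : Type) extends AM J where
  ar : I → Bool
  nr : I → I → Prop

section
variable {J : Type} [Fintype J]

/-- the size of a block with the instruction `e` and the vector `v`, for the stage `b` -/
def BM.own (M : BM J) (e : M.I) (v : J → ℕ) (b : Bool) : ℕ := if M.st e = b then 1 + ∑ j, v j else 0

/-- `M.Tre e v s`: there is a tree of blocks whose root has the instruction `e` and the vector `v`;
`s b` is the number of the elements of the stage `b`. A leaf has the vector `0` and the stage of the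
instruction before it. -/
inductive BM.Tre (M : BM J) : M.I → (J → ℕ) → (Bool → ℕ) → Prop
  | fin (e : M.I) (v : J → ℕ) (s : Bool → ℕ) (ha : M.ar e = false) (hf : M.fi e)
      (hr : M.Rel e v fun _ => 0) (hs : ∀ b, s b = M.own e v b + if M.st e = b then 1 else 0) :
      BM.Tre M e v s
  | one (e : M.I) (v : J → ℕ) (e' : M.I) (v' : J → ℕ) (s' s : Bool → ℕ) (ha : M.ar e = false)
      (hn : M.nx e e') (hr : M.Rel e v v') (ht : BM.Tre M e' v' s')
      (hs : ∀ b, s b = M.own e v b + s' b) : BM.Tre M e v s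
  | two (e : M.I) (v : J → ℕ) (e₁ : M.I) (v₁ : J → ℕ) (s₁ : Bool → ℕ) (e₂ : M.I) (v₂ : J → ℕ)
      (s₂ s : Bool → ℕ) (ha : M.ar e = true) (hn₁ : M.nx e e₁) (hn₂ : M.nr e e₂)
      (hr₁ : M.Rel e v v₁) (hr₂ : M.Rel e v v₂) (h₁ : BM.Tre M e₁ v₁ s₁)
      (h₂ : BM.Tre M e₂ v₂ s₂) (hs : ∀ b, s b = M.own e v b + s₁ b + s₂ b) : BM.Tre M e v s

/-- the sizes of the trees whose stages have the same size -/
def BM.Num (M : BM J) : Set ℕ :=
  {n | ∃ e s, M.ini e ∧ M.Tre e (fun _ => 0) s ∧ s false = s true ∧ n = s false + s true}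

/-- trees as sequences of blocks `0, …, T`: parents `p t`, sides `sd t` (`true` for the right side),
instructions `e t` (`none` for the leaves), vectors `v t` -/
structure BM.TR (M : BM J) (T : ℕ) (p : ℕ → ℕ) (sd : ℕ → Bool) (e : ℕ → Option M.I)
    (v : ℕ → J → ℕ) : Prop where
  par : ∀ t, 0 < t → p t < t
  root : ∃ i, e 0 = some i
  leaf : ∀ t ≤ T, e t = none → (∀ j, v t j = 0) ∧ sd t = false ∧
    ∃ i, e (p t) = some i ∧ M.fi i ∧ M.ar i = false
  step : ∀ t ≤ T, 0 < t → ∃ i, e (p t) = some i ∧ M.Rel i (v (p t)) (v t) ∧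
    (sd t = true → M.ar i = true) ∧
    ∀ i', e t = some i' → if sd t = true then M.nr i i' else M.nx i i'
  chl : ∀ t ≤ T, ∀ i, e t = some i → ∃! t', t' ≤ T ∧ 0 < t' ∧ p t' = t ∧ sd t' = false
  chr : ∀ t ≤ T, ∀ i, e t = some i → M.ar i = true →
    ∃! t', t' ≤ T ∧ 0 < t' ∧ p t' = t ∧ sd t' = true

/-- the stage of a block with the instruction `o` after the instruction `o'` -/
def BM.sto (M : BM J) (o' o : Option M.I) : Bool := match o with
  | some i => M.st i
  | none => match o' with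
    | some i => M.st i
    | none => true

/-- the size of a stage -/
def BM.sz (M : BM J) (T : ℕ) (p : ℕ → ℕ) (e : ℕ → Option M.I) (v : ℕ → J → ℕ) (b : Bool) : ℕ :=
  ∑ t ∈ Finset.range (T + 1), if M.sto (e (p t)) (e t) = b then 1 + ∑ j, v t j else 0

/-! ### labels and local conditions -/

/-- the labels: the instruction before the block and the side, the instruction after the block, and
the counter or `none` for the head of the block -/
abbrev BM.Lb (M : BM J) : Type := Option (M.I × Bool) × Option M.I × Option J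

/-- the stage of a label -/
def BM.stl (M : BM J) (l : M.Lb) : Bool := M.sto (l.1.map Prod.fst) l.2.1

/-- the conditions for the outgoing edges on one side -/
noncomputable def BM.outs (M : BM J) (i : M.I) (sd : Bool) (κ : Option J) :
    List ((M.Lb → (Fin 3 → Prop) → (Fin 3 → Prop) → Prop) × ℕ × Bool) :=
  if M.dir i = true then
    (fun l' a _ => a 1 ∧ l'.1 = some (i, sd) ∧ l'.2.2 = none, 0, true) ::
      (Finset.univ : Finset J).toList.map fun j =>
        (fun l' a _ => a 1 ∧ l'.1 = some (i, sd) ∧ l'.2.2 = some j,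
          (match κ with | some k => M.A i j k | none => M.c i j), true)
  else [(fun l' a _ => a 1 ∧ l'.1 = some (i, sd), if κ = none then 0 else 1, true)]

/-- the conditions for the outgoing edges -/
noncomputable def BM.outc (M : BM J) (l : M.Lb) :
    List ((M.Lb → (Fin 3 → Prop) → (Fin 3 → Prop) → Prop) × ℕ × Bool) := match l.2.1 with
  | none => [(fun _ a _ => a 1, 0, true)]
  | some i => M.outs i false l.2.2 ++ if M.ar i = true then M.outs i true l.2.2 else []

/-- the conditions for the incoming edges -/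
noncomputable def BM.inc (M : BM J) (l : M.Lb) :
    List ((M.Lb → (Fin 3 → Prop) → (Fin 3 → Prop) → Prop) × ℕ × Bool) := match l.1 with
  | none => [(fun _ _ b => b 1, 0, true)]
  | some i => if M.dir i.1 = true then [(fun _ _ b => b 1, if l.2.2 = none then 0 else 1, true)]
    else (fun l' _ b => b 1 ∧ l'.2.2 = none, 0, true) ::
      (Finset.univ : Finset J).toList.map fun j => (fun l' _ b => b 1 ∧ l'.2.2 = some j,
        (match l.2.2 with | some k => M.A i.1 j k | none => M.c i.1 j), true)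

/-- the local conditions for the trees: `R 0` is the blow-up of a tree, `R 1` are the edges between
the blocks -/
noncomputable def BM.lc (M : BM J) : Loc M.Lb where
  ok l := (l.1 = none → l.2.2 = none ∧ ∃ i, l.2.1 = some i ∧ M.ini i) ∧
    (l.2.1 = none → l.2.2 = none ∧ ∃ i, l.1 = some (i, false) ∧ M.fi i ∧ M.ar i = false) ∧
    ∀ i, l.1 = some (i, true) → M.ar i = true
  pr l l' a b := (a 0 → b 0 → l.1 = l'.1 ∧ l.2.1 = l'.2.1) ∧
    (a 0 → ¬ b 0 → ∃ i sd, l.2.1 = some i ∧ l'.1 = some (i, sd) ∧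
      ∀ i', l'.2.1 = some i' → if sd = true then M.nr i i' else M.nx i i') ∧
    (a 1 → a 0 ∧ ¬ b 0 ∧ ¬ (l.2.2 = none ∧ l'.2.2 = none))
  ct l := [(fun l' a b => a 0 ∧ b 0 ∧ l'.2.2 = none, if l.2.2 = none then 0 else 1, true),
      (fun l' a b => a 0 ∧ ¬ b 0 ∧ l'.2.2 = none ∧ ∃ i, l'.1 = some (i, false),
        if l.2.1 = none then 0 else 1, true),
      (fun l' a b => a 0 ∧ ¬ b 0 ∧ l'.2.2 = none ∧ ∃ i, l'.1 = some (i, true),
        if ∃ i, l.2.1 = some i ∧ M.ar i = true then 1 else 0, true),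
      (fun _ a b => b 0 ∧ ¬ a 0, if l.1 = none then 0 else 1, if l.1 = none then true else false)] ++
    M.outc l ++ M.inc l

/-- the local conditions for the trees whose stages have the same size: `R 2` is a matching of the
stages -/
noncomputable def BM.loc (M : BM J) : Loc M.Lb where
  ok := M.lc.ok
  pr l l' a b := M.lc.pr l l' a b ∧ (a 2 → M.stl l = false ∧ M.stl l' = true)
  ct l := [(fun _ a _ => a 2, if M.stl l = true then 0 else 1, true),
      (fun _ _ b => b 2, if M.stl l = true then 1 else 0, true)] ++ M.lc.ct l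

end

/-! ### targets: trees and sequences -/

/-- from trees to sequences -/
def T_TRA : Prop := ∀ (J : Type) [Fintype J] (M : BM J) (e : M.I) (v : J → ℕ) (s : Bool → ℕ),
  M.Tre e v s → ∃ (T : ℕ) (p : ℕ → ℕ) (sd : ℕ → Bool) (es : ℕ → Option M.I) (vs : ℕ → J → ℕ),
    M.TR T p sd es vs ∧ es 0 = some e ∧ vs 0 = v ∧ ∀ b, M.sz T p es vs b = s b

/-- from sequences to trees -/
def T_TRB : Prop := ∀ (J : Type) [Fintype J] (M : BM J) (T : ℕ) (p : ℕ → ℕ) (sd : ℕ → Bool)
  (es : ℕ → Option M.I) (vs : ℕ → J → ℕ) (e : M.I), M.TR T p sd es vs → es 0 = some e →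
    ∃ s : Bool → ℕ, M.Tre e (vs 0) s ∧ ∀ b, M.sz T p es vs b = s b

/-! ### targets: structures -/

/-- transport of labelled structures along a bijection -/
def T_TTP : Prop := ∀ (Λ A B : Type) (D : Loc Λ) (e : A ≃ B) (lab : A → Λ) (R : ℕ → A → A → Prop),
  (TreeBlowUp (R 0) → TreeBlowUp (fun x y => R 0 (e.symm x) (e.symm y))) ∧
  (D.Sat lab R → D.Sat (fun x => lab (e.symm x)) (fun i x y => R i (e.symm x) (e.symm y)))

/-- the matching of the stages -/
def T_TMT : Prop := ∀ (J : Type) [Fintype J] (M : BM J) (A : Type) [Finite A]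
  (R : ℕ → A → A → Prop) (lab : A → M.Lb),
  (M.loc.Sat lab R → M.lc.Sat lab R ∧
    {x | M.stl (lab x) = false}.ncard = {x | M.stl (lab x) = true}.ncard) ∧
  (M.lc.Sat lab R → {x | M.stl (lab x) = false}.ncard = {x | M.stl (lab x) = true}.ncard →
    ∃ R' : ℕ → A → A → Prop, R' 0 = R 0 ∧ M.loc.Sat lab R')

/-- from sequences to structures, without the matching -/
def T_TCR : Prop := ∀ (J : Type) [Fintype J] (M : BM J) (T : ℕ) (p : ℕ → ℕ) (sd : ℕ → Bool)
  (e : ℕ → Option M.I) (v : ℕ → J → ℕ), M.TR T p sd e v → (∀ j, v 0 j = 0) →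
    (∀ i, e 0 = some i → M.ini i) →
    ∃ (A : Type) (_ : Finite A) (R : ℕ → A → A → Prop) (lab : A → M.Lb),
      TreeBlowUp (R 0) ∧ M.lc.Sat lab R ∧
        ∀ b, {x | M.stl (lab x) = b}.ncard = M.sz T p e v b

/-- from trees to structures -/
def T_TCA : Prop := ∀ (J : Type) [Fintype J] (M : BM J) (n : ℕ), n ∈ M.Num →
  ∃ (R : ℕ → Fin n → Fin n → Prop) (lab : Fin n → M.Lb), TreeBlowUp (R 0) ∧ M.loc.Sat lab R

/-- the blocks of a structure: labels -/
def T_TB1 : Prop := ∀ (J : Type) [Fintype J] (M : BM J) (A : Type) [Finite A]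
  (R : ℕ → A → A → Prop) (lab : A → M.Lb) (T : ℕ) (b : A → ℕ) (p : ℕ → ℕ),
  (∀ i, (∃ x, b x = i) ↔ i ≤ T) → (∀ i, 0 < i → p i < i) →
  (∀ x y, (R 0 x y ↔ b y = b x ∨ (0 < b y ∧ p (b y) = b x))) → M.lc.Sat lab R →
  ∃ (sd : ℕ → Bool) (e : ℕ → Option M.I), (∃ i, e 0 = some i ∧ M.ini i) ∧
    (∀ x, (lab x).2.1 = e (b x)) ∧
    (∀ x, b x = 0 → (lab x).1 = none ∧ (lab x).2.2 = none) ∧
    (∀ x, 0 < b x → ∃ i, e (p (b x)) = some i ∧ (lab x).1 = some (i, sd (b x))) ∧
    (∀ t ≤ T, {x | b x = t ∧ (lab x).2.2 = none}.ncard = 1) ∧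
    (∀ t ≤ T, e t = none → (∀ x, b x = t → (lab x).2.2 = none) ∧ sd t = false ∧
      ∃ i, e (p t) = some i ∧ M.fi i ∧ M.ar i = false) ∧
    (∀ t ≤ T, 0 < t → ∃ i, e (p t) = some i ∧ (sd t = true → M.ar i = true) ∧
      ∀ i', e t = some i' → if sd t = true then M.nr i i' else M.nx i i') ∧
    (∀ t ≤ T, ∀ i, e t = some i → ∃! t', t' ≤ T ∧ 0 < t' ∧ p t' = t ∧ sd t' = false) ∧
    ∀ t ≤ T, ∀ i, e t = some i → M.ar i = true →
      ∃! t', t' ≤ T ∧ 0 < t' ∧ p t' = t ∧ sd t' = true

/-- the edges of a structure -/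
def T_TB2 : Prop := ∀ (J : Type) [Fintype J] (M : BM J) (A : Type) [Finite A]
  (R : ℕ → A → A → Prop) (lab : A → M.Lb) (b : A → ℕ) (p : ℕ → ℕ) (sd : ℕ → Bool)
  (e : ℕ → Option M.I),
  (∀ i, 0 < i → p i < i) → (∀ x y, (R 0 x y ↔ b y = b x ∨ (0 < b y ∧ p (b y) = b x))) →
  M.lc.Sat lab R → (∀ x, (lab x).2.1 = e (b x)) →
  (∀ x, 0 < b x → ∃ i, e (p (b x)) = some i ∧ (lab x).1 = some (i, sd (b x))) →
  ∀ (t : ℕ) (i : M.I), 0 < t → e (p t) = some i →
    {x | b x = t ∧ (lab x).2.2 = none}.ncard = 1 →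
    {x | b x = p t ∧ (lab x).2.2 = none}.ncard = 1 →
    (sd t = true → M.ar i = true) →
    (∀ t', 0 < t' → p t' = p t → sd t' = sd t → (∃ x, b x = t') → t' = t) →
    M.Rel i (fun j => {x | b x = p t ∧ (lab x).2.2 = some j}.ncard)
      (fun j => {x | b x = t ∧ (lab x).2.2 = some j}.ncard)

/-- from structures to trees -/
def T_TCB : Prop := ∀ (J : Type) [Fintype J] (M : BM J) (n : ℕ) (R : ℕ → Fin n → Fin n → Prop)
  (lab : Fin n → M.Lb), TreeBlowUp (R 0) → M.loc.Sat lab R → n ∈ M.Num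

/-- every machine with counters and branching is expressed by a formula -/
def T_TCC : Prop := ∀ (J : Type) [Fintype J] (M : BM J), ∃ φ : C2, specTB φ = M.Num

/-! ### from alternating machines to machines with counters and branching -/

section
variable (M : NTM) (br : M.Q → Option (M.Q × M.Q)) (d : ℕ)

/-- the instructions: those of `tmA`, branching in a state, and the end of a branch -/
abbrev TI : Type := Ins M d ⊕ (M.Q ⊕ Unit)

variable {M d}

/-- the first instruction in the state `q` -/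
def TI.fst (q : M.Q) : TI M d → Prop
  | .inl (.pop τ) => τ.1 = q ∧ Tr.ok τ ∧ br q = none
  | .inr (.inl q') => q' = q ∧ (br q).isSome
  | .inr (.inr _) => q = M.acc
  | _ => False

/-- what may follow on the left side -/
def TI.nx : TI M d → TI M d → Prop
  | .inl .endl, i' => i' = .inl .clear
  | .inl (.push τ), i' => TI.fst br τ.2.2.1 i'
  | .inl i, .inl i' => Ins.nx i i'
  | .inr (.inl q), i' => ∃ q₁ q₂, br q = some (q₁, q₂) ∧ TI.fst br q₁ i'
  | _, _ => False

/-- what may follow on the right side -/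
def TI.nr : TI M d → TI M d → Prop
  | .inl .endl, i' => TI.fst br M.start i'
  | .inr (.inl q), i' => ∃ q₁ q₂, br q = some (q₁, q₂) ∧ TI.fst br q₂ i'
  | _, _ => False

/-- branching instructions -/
def TI.ar : TI M d → Bool
  | .inl .endl => true
  | .inr (.inl _) => true
  | _ => false

end

/-- The machine with counters and branching for an alternating machine: the word is loaded; on the left
side the clock follows, on the right side the tree of the alternating machine. -/
noncomputable def tmT (M : NTM) (br : M.Q → Option (M.Q × M.Q)) (B : ℕ) (cd : TS M → ℕ) (d : ℕ) :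
    BM (Ct M.k d) where
  I := TI M d
  finI := by
    have := Ins.finite M d
    have := M.finQ
    infer_instance
  nx := TI.nx br
  ini e := e = .inl .start
  fi e := e = .inl .fpush ∨ e = .inr (.inr ())
  dir e := match e with
    | .inl i => Ins.dir i
    | .inr _ => true
  A e := match e with
    | .inl i => Ins.A B i
    | .inr (.inl _) => fun j k => dl (k = j)
    | .inr (.inr _) => fun _ _ => 0
  c e := match e with
    | .inl i => Ins.c B cd i
    | .inr _ => fun _ => 0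
  st e := match e with
    | .inl i => Ins.st i
    | .inr _ => false
  ar := TI.ar
  nr := TI.nr br

/-- what the instructions do -/
def T_TIR : Prop := ∀ (M : NTM) (br : M.Q → Option (M.Q × M.Q)) (B : ℕ) (cd : TS M → ℕ) (d : ℕ)
  (v v' : Ct M.k d → ℕ),
  (∀ i, (tmT M br B cd d).Rel (.inl i) v v' ↔ (tmA M B cd d).Rel i v v') ∧
  (∀ q, (tmT M br B cd d).Rel (.inr (.inl q)) v v' ↔ v' = v) ∧
  ((tmT M br B cd d).Rel (.inr (.inr ())) v v' ↔ ∀ j, v' j = 0)

/-- the loading part -/
def T_TLD : Prop := ∀ (M : NTM) (br : M.Q → Option (M.Q × M.Q)) (B : ℕ) (cd : TS M → ℕ) (d : ℕ)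
  (v₀ : Ct M.k d → ℕ) (t' : Bool → ℕ),
  (tmT M br B cd d).Tre (.inl .start) v₀ t' ↔ ∃ (v : Ct M.k d → ℕ) (s : ℕ) (t : Bool → ℕ),
    (tmA M B cd d).Path .start v₀ .endl v s ∧ (tmT M br B cd d).Tre (.inl .endl) v t ∧
      t' false = s + t false ∧ t' true = t true

/-- the clock -/
def T_TCL : Prop := ∀ (M : NTM) (br : M.Q → Option (M.Q × M.Q)) (B : ℕ) (cd : TS M → ℕ) (d : ℕ)
  (v : Ct M.k d → ℕ) (t : Bool → ℕ),
  (tmT M br B cd d).Tre (.inl .clear) v t ↔ ∃ (v₂ v₃ v₄ v₅ : Ct M.k d → ℕ) (e : Ins M d) (s : ℕ),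
    (tmA M B cd d).Rel .clear v v₂ ∧ (tmA M B cd d).Rel .pad v₂ v₃ ∧
    (tmA M B cd d).Rel .begB v₃ v₄ ∧ Ins.nx (.begB : Ins M d) e ∧
    (tmA M B cd d).Path e v₄ .fpush v₅ s ∧
    t false = (1 + ∑ j, v j) + (1 + ∑ j, v₂ j) + (1 + ∑ j, v₃ j) ∧
    t true = s + (1 + ∑ j, v₅ j) + 1

/-- the vectors of the configurations which are reached -/
def T_TVS : Prop := ∀ (M : NTM) (br : M.Q → Option (M.Q × M.Q)) (c B : ℕ) (cd : TS M → ℕ),
  Code M B cd → (∀ x cc, ARch M br x cc → ∀ j, cc.hd j < c * (x.length + 1)) →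
    ∃ d₁, ∀ (d : ℕ) (x : List Bool) (cc : Cfg M), ARch M br x cc →
      ∃ v : Ct M.k d → ℕ, VC B cd (num x) cc v ∧ 1 + ∑ j, v j ≤ (num x + 1) ^ d₁

/-- from accepting trees to trees of blocks -/
def T_TA1 : Prop := ∀ (M : NTM) (br : M.Q → Option (M.Q × M.Q)) (B : ℕ) (cd : TS M → ℕ),
  Code M B cd → ∀ (x : List Bool) (d W : ℕ),
    (∀ cc, ARch M br x cc → ∃ v : Ct M.k d → ℕ, VC B cd (num x) cc v ∧ 1 + ∑ j, v j ≤ W) →
    ∀ (z : ℕ) (cc : Cfg M), ATr M br cc z → ARch M br x cc →
      ∀ v : Ct M.k d → ℕ, VC B cd (num x) cc v → ∃ (i : TI M d) (s : Bool → ℕ),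
        TI.fst br cc.q i ∧ (tmT M br B cd d).Tre i v s ∧ s true = 0 ∧
          s false ≤ z * (2 * W + 1)

/-- from trees of blocks to accepting trees -/
def T_TA2 : Prop := ∀ (M : NTM) (br : M.Q → Option (M.Q × M.Q)) (B : ℕ) (cd : TS M → ℕ)
  (d n : ℕ), Code M B cd → ∀ (i : TI M d) (v : Ct M.k d → ℕ) (s : Bool → ℕ),
    (tmT M br B cd d).Tre i v s → ∀ cc : Cfg M, VC B cd n cc v → TI.fst br cc.q i →
      (∃ z, ATr M br cc z) ∧ s true = 0

/-- the sizes of the trees, from the alternating machine -/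
def T_TN1 : Prop := ∀ (M : NTM) (br : M.Q → Option (M.Q × M.Q)) (c B : ℕ) (cd : TS M → ℕ),
  Code M B cd → (∀ x cc, ARch M br x cc → ∀ j, cc.hd j < c * (x.length + 1)) →
    ∃ d₂, ∀ (d : ℕ) (x : List Bool), fB d (num x) ≥ (num x + 1) ^ d₂ →
      (∃ z ≤ 2 ^ (c * (x.length + 1)), ATr M br (Pool.Agent.H8.JS.init M x) z) →
        2 * fB d (num x) ∈ (tmT M br B cd d).Num

/-- the sizes of the trees, to the alternating machine -/
def T_TN2 : Prop := ∀ (M : NTM) (br : M.Q → Option (M.Q × M.Q)) (B : ℕ) (cd : TS M → ℕ)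
  (d n : ℕ), Code M B cd → n ∈ (tmT M br B cd d).Num →
    ∃ (x : List Bool) (z : ℕ), ATr M br (Pool.Agent.H8.JS.init M x) z ∧ n = 2 * fB d (num x)

/-- the lower bound -/
def T_TLW : Prop := ∀ L ∈ LCF, ∃ (φ : C2) (p : Polynomial ℤ), ∀ x : List Bool, ∃ y : List Bool,
    (num y : ℤ) = p.eval (num x : ℤ) ∧ (x ∈ L ↔ y ∈ lang (specTB φ))

end Pool.Agent.H46.CH
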