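import Pool.Agent.H46.CH.Defs
import Pool.Agent.H8.VR.Cor

/-!
# The upper bound: spectra over structures of bounded linear width are in linear space
-/

set_option autoImplicit false

namespace Pool.Agent.H46.CH

open Pool.Agent.H8.VR Pool.Agent.H69.VR Classical
open Pool.Agent.H8.JS (NTM Cfg Mv lang num)

/-! ### grammars and composition systems -/

/-- the right arguments of the operations are not generated by operations -/
def GLin {N Q : Type} (G : Gram N Q) : Prop := ∀ o ∈ G.ops, ∀ o' ∈ G.ops, o'.u ≠ o.t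

/-- there is no condition on the sizes -/
def GTriv {N Q : Type} (G : Gram N Q) : Prop :=
  ∀ o ∈ G.ops, ∀ x y : ℕ, 0 < x → 0 < y → Nat.pair x y ∈ o.D

section
variable {N Q L T O C : Type}

/-- the right arguments of the operations are not generated by operations -/
def SLin (S : Sg N Q L T O) : Prop := ∀ o o', S.u o' ≠ S.t o

/-- there is no condition on the sizes -/
def STriv (S : Sg N Q L T O) : Prop := ∀ (o : O) (x y : ℕ), 0 < x → 0 < y → Nat.pair x y ∈ S.D o

variable [Fintype Q] [Fintype L] [Fintype T] [Fintype C]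

/-- one element of colour `q` and label `l` is added by the operation `o` -/
def LStep (S : Sg N Q L T O) (K : Cp C) (o : O) (q : Q) (l : L) (m : Ix Q L T C × T → ℕ)
    (c c' : Ix Q L T C → ℕ) : Prop :=
  S.pt (S.t o) q l ∧ (∀ σ, ∑ θ, m (σ, θ) = c σ) ∧ (∀ p, m p ≠ 0 → S.al o p.1.1 q p.2) ∧
    ∀ σ, c' σ = fs (fun p => (S.f o p.1.1, (up K (q, (l, fun _ => K.cp 0)) p).2) = σ) m +
      ind ((S.g o q, (nw S K (q, (l, fun _ => K.cp 0)) m).2) = σ)

/-- the configurations which are reached by adding elements -/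
inductive LR (S : Sg N Q L T O) (K : Cp C) : N → (Ix Q L T C → ℕ) → Prop
  | pt (s : N) (c : Ix Q L T C → ℕ) (h : Ptc S K s c) : LR S K s c
  | st (o : O) (q : Q) (l : L) (m : Ix Q L T C × T → ℕ) (c c' : Ix Q L T C → ℕ)
      (h : LR S K (S.s o) c) (h' : LStep S K o q l m c c') : LR S K (S.u o) c'

end

/-- every formula and every grammar define a composition system -/
def T_N2 : Prop := ∀ (N Q : Type) [Finite N] [Finite Q] (G : Gram N Q) (m : ℕ) (s₀ : N) (φ : C2),
  ∃ (L T C O : Type) (_ : Fintype Q) (_ : Fintype L) (_ : Fintype T) (_ : Fintype C)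
    (_ : Finite O) (_ : Nonempty T) (S : Sg N Q L T O) (K : Cp C) (Ok : St L T C → Prop),
    (∀ o, ∃ o' ∈ G.ops, S.s o = o'.s ∧ S.t o = o'.t ∧ S.u o = o'.u ∧ S.f o = o'.f ∧ S.g o = o'.g ∧
      S.D o = o'.D) ∧
      ∀ n, n ∈ specG G m s₀ φ ↔ 0 < n ∧ SysMem S K s₀ Ok n

/-- linear systems: the generated structures are reached by adding elements one by one -/
def T_LRA : Prop := ∀ (N Q L T O C : Type) [Fintype Q] [Fintype L] [Fintype T] [Fintype C]
  (S : Sg N Q L T O) (K : Cp C), SLin S → ∀ s c, RF S K s c → LR S K s c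

/-- linear systems: what is reached by adding elements is generated -/
def T_LRB : Prop := ∀ (N Q L T O C : Type) [Fintype Q] [Fintype L] [Fintype T] [Fintype C]
  [Nonempty T] (S : Sg N Q L T O) (K : Cp C), STriv S → ∀ s c, LR S K s c → RF S K s c

/-! ### automata which read digits -/

/-- A deterministic finite automaton which reads the binary digits of a vector of numbers, the most
significant digits first. -/
structure DA (ι : Type) where
  σ : Type
  fin : Finite σ
  ini : σ
  step : σ → (ι → Bool) → σ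
  acc : σ → Prop

/-- the numbers with the given digits -/
def val {ι : Type} (w : List (ι → Bool)) (j : ι) : ℕ :=
  w.foldl (fun n b => 2 * n + (b j).toNat) 0

/-- `P` is recognised by an automaton -/
def Rg {ι : Type} (P : (ι → ℕ) → Prop) : Prop :=
  ∃ M : DA ι, ∀ w : List (ι → Bool), (M.acc (w.foldl M.step M.ini) ↔ P (val w))

/-- closure properties -/
def T_RG : Prop :=
  (∀ (ι : Type) (p : Prop), Rg (fun _ : ι → ℕ => p)) ∧
  (∀ (ι : Type) (P P' : (ι → ℕ) → Prop), Rg P → Rg P' → Rg (fun v => P v ∧ P' v)) ∧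
  (∀ (ι : Type) (P : (ι → ℕ) → Prop), Rg P → Rg (fun v => ¬ P v)) ∧
  (∀ (ι κ : Type) (f : ι → κ) (P : (ι → ℕ) → Prop), Rg P →
    Rg (fun v : κ → ℕ => P (fun i => v (f i)))) ∧
  ∀ (ι C : Type) [Fintype ι] [Finite C] (K : Cp C) (a : ι → ℕ) (u : C),
    Rg (fun v => K.cp (∑ j, a j * v j) = u)

/-- linear equations -/
def T_RQ : Prop := ∀ (ι : Type) [Fintype ι] (a : ι → ℤ) (b : ℤ),
  Rg (fun v => ∑ j, a j * (v j : ℤ) = b)

/-- finite conjunctions and disjunctions, equality of sums over sets -/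
def T_RH : Prop :=
  (∀ (ι κ : Type) [Finite κ] (P : κ → (ι → ℕ) → Prop), (∀ k, Rg (P k)) →
    Rg (fun v => ∀ k, P k v)) ∧
  (∀ (ι κ : Type) [Finite κ] (P : κ → (ι → ℕ) → Prop), (∀ k, Rg (P k)) →
    Rg (fun v => ∃ k, P k v)) ∧
  (∀ (ι : Type) [Fintype ι] (i : ι) (X : ι → Prop) (b : ℕ), Rg (fun v => v i = fs X v + b)) ∧
  (∀ (ι C : Type) [Fintype ι] [Finite C] (K : Cp C) (X : ι → Prop) (u : C),
    Rg (fun v => K.cp (fs X v) = u)) ∧
  ∀ (ι : Type) (i : ι), Rg (fun v => v i = 0)

/-- adding an element is recognised by an automaton -/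
def T_RL : Prop := ∀ (N Q L T O C : Type) [Fintype Q] [Fintype L] [Fintype T] [Fintype C]
  (S : Sg N Q L T O) (K : Cp C) (o : O) (q : Q) (l : L),
  Rg (fun v : Ix Q L T C ⊕ (Ix Q L T C × T) ⊕ Ix Q L T C ⊕ Unit → ℕ =>
    LStep S K o q l (fun p => v (.inr (.inl p))) (fun σ => v (.inl σ))
      (fun σ => v (.inr (.inr (.inl σ)))))

/-- the first and the last configuration -/
def T_RE : Prop := ∀ (N Q L T O C : Type) [Fintype Q] [Fintype L] [Fintype T] [Fintype C]
  (S : Sg N Q L T O) (K : Cp C),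
  (∀ s : N, Rg (fun v : Ix Q L T C ⊕ (Ix Q L T C × T) ⊕ Ix Q L T C ⊕ Unit → ℕ =>
    Ptc S K s (fun σ => v (.inr (.inr (.inl σ)))))) ∧
  ∀ Ok : St L T C → Prop, Rg (fun v : Ix Q L T C ⊕ (Ix Q L T C × T) ⊕ Ix Q L T C ⊕ Unit → ℕ =>
    tot (fun σ => v (.inl σ)) = v (.inr (.inr (.inr ()))) ∧ ∀ σ, v (.inl σ) ≠ 0 → Ok σ.2)

/-! ### systems of sweeps and their machines -/

/-- the digits of `num x` -/
def dg (x : List Bool) (i : ℕ) : Bool := if i = 0 then true else x.getD (i - 1) false

/-- A system of sweeps: a finite control, and a finite automaton which reads the word and the digits of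
`num x` from the left to the right and rewrites the word. -/
structure SWS where
  S : Type
  Λ : Type
  Z : Type
  finS : Finite S
  finΛ : Finite Λ
  finZ : Finite Z
  s₀ : S
  s₁ : S
  z₀ : S → Z → Prop
  δ : Z → Bool → Λ → Λ → Z → Prop
  z₁ : Z → S → Prop

/-- one sweep -/
def SWS.Sw (A : SWS) (x : List Bool) (s : A.S) (w : ℕ → A.Λ) (s' : A.S) (w' : ℕ → A.Λ) : Prop :=
  ∃ z : ℕ → A.Z, A.z₀ s (z 0) ∧
    (∀ i < x.length + 1, A.δ (z i) (dg x i) (w i) (w' i) (z (i + 1))) ∧ A.z₁ (z (x.length + 1)) s'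

/-- what is reached by sweeps -/
inductive SWS.Rch (A : SWS) (x : List Bool) : A.S → (ℕ → A.Λ) → Prop
  | ini (w : ℕ → A.Λ) : SWS.Rch A x A.s₀ w
  | sw (s : A.S) (w : ℕ → A.Λ) (s' : A.S) (w' : ℕ → A.Λ) (h : SWS.Rch A x s w)
      (h' : A.Sw x s w s' w') : SWS.Rch A x s' w'

/-- the states of the machine -/
inductive SwQ (A : SWS) : Type
  | ini (f : Bool) : SwQ A
  | ret (s : A.S) : SwQ A
  | fwd (z : A.Z) : SwQ A
  | acc : SwQ A

/-- the symbols of the machine: letter, first cell, last cell -/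
abbrev SwG (A : SWS) : Type := A.Λ × Bool × Bool

/-- the symbols of the tapes -/
abbrev SwS (A : SWS) : Type := Pool.Agent.H8.JS.Sym (SwG A)

/-- the transitions of the machine -/
inductive SwD (A : SWS) :
    SwQ A → (Fin 2 → SwS A) → SwQ A → (Fin 2 → SwS A) → (Fin 2 → Mv) → Prop
  | ini_bit (f b : Bool) (a : SwS A) (y : A.Λ) :
      SwD A (.ini f) ![.bit b, a] (.ini false) ![.bit b, .oth (y, f, false)] ![.R, .R]
  | ini_end (f : Bool) (a : SwS A) (y : A.Λ) :
      SwD A (.ini f) ![.bl, a] (.ret A.s₀) ![.bl, .oth (y, f, true)] ![.L, .S]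
  | ret_mv (s : A.S) (a : SwS A) (y : A.Λ) (r : Bool) :
      SwD A (.ret s) ![a, .oth (y, false, r)] (.ret s) ![a, .oth (y, false, r)] ![.L, .L]
  | ret_go (s : A.S) (z : A.Z) (hz : A.z₀ s z) (a : SwS A) (y : A.Λ) (r : Bool) :
      SwD A (.ret s) ![a, .oth (y, true, r)] (.fwd z) ![a, .oth (y, true, r)] ![.S, .S]
  | ret_acc (a b : SwS A) : SwD A (.ret A.s₁) ![a, b] .acc ![a, b] ![.S, .S]
  | fwd_mv (z z' : A.Z) (d : Bool) (a : SwS A) (y y' : A.Λ) (l : Bool)
      (hd : if l then d = true else a = .bit d) (h : A.δ z d y y' z') :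
      SwD A (.fwd z) ![a, .oth (y, l, false)] (.fwd z') ![a, .oth (y', l, false)]
        ![if l then .S else .R, .R]
  | fwd_end (z z' : A.Z) (s : A.S) (d : Bool) (a : SwS A) (y y' : A.Λ) (l : Bool)
      (hd : if l then d = true else a = .bit d) (h : A.δ z d y y' z') (h' : A.z₁ z' s) :
      SwD A (.fwd z) ![a, .oth (y, l, true)] (.ret s) ![a, .oth (y', l, true)] ![.S, .S]

theorem SwQ.finite (A : SWS) : Finite (SwQ A) := by
  have := A.finS
  have := A.finZ
  refine Finite.of_injective (β := (Bool ⊕ A.S) ⊕ (A.Z ⊕ Unit)) (fun q => match q with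
    | .ini f => .inl (.inl f)
    | .ret s => .inl (.inr s)
    | .fwd z => .inr (.inl z)
    | .acc => .inr (.inr ())) ?_
  intro a b h
  cases a <;> cases b <;> simp_all

/-- the machine of a system of sweeps: the tape `0` is the input and is not changed; the head `1` is
one cell to the right of the head `0`, except at the left end -/
def swM (A : SWS) : NTM where
  k := 1
  Q := SwQ A
  Γ := SwG A
  finQ := SwQ.finite A
  finΓ := by have := A.finΛ; exact inferInstance
  start := .ini true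
  acc := .acc
  δ := SwD A

/-- the machine works correctly, in space `|x| + 1` -/
def T_SWA : Prop := ∀ (A : SWS) (x : List Bool), Space (swM A) x (x.length + 1) ∧
  (Pool.Agent.H8.JS.Acc (swM A) x → ∃ w, A.Rch x A.s₁ w)

/-- the machine accepts -/
def T_SWB : Prop := ∀ (A : SWS) (x : List Bool), (∃ w, A.Rch x A.s₁ w) →
  Pool.Agent.H8.JS.Acc (swM A) x

/-! ### vectors of numbers below `2 ^ (|x| + 1)` -/

/-- the vectors which are reached by the relations `P e`, all numbers are below `M` -/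
inductive AuR {S ι κ E : Type} (src tgt : E → S) (s₀ : S)
    (P : E → (ι ⊕ κ ⊕ ι ⊕ Unit → ℕ) → Prop) (M n : ℕ) : S → (ι → ℕ) → Prop
  | ini (v : ι → ℕ) (hv : ∀ i, v i < M) : AuR src tgt s₀ P M n s₀ v
  | st (e : E) (v : ι → ℕ) (u : κ → ℕ) (v' : ι → ℕ) (h : AuR src tgt s₀ P M n (src e) v)
      (hu : ∀ j, u j < M) (hv : ∀ i, v' i < M)
      (hP : P e (Sum.elim v (Sum.elim u (Sum.elim v' fun _ => n)))) :
      AuR src tgt s₀ P M n (tgt e) v'

/-- reachability by relations which are recognised by automata, in linear space -/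
def T_AU : Prop := ∀ (S ι κ E : Type) [Finite S] [Finite ι] [Finite κ] [Finite E]
  (src tgt : E → S) (s₀ s₁ : S) (P : E → (ι ⊕ κ ⊕ ι ⊕ Unit → ℕ) → Prop), (∀ e, Rg (P e)) →
    {x : List Bool | ∃ v, AuR src tgt s₀ P (2 ^ (x.length + 1)) (num x) s₁ v} ∈ NLIN

/-! ### assembly -/

/-- the upper bound for grammars -/
def T_UG : Prop := ∀ (N Q : Type) [Finite N] [Finite Q] (G : Gram N Q), GLin G → GTriv G →
  ∀ (m : ℕ) (s₀ : N) (φ : C2), lang (specG G m s₀ φ) ∈ NLIN

/-- the upper bound for grammars and counting monadic second-order logic -/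
def T_UM : Prop := ∀ (N Q : Type) [Finite N] [Finite Q] (G : Gram N Q), GLin G → GTriv G →
  ∀ (m : ℕ) (s₀ : N) (Ψ : MS) (φ : C2), Ψ.Below m → lang (specM G m s₀ Ψ φ) ∈ NLIN

/-- the grammar of the linear expressions with `k` colours: sort `false` is one element -/
noncomputable def linG (k m : ℕ) : Gram Bool (Fin k) where
  pts := [true, false].flatMap fun s =>
    (Finset.univ : Finset (Fin k × (Fin m → Bool) × (Fin m → Bool))).toList.map fun x =>
      { s := s, q := x.1, un := fun i => ∃ h : i < m, x.2.1 ⟨i, h⟩ = true,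
        lp := fun i => ∃ h : i < m, x.2.2 ⟨i, h⟩ = true }
  ops := (Finset.univ : Finset ((Fin m → Fin k → Bool) × (Fin m → Fin k → Bool) ×
      (Fin k → Fin k) × Fin k)).toList.map fun x =>
    { s := true, t := false, u := true, l := fun i p _ => ∃ h : i < m, x.1 ⟨i, h⟩ p = true,
      r := fun i p _ => ∃ h : i < m, x.2.1 ⟨i, h⟩ p = true, f := x.2.2.1, g := fun _ => x.2.2.2,
      D := {n | 0 < n} }

/-- linear expressions and their grammar -/
def T_LG : Prop := ∀ (k m : ℕ) (Ψ : MS) (φ : C2), specLM k m Ψ φ = specM (linG k m) m true Ψ φ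

/-- the grammar of the blow-ups of paths: the colours are `0` (last block), `1` (last but one), `2`;
sort `false` is one element -/
noncomputable def pbG : Gram Bool (Fin 3) where
  pts := [true, false].flatMap fun s => [true, false].map fun x =>
    { s := s, q := 0, un := fun _ => x = true, lp := fun _ => True }
  ops := [
    { s := true, t := false, u := true, l := fun _ p _ => p ≠ 2, r := fun _ p _ => p = 0,
      f := id, g := id, D := {n | 0 < n} },
    { s := true, t := false, u := true, l := fun _ p _ => p = 0, r := fun _ _ _ => False,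
      f := fun p => if p = 0 then 1 else 2, g := id, D := {n | 0 < n} }]

/-- blow-ups of paths are generated -/
def T_PGA : Prop := ∀ (A : Type) [Finite A] [Nonempty A] (P : ℕ → A → Prop)
  (R : ℕ → A → A → Prop), PathBlowUp (R 0) → ∃ c, pbG.Gen 1 P R true Set.univ c

/-- only blow-ups of paths are generated -/
def T_PGB : Prop := ∀ (A : Type) [Finite A] (P : ℕ → A → Prop) (R : ℕ → A → A → Prop),
  (∃ c, pbG.Gen 1 P R true Set.univ c) → PathBlowUp (R 0)

/-- the upper bound -/
def T_UP : Prop :=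
  (∀ (k m : ℕ) (Ψ : MS) (φ : C2), Ψ.Below m → lang (specLM k m Ψ φ) ∈ NLIN) ∧
  ∀ φ : C2, lang (specPB φ) ∈ NLIN

end Pool.Agent.H46.CH
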