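import Pool.Agent.H46.CH.DD
import Pool.Agent.H46.CH.UT
import Pool.Agent.H8.VR.Targets

/-!
# The upper bound: spectra over structures of bounded NLC-width are in `LCF`
-/

set_option autoImplicit false

namespace Pool.Agent.H46.CH

open Pool.Agent.H8.VR Pool.Agent.H69.VR Classical
open Pool.Agent.H8.JS (NTM Cfg Mv lang num)

/-! ### sweeps with branching -/

/-- accepting trees of sweeps; `br` is the branching of the control -/
inductive SWS.Tree (A : SWS) (br : A.S → Option (A.S × A.S)) (x : List Bool) :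
    A.S → (ℕ → A.Λ) → ℕ → Prop
  | fin (w : ℕ → A.Λ) : SWS.Tree A br x A.s₁ w 1
  | sw (s : A.S) (w : ℕ → A.Λ) (s' : A.S) (w' : ℕ → A.Λ) (k : ℕ) (h : br s = none)
      (h' : A.Sw x s w s' w') (ht : SWS.Tree A br x s' w' k) : SWS.Tree A br x s w (k + 1)
  | all (s a b : A.S) (w : ℕ → A.Λ) (k₁ k₂ : ℕ) (h : br s = some (a, b))
      (h₁ : SWS.Tree A br x a w k₁) (h₂ : SWS.Tree A br x b w k₂) :
      SWS.Tree A br x s w (k₁ + k₂ + 1)

/-- the branching of the machine -/
def swB (A : SWS) (br : A.S → Option (A.S × A.S)) : SwQ A → Option (SwQ A × SwQ A)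
  | .ret s => (br s).map fun p => (.ret p.1, .ret p.2)
  | _ => none

/-- the machine with branching works correctly, in space `|x| + 1` -/
def T_SWC : Prop := ∀ (A : SWS) (br : A.S → Option (A.S × A.S)) (x : List Bool),
  br A.s₁ = none →
  (∀ c, ARch (swM A) (swB A br) x c → ∀ j, c.hd j < x.length + 1) ∧
  ∀ k, ATr (swM A) (swB A br) (Pool.Agent.H8.JS.init (swM A) x) k → ∃ w k', A.Tree br x A.s₀ w k'

/-- the machine with branching accepts -/
def T_SWD : Prop := ∀ (A : SWS) (br : A.S → Option (A.S × A.S)) (x : List Bool) (w : ℕ → A.Λ)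
  (k : ℕ), br A.s₁ = none → A.Tree br x A.s₀ w k →
    ∃ k' ≤ 4 * (x.length + 2) * k,
      ATr (swM A) (swB A br) (Pool.Agent.H8.JS.init (swM A) x) k'

/-! ### trees of vectors -/

/-- accepting trees of vectors: the relation `P e` leads from the vector of a node in the state `src e`
to the vector of its child in the state `tgt e`; the numbers of the children are below `M` -/
inductive AuT {S ι κ E : Type} (src tgt : E → S) (br : S → Option (S × S)) (s₁ : S)
    (P : E → (ι ⊕ κ ⊕ ι ⊕ Unit → ℕ) → Prop) (M n : ℕ) : S → (ι → ℕ) → ℕ → Prop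
  | fin (v : ι → ℕ) : AuT src tgt br s₁ P M n s₁ v 1
  | st (e : E) (v : ι → ℕ) (u : κ → ℕ) (v' : ι → ℕ) (k : ℕ) (hb : br (src e) = none)
      (hu : ∀ j, u j < M) (hv : ∀ i, v' i < M)
      (hP : P e (Sum.elim v (Sum.elim u (Sum.elim v' fun _ => n))))
      (h : AuT src tgt br s₁ P M n (tgt e) v' k) : AuT src tgt br s₁ P M n (src e) v (k + 1)
  | all (s a b : S) (v : ι → ℕ) (k₁ k₂ : ℕ) (hb : br s = some (a, b))
      (h₁ : AuT src tgt br s₁ P M n a v k₁) (h₂ : AuT src tgt br s₁ P M n b v k₂) :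
      AuT src tgt br s₁ P M n s v (k₁ + k₂ + 1)

/-- trees of vectors with relations which are recognised by automata -/
def T_AUT : Prop := ∀ (S ι κ E : Type) [Finite S] [Finite ι] [Finite κ] [Finite E]
  (src tgt : E → S) (br : S → Option (S × S)) (s₀ s₁ : S)
  (P : E → (ι ⊕ κ ⊕ ι ⊕ Unit → ℕ) → Prop) (d : ℕ), (∀ e, Rg (P e)) → br s₁ = none →
  (∀ (x : List Bool) (v : ι → ℕ) (k : ℕ), (∀ i, v i < 2 ^ (x.length + 1)) →
    AuT src tgt br s₁ P (2 ^ (x.length + 1)) (num x) s₀ v k → ∃ v', (∀ i, v' i < 2 ^ (x.length + 1)) ∧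
      ∃ k' ≤ 2 ^ (d * (x.length + 1)), AuT src tgt br s₁ P (2 ^ (x.length + 1)) (num x) s₀ v' k') →
    {x : List Bool | ∃ (v : ι → ℕ) (k : ℕ), (∀ i, v i < 2 ^ (x.length + 1)) ∧
      AuT src tgt br s₁ P (2 ^ (x.length + 1)) (num x) s₀ v k} ∈ LCF

/-! ### derivation trees -/

/-- the control: the beginning, `F s` a generated structure of sort `s`, `J o` an incomplete union,
`B o` the branching, `Lf o` and `Rt o` its arguments, the end -/
inductive TSt (N O : Type) : Type
  | root : TSt N O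
  | F (s : N) : TSt N O
  | J (o : O) : TSt N O
  | B (o : O) : TSt N O
  | Lf (o : O) : TSt N O
  | Rt (o : O) : TSt N O
  | fin : TSt N O

/-- the rules -/
inductive TEd (N Q L T O C : Type) : Type
  | root : TEd N Q L T O C
  | join (o : O) : TEd N Q L T O C
  | step (o : O) (τ : Ix Q L T C) : TEd N Q L T O C
  | split (o : O) : TEd N Q L T O C
  | left (o : O) : TEd N Q L T O C
  | right (o : O) : TEd N Q L T O C
  | leaf (s : N) : TEd N Q L T O C

theorem TSt.finite (N O : Type) [Finite N] [Finite O] : Finite (TSt N O) := by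
  refine Finite.of_injective (β := (Fin 2 ⊕ N) ⊕ ((O ⊕ O) ⊕ (O ⊕ O))) (fun q => match q with
    | .root => .inl (.inl 0)
    | .fin => .inl (.inl 1)
    | .F s => .inl (.inr s)
    | .J o => .inr (.inl (.inl o))
    | .B o => .inr (.inl (.inr o))
    | .Lf o => .inr (.inr (.inl o))
    | .Rt o => .inr (.inr (.inr o))) ?_
  intro a b h
  cases a <;> cases b <;> simp_all

theorem TEd.finite (N Q L T O C : Type) [Finite N] [Finite Q] [Finite L] [Finite T] [Finite O]
    [Finite C] : Finite (TEd N Q L T O C) := by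
  refine Finite.of_injective (β := (Unit ⊕ N) ⊕ (((O ⊕ O × Ix Q L T C)) ⊕ ((O ⊕ O) ⊕ O)))
    (fun q => match q with
    | .root => .inl (.inl ())
    | .leaf s => .inl (.inr s)
    | .join o => .inr (.inl (.inl o))
    | .step o τ => .inr (.inl (.inr (o, τ)))
    | .split o => .inr (.inr (.inl (.inl o)))
    | .left o => .inr (.inr (.inl (.inr o)))
    | .right o => .inr (.inr (.inr o))) ?_
  intro a b h
  cases a <;> cases b <;> simp_all

section
variable {N Q L T O C : Type}

/-- the source of a rule -/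
def TEd.src (S : Sg N Q L T O) : TEd N Q L T O C → TSt N O
  | .root => .root
  | .join o => .F (S.u o)
  | .step o _ => .J o
  | .split o => .J o
  | .left o => .Lf o
  | .right o => .Rt o
  | .leaf s => .F s

/-- the target of a rule -/
def TEd.tgt (S : Sg N Q L T O) (s₀ : N) : TEd N Q L T O C → TSt N O
  | .root => .F s₀
  | .join o => .J o
  | .step o _ => .J o
  | .split o => .B o
  | .left o => .F (S.s o)
  | .right o => .F (S.t o)
  | .leaf _ => .fin

/-- the branching -/
def TSt.br : TSt N O → Option (TSt N O × TSt N O)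
  | .B o => some (.Lf o, .Rt o)
  | _ => none

/-- the coordinates: left elements, right elements which are not inserted, inserted elements -/
abbrev VI (Q L T C : Type) : Type := Ix Q L T C ⊕ Ix Q L T C ⊕ Ix Q L T C

variable [Fintype Q] [Fintype L] [Fintype T] [Fintype C]

/-- the relations -/
def TEd.P (S : Sg N Q L T O) (K : Cp C) (Ok : St L T C → Prop) : TEd N Q L T O C →
    (VI Q L T C ⊕ (Ix Q L T C × T) ⊕ VI Q L T C ⊕ Unit → ℕ) → Prop
  | .root, v => tot (fun σ => v (.inr (.inr (.inl (.inl σ))))) = v (.inr (.inr (.inr ()))) ∧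
      ∀ σ : Ix Q L T C, v (.inr (.inr (.inl (.inl σ)))) ≠ 0 → Ok σ.2
  | .join o, v => Fn S o (fun σ => v (.inr (.inr (.inl (.inl σ)))))
      (fun σ => v (.inr (.inr (.inl (.inr (.inr σ)))))) (fun σ => v (.inl (.inl σ))) ∧
      ∀ σ : Ix Q L T C, v (.inr (.inr (.inl (.inr (.inl σ))))) = 0
  | .step o τ, v => Step S K o τ (fun p => v (.inr (.inl p)))
      (fun σ => v (.inr (.inr (.inl (.inl σ))))) (fun σ => v (.inr (.inr (.inl (.inr (.inl σ))))))
      (fun σ => v (.inr (.inr (.inl (.inr (.inr σ)))))) (fun σ => v (.inl (.inl σ)))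
      (fun σ => v (.inl (.inr (.inl σ)))) (fun σ => v (.inl (.inr (.inr σ))))
  | .split _, v => (∀ σ : Ix Q L T C, v (.inl (.inr (.inr σ))) = 0) ∧
      ∀ i : VI Q L T C, v (.inr (.inr (.inl i))) = v (.inl i)
  | .left _, v => ∀ σ : Ix Q L T C, v (.inr (.inr (.inl (.inl σ)))) = v (.inl (.inl σ))
  | .right _, v => ∀ σ : Ix Q L T C, v (.inr (.inr (.inl (.inl σ)))) = v (.inl (.inr (.inl σ)))
  | .leaf s, v => Ptc S K s (fun σ => v (.inl (.inl σ)))

/-- accepting trees -/
abbrev DTr (S : Sg N Q L T O) (K : Cp C) (Ok : St L T C → Prop) (s₀ : N) (M n : ℕ) :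
    TSt N O → (VI Q L T C → ℕ) → ℕ → Prop :=
  AuT (TEd.src S) (TEd.tgt (C := C) S s₀) TSt.br .fin (TEd.P S K Ok) M n

end

/-- the relations are recognised by automata -/
def T_TRG : Prop := ∀ (N Q L T O C : Type) [Fintype Q] [Fintype L] [Fintype T] [Fintype C]
  (S : Sg N Q L T O) (K : Cp C) (Ok : St L T C → Prop) (e : TEd N Q L T O C), Rg (TEd.P S K Ok e)

/-- generated structures have small trees -/
def T_TUA : Prop := ∀ (N Q L T O C : Type) [Fintype Q] [Fintype L] [Fintype T] [Fintype C]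
  (S : Sg N Q L T O) (K : Cp C) (Ok : St L T C → Prop) (s₀ : N) (M n : ℕ), n < M →
  ∀ (s : N) (c : Ix Q L T C → ℕ), RF S K s c → tot c ≤ n → ∃ k ≤ 10 * (tot c) ^ 2,
    ∀ v : VI Q L T C → ℕ, (∀ σ, v (.inl σ) = c σ) → DTr S K Ok s₀ M n (.F s) v k

/-- trees come from generated structures -/
def T_TUB : Prop := ∀ (N Q L T O C : Type) [Fintype Q] [Fintype L] [Fintype T] [Fintype C]
  [Nonempty T] (S : Sg N Q L T O) (K : Cp C) (Ok : St L T C → Prop) (s₀ : N) (M n : ℕ),
  STriv S → ∀ (v : VI Q L T C → ℕ) (k : ℕ), DTr S K Ok s₀ M n .root v k →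
    ∃ c, RF S K s₀ c ∧ tot c = n ∧ ∀ σ, c σ ≠ 0 → Ok σ.2

/-! ### assembly -/

/-- the upper bound for grammars -/
def T_TUG : Prop := ∀ (N Q : Type) [Finite N] [Finite Q] (G : Gram N Q), GTriv G →
  ∀ (m : ℕ) (s₀ : N) (φ : C2), lang (specG G m s₀ φ) ∈ LCF

/-- the upper bound for grammars and counting monadic second-order logic -/
def T_TUM : Prop := ∀ (N Q : Type) [Finite N] [Finite Q] (G : Gram N Q), GTriv G →
  ∀ (m : ℕ) (s₀ : N) (Ψ : MS) (φ : C2), Ψ.Below m → lang (specM G m s₀ Ψ φ) ∈ LCF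

/-- the grammar of the blow-ups of trees: the colours are `0` (block of the root), `1` (its children),
`2`; sort `false` is one element -/
noncomputable def tbG : Gram Bool (Fin 3) where
  pts := [true, false].flatMap fun s => [true, false].map fun x =>
    { s := s, q := 0, un := fun _ => x = true, lp := fun _ => True }
  ops := [
    { s := true, t := false, u := true, l := fun _ p _ => p = 0, r := fun _ p _ => p ≠ 2,
      f := id, g := id, D := {n | 0 < n} },
    { s := true, t := true, u := true, l := fun _ p q => p = 0 ∧ q = 0, r := fun _ _ _ => False,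
      f := id, g := fun q => if q = 0 then 1 else 2, D := {n | 0 < n} }]

/-- blow-ups of trees are generated -/
def T_TGA : Prop := ∀ (A : Type) [Finite A] [Nonempty A] (P : ℕ → A → Prop)
  (R : ℕ → A → A → Prop), TreeBlowUp (R 0) → ∃ c, tbG.Gen 1 P R true Set.univ c

/-- only blow-ups of trees are generated -/
def T_TGB : Prop := ∀ (A : Type) [Finite A] (P : ℕ → A → Prop) (R : ℕ → A → A → Prop),
  (∃ c, tbG.Gen 1 P R true Set.univ c) → TreeBlowUp (R 0)

/-- the upper bound -/
def T_TUP : Prop :=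
  (∀ (N Q : Type) [Finite N] [Finite Q] (G : Gram N Q), (∀ o ∈ G.ops, o.D = {n | 0 < n}) →
    ∀ (m : ℕ) (s₀ : N) (Ψ : MS) (φ : C2), Ψ.Below m → lang (specM G m s₀ Ψ φ) ∈ LCF) ∧
  (∀ (k m : ℕ) (Ψ : MS) (φ : C2), Ψ.Below m → lang (specWM k m Ψ φ) ∈ LCF) ∧
  ∀ φ : C2, lang (specTB φ) ∈ LCF

end Pool.Agent.H46.CH
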