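import Pool.Agent.H46.CH.DD

/-!
# Blow-ups of trees have NLC-width at most 2: target
-/

set_option autoImplicit false

namespace Pool.Agent.H46.CH

open Pool.Agent.H8.VR

/-- blow-ups of trees have NLC-width at most 2 -/
def T_TW2 : Prop := ∀ (A : Type) [Finite A] [Nonempty A] (R : ℕ → A → A → Prop),
  TreeBlowUp (R 0) → ∃ c, NLC 2 1 R Set.univ c

end Pool.Agent.H46.CH
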