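import Pool.Agent.H8.JS.Defs
import Pool.Agent.H69.VR.MDefs

/-!
# Two-variable logic with counting over structures of bounded linear width: definitions
-/

set_option autoImplicit false

namespace Pool.Agent.H46.CH

open Pool.Agent.H8.JS Pool.Agent.H8.VR Pool.Agent.H69.VR

/-- All computations of the machine on the input `x` visit only the cells `0, …, w - 1` of the
tapes. -/
def Space (M : NTM) (x : List Bool) (w : ℕ) : Prop :=
  ∀ (l : ℕ) (c : ℕ → Cfg M), IsComp M (init M x) l c → ∀ j, (c l).hd j < w

/-- The languages accepted by nondeterministic machines in space `s n` for the inputs of length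
`n`. -/
def NSPACE (s : ℕ → ℕ) : Set (Set (List Bool)) :=
  {L | ∃ M : NTM, ∀ x, Space M x (s x.length) ∧ (x ∈ L ↔ Pool.Agent.H8.JS.Acc M x)}

/-- Nondeterministic linear space, `NSPACE (O(n))`. -/
def NLIN : Set (Set (List Bool)) := {L | ∃ c, L ∈ NSPACE (fun n => c * (n + 1))}

/-- `LNLC k m R X c`: the structure with universe `X` and binary relations `R i`, `i < m`, with the
colours `c` is built with `k` colours from a one-element structure by adding elements one by one; the
relations between the old elements and the new element depend only on the colours of the old elements,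
which are changed by `f` afterwards; the new element gets any colour. -/
inductive LNLC {A : Type} (k m : ℕ) (R : ℕ → A → A → Prop) : Set A → (A → Fin k) → Prop
  | pt (a : A) (c : A → Fin k) : LNLC k m R {a} c
  | op (X : Set A) (b : A) (c c₁ : A → Fin k) (h₁ : LNLC k m R X c₁) (hb : b ∉ X)
      (l r : ℕ → Fin k → Prop) (f : Fin k → Fin k)
      (hR : ∀ a ∈ X, ∀ i < m, (R i a b ↔ l i (c₁ a)) ∧ (R i b a ↔ r i (c₁ a)))
      (hX : ∀ a ∈ X, c a = f (c₁ a)) : LNLC k m R (X ∪ {b}) c

/-- The sizes of the models of `Ψ` and `φ` in which the relations `R 0, …, R (m - 1)` have linear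
NLC-width at most `k`. -/
def specLM (k m : ℕ) (Ψ : MS) (φ : C2) : Set ℕ :=
  {n | 0 < n ∧ ∃ (P : ℕ → Fin n → Prop) (R : ℕ → Fin n → Fin n → Prop),
    (∃ c, LNLC k m R Set.univ c) ∧ (∀ (e : ℕ → Fin n) (V : ℕ → Set (Fin n)), Ψ.Sat P R e V) ∧
      ∀ v : Bool → Fin n, φ.Sat P R v}

/-- `R` is the blow-up of a path: the elements are distributed over nonempty blocks `0, …, T`, and
`R x y` holds iff the block of `y` is the block of `x` or the next one. -/
def PathBlowUp {A : Type} (R : A → A → Prop) : Prop :=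
  ∃ (T : ℕ) (b : A → ℕ), (∀ i, (∃ x, b x = i) ↔ i ≤ T) ∧
    ∀ x y, (R x y ↔ b x ≤ b y ∧ b y ≤ b x + 1)

/-- The sizes of the models of `φ` in which `R 0` is the blow-up of a path. -/
def specPB (φ : C2) : Set ℕ :=
  {n | 0 < n ∧ ∃ (P : ℕ → Fin n → Prop) (R : ℕ → Fin n → Fin n → Prop), PathBlowUp (R 0) ∧
    ∀ v : Bool → Fin n, φ.Sat P R v}

/-- Context-sensitive level: over structures of bounded linear NLC-width all languages are in
nondeterministic linear space, and path blow-ups carry all of nondeterministic linear space. -/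
def T_CS : Prop :=
  (∀ (k m : ℕ) (Ψ : MS) (φ : C2), Ψ.Below m → lang (specLM k m Ψ φ) ∈ NLIN) ∧
  (∀ φ : C2, lang (specPB φ) ∈ NLIN) ∧
  ∀ L ∈ NLIN, ∃ (φ : C2) (p : Polynomial ℤ), ∀ x : List Bool, ∃ y : List Bool,
    (num y : ℤ) = p.eval (num x : ℤ) ∧ (x ∈ L ↔ y ∈ lang (specPB φ))

end Pool.Agent.H46.CH
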